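import Pool.Agent.MP_2ab689_gt.Fam.Spec

/-!
Local maxima are critical points; a configuration of large volume.
-/

namespace Pool.Agent.MP_2ab689_gt.Fam

open Big Filter Topology

namespace CritA

theorem ip_crs (x b c : V) : ip x (crs b c) = det3 x b c := by
  simp only [det3, ip, crs, Matrix.cons_val_zero, Matrix.cons_val_one, Matrix.cons_val_two,
    Matrix.head_cons, Matrix.tail_cons]
  ring

theorem ip_zero (x : V) : ip x 0 = 0 := by simp [ip]

theorem FF_update {K : ℕ} {T : List Tri} (h : Wf K T) (q : ℕ → V) (v : ℕ) (y : V) :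
    FF T (Function.update q v y) = FF T q + ip (y - q v) (NN T q v) := by
  induction T with
  | nil => simp [FF, NN, rots, ip_zero]
  | cons f T ih =>
    have ih := ih fun g hg => h g (List.mem_cons_of_mem _ hg)
    obtain ⟨-, -, -, h1, h2, h3⟩ := h f List.mem_cons_self
    obtain ⟨a, b, c⟩ := f
    simp only [FF, NN, rots, List.flatMap_cons, List.map_append, List.sum_append, List.map_cons,
      List.sum_cons, List.map_nil, List.sum_nil, ip_add_right, add_zero] at ih h1 h2 h3 ⊢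
    rw [ih]
    by_cases ha : a = v
    · subst ha
      simp only [Function.update_self, Function.update_of_ne h1.symm, Function.update_of_ne h3,
        if_true, if_neg h1.symm, if_neg h3, ip_zero, ip_crs, det3, Pi.sub_apply]
      ring
    by_cases hb : b = v
    · subst hb
      simp only [Function.update_self, Function.update_of_ne h1, Function.update_of_ne h2.symm,
        if_true, if_neg h1, if_neg h2.symm, ip_zero, ip_crs, det3, Pi.sub_apply]
      ring
    by_cases hc : c = v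
    · subst hc
      simp only [Function.update_self, Function.update_of_ne h2, Function.update_of_ne h3.symm,
        if_true, if_neg h2, if_neg h3.symm, ip_zero, ip_crs, det3, Pi.sub_apply]
      ring
    simp only [Function.update_of_ne ha, Function.update_of_ne hb, Function.update_of_ne hc,
      if_neg ha, if_neg hb, if_neg hc, ip_zero]
    ring

/-- A local maximum of a linear form on the sphere. -/
theorem sphere {x N : V} {ε : ℝ} (hε : 0 < ε) (hx : ip x x = 1)
    (h : ∀ y, ip y y = 1 → nv (y - x) ≤ ε → ip (y - x) N ≤ 0) : crs x N = 0 := by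
  obtain ⟨k, hk⟩ : ∃ k, k = ip x N := ⟨_, rfl⟩
  obtain ⟨w, rfl⟩ : ∃ w, N = w + k • x := ⟨N - k • x, by simp⟩
  have hw : ip x w = 0 := by
    simp only [ip, Pi.add_apply, Pi.smul_apply, smul_eq_mul] at hk hx ⊢
    linear_combination -hk - k * hx
  obtain ⟨W, hW⟩ : ∃ W, W = ip w w := ⟨_, rfl⟩
  have W0 : 0 ≤ W := hW ▸ ip_self_nonneg w
  have e1 : ∀ᶠ s : ℝ in 𝓝 0, s * k < 1 :=
    ((by fun_prop : Continuous fun s : ℝ => s * k).tendsto' 0 0 (by simp)).eventually_lt_const
      one_pos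
  have e2 : ∀ᶠ s : ℝ in 𝓝 0, 4 * s ^ 2 * W < ε ^ 2 :=
    ((by fun_prop : Continuous fun s : ℝ => 4 * s ^ 2 * W).tendsto' 0 0
      (by simp)).eventually_lt_const (by positivity)
  obtain ⟨s, ⟨s1, s2⟩, s0⟩ := (((e1.and e2).filter_mono nhdsWithin_le_nhds).and
    (self_mem_nhdsWithin (s := Set.Ioi (0 : ℝ)))).exists
  replace s0 : 0 < s := s0
  obtain ⟨d, hd⟩ : ∃ d, d = (1 + s ^ 2 * W)⁻¹ := ⟨_, rfl⟩
  have d0 : 0 < d := by rw [hd]; positivity
  have d1 : d * (1 + s ^ 2 * W) = 1 := by rw [hd]; exact inv_mul_cancel₀ (by positivity)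
  have a1 : ∀ α β γ δ : ℝ, ip (α • x + β • w) (γ • x + δ • w) = α * γ + β * δ * W := by
    intro α β γ δ
    simp only [ip, Pi.add_apply, Pi.smul_apply, smul_eq_mul] at hw hx hW ⊢
    linear_combination α * γ * hx + (α * δ + β * γ) * hw - β * δ * hW
  have a2 : (d * (1 - s ^ 2 * W)) • x + (2 * s * d) • w - x =
      (-2 * d * s ^ 2 * W) • x + (2 * s * d) • w := by
    rw [show d * (1 - s ^ 2 * W) = -2 * d * s ^ 2 * W + 1 by linear_combination d1, add_smul,
      one_smul]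
    abel
  have a3 := h ((d * (1 - s ^ 2 * W)) • x + (2 * s * d) • w)
    (by rw [a1]; linear_combination (d * (1 + s ^ 2 * W) + 1) * d1) (by
      rw [a2, nv_le_iff hε.le, a1]
      have : 0 ≤ d * (s ^ 2 * W) ^ 2 := by positivity
      have e : -2 * d * s ^ 2 * W * (-2 * d * s ^ 2 * W) + 2 * s * d * (2 * s * d) * W =
          4 * s ^ 2 * W - 4 * (d * (s ^ 2 * W) ^ 2) := by
        linear_combination (4 * s ^ 2 * W * (d + 1)) * d1
      linarith)
  rw [a2, show w + k • x = k • x + (1 : ℝ) • w by rw [one_smul, add_comm], a1] at a3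
  have a4 : W ≤ 0 := by
    by_contra c
    have : 0 < 2 * s * d * W * (1 - s * k) :=
      mul_pos (mul_pos (by positivity) (not_le.1 c)) (sub_pos.2 s1)
    linarith
  rw [eq_zero_of_ip (a := w) (hW ▸ a4), zero_add]
  ext i
  fin_cases i <;> simp [crs] <;> ring

/-- The entries of the table. -/
def tz (K v : ℕ) : ℤ × ℤ × ℤ := (data K).1.getD v 0

/-- The squared length. -/
def nz (a : ℤ × ℤ × ℤ) : ℤ := a.1 * a.1 + a.2.1 * a.2.1 + a.2.2 * a.2.2

/-- The determinant. -/
def dz (a b c : ℤ × ℤ × ℤ) : ℤ := a.1 * (b.2.1 * c.2.2 - b.2.2 * c.2.1) -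
  a.2.1 * (b.1 * c.2.2 - b.2.2 * c.1) + a.2.2 * (b.1 * c.2.1 - b.2.1 * c.1)

/-- The weighted determinant. -/
def wz (a b c : ℤ × ℤ × ℤ) : ℤ :=
  dz a b c * (3 * 10 ^ 14 - nz a) * (3 * 10 ^ 14 - nz b) * (3 * 10 ^ 14 - nz c)

theorem check : ∀ K ∈ Ks,
    (∀ v < K, 999 * 10 ^ 11 ≤ nz (tz K v) ∧ nz (tz K v) ≤ 1001 * 10 ^ 11) ∧
    ((tz K 0).1 = 0 ∧ (tz K 0).2.1 = 0 ∧ (tz K 1).2.1 = 0) ∧
    (∀ f ∈ fac K, 0 ≤ dz (tz K f.1) (tz K f.2.1) (tz K f.2.2)) ∧
    48 * 10 ^ 50 * (lowN K : ℤ) ≤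
      ((fac K).map fun f => wz (tz K f.1) (tz K f.2.1) (tz K f.2.2)).sum := by
  decide +kernel

theorem ip_cen (K v : ℕ) : ip (cen K v) (cen K v) = (nz (tz K v) : ℝ) / 10 ^ 14 := by
  simp only [cen_eq, ip, nz, tz, Matrix.cons_val_zero, Matrix.cons_val_one, Matrix.cons_val_two,
    Matrix.head_cons, Matrix.tail_cons]
  push_cast
  ring

theorem det_cen (K a b c : ℕ) : det3 (cen K a) (cen K b) (cen K c) =
    (dz (tz K a) (tz K b) (tz K c) : ℝ) / 10 ^ 21 := by
  simp only [cen_eq, det3, dz, tz, Matrix.cons_val_zero, Matrix.cons_val_one, Matrix.cons_val_two,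
    Matrix.head_cons, Matrix.tail_cons]
  push_cast
  ring

theorem unit {t : V} (h1 : 999 / 1000 ≤ ip t t) (h2 : ip t t ≤ 1001 / 1000) :
    ip ((nv t)⁻¹ • t) ((nv t)⁻¹ • t) = 1 ∧ nv ((nv t)⁻¹ • t - t) ≤ 1 / 500 ∧
      (3 - ip t t) / 2 ≤ (nv t)⁻¹ := by
  rw [← nv_sq] at h1 h2
  have n0 := nv_nonneg t
  have l1 : 499 / 500 ≤ nv t := by nlinarith
  have l2 : nv t ≤ 501 / 500 := by nlinarith
  have p : 0 < nv t := by linarith
  refine ⟨?_, ?_, ?_⟩
  · rw [← nv_sq, nv_smul, abs_of_pos (inv_pos.2 p), inv_mul_cancel₀ p.ne', one_pow]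
  · rw [show (nv t)⁻¹ • t - t = ((nv t)⁻¹ - 1) • t by rw [sub_smul, one_smul], nv_smul]
    nth_rewrite 2 [← abs_of_pos p]
    rw [← abs_mul, sub_mul, inv_mul_cancel₀ p.ne', abs_le]
    constructor <;> linarith
  · rw [← nv_sq, ← one_div, le_div_iff₀ p]
    nlinarith [mul_nonneg (sq_nonneg (nv t - 1)) (by linarith : 0 ≤ nv t + 2)]

end CritA

open CritA

theorem crit : CritS := by
  intro K T q ε hT hε hq h v hv
  refine sphere hε (hq v hv) fun y h1 h2 => ?_
  have := h (Function.update q v y) (fun u hu => by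
    by_cases e : u = v
    · rwa [e, Function.update_self]
    · rw [Function.update_of_ne e]; exact hq u hu) (fun u hu => by
    by_cases e : u = v
    · rwa [e, Function.update_self]
    · rw [Function.update_of_ne e, sub_self, nv_zero]; exact hε.le)
  rw [FF_update hT] at this
  linarith

theorem vlow : VlowS := by
  intro K hK
  obtain ⟨c1, ⟨g1, g2, g3⟩, c3, c4⟩ := check K hK
  have b : ∀ v < K, 999 / 1000 ≤ ip (cen K v) (cen K v) ∧ ip (cen K v) (cen K v) ≤ 1001 / 1000 :=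
    fun v hv => by
    have h1 : ((999 * 10 ^ 11 : ℤ) : ℝ) ≤ _ := Int.cast_le.2 (c1 v hv).1
    have h2 : _ ≤ ((1001 * 10 ^ 11 : ℤ) : ℝ) := Int.cast_le.2 (c1 v hv).2
    rw [ip_cen]
    push_cast at h1 h2
    constructor <;> linarith
  have u := fun v hv => unit (b v hv).1 (b v hv).2
  rw [tz] at g1 g2 g3
  refine ⟨fun v => (nv (cen K v))⁻¹ • cen K v, fun v hv => (u v hv).1, fun v hv => (u v hv).2.1,
    ?_, ?_, ?_, ?_⟩
  · simp only [Pi.smul_apply, cen_eq K 0, Matrix.cons_val_zero, g1, Int.cast_zero, zero_div,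
      smul_zero]
  · simp only [Pi.smul_apply, cen_eq K 0, Matrix.cons_val_one, Matrix.cons_val_zero, g2,
      Int.cast_zero, zero_div, smul_zero]
  · simp only [Pi.smul_apply, cen_eq K 1, Matrix.cons_val_one, Matrix.cons_val_zero, g3,
      Int.cast_zero, zero_div, smul_zero]
  have h4 : ((48 * 10 ^ 50 * (lowN K : ℤ) : ℤ) : ℝ) ≤ _ := Int.cast_le.2 c4
  rw [Int.cast_list_sum, List.map_map] at h4
  push_cast at h4
  refine le_trans (b := ((fac K).map fun f =>
    (wz (tz K f.1) (tz K f.2.1) (tz K f.2.2) : ℝ)).sum * (8 * 10 ^ 63)⁻¹) ?_ ?_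
  · rw [low, ← div_eq_mul_inv, le_div_iff₀ (by positivity)]
    exact le_trans (le_of_eq (by ring)) h4
  rw [← List.sum_map_mul_right]
  refine List.sum_le_sum fun f hf => ?_
  obtain ⟨f1, f2, f3, -⟩ := wf_fac K hK f hf
  have d0 : 0 ≤ det3 (cen K f.1) (cen K f.2.1) (cen K f.2.2) := by
    rw [det_cen]
    exact div_nonneg (Int.cast_nonneg (c3 f hf)) (by positivity)
  have k1 := (b _ f1).2
  have k2 := (b _ f2).2
  have k3 := (b _ f3).2
  calc _ = det3 (cen K f.1) (cen K f.2.1) (cen K f.2.2) * ((3 - ip (cen K f.1) (cen K f.1)) / 2) *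
        ((3 - ip (cen K f.2.1) (cen K f.2.1)) / 2) *
        ((3 - ip (cen K f.2.2) (cen K f.2.2)) / 2) := by
        rw [det_cen, ip_cen, ip_cen, ip_cen, wz]
        push_cast
        ring
    _ ≤ det3 (cen K f.1) (cen K f.2.1) (cen K f.2.2) * (nv (cen K f.1))⁻¹ * (nv (cen K f.2.1))⁻¹ *
        (nv (cen K f.2.2))⁻¹ := by
        have := nv_nonneg (cen K f.1)
        have := nv_nonneg (cen K f.2.1)
        gcongr
        exacts [by linarith, by linarith, (u _ f1).2.2, (u _ f2).2.2, (u _ f3).2.2]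
    _ = _ := by
        simp only [det3, Pi.smul_apply, smul_eq_mul]
        ring

end Pool.Agent.MP_2ab689_gt.Fam
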