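import Pool.Agent.MP_2ab689_gt.Fam.Spec

/-!
The degrees of a mesh of large volume.
-/

namespace Pool.Agent.MP_2ab689_gt.Fam

open Real Big

namespace Deg

/-- The upper bound for six times the volume (unit `10 ^ (-11)`). -/
def bd (K a b c d e x : ℕ) : ℤ :=
  1000000 * (3 * a * (kU K).getD 0 0 + 4 * b * (kU K).getD 1 0 + 5 * c * (kU K).getD 2 0 +
    6 * d * (kU K).getD 3 0 + (7 * e + x) * (kU K).getD 4 0) +
  6283186 * (a * (lamU K).getD 0 0 + b * (lamU K).getD 1 0 + c * (lamU K).getD 2 0 +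
    d * (lamU K).getD 3 0 + e * (lamU K).getD 4 0)

/-- The check for one degree sequence. -/
def ok (K a b c d e x : ℕ) : Bool :=
  !(3 * a + 4 * b + 5 * c + 6 * d + 7 * e + x + 12 == 6 * K) || (e == 0 && !(x == 0)) ||
    decide (100 * bd K a b c d e x < 6 * lowN K) || (x == 0 && decide ([a, b, c, d, e] ∈ keep K))

theorem chk : ∀ K ∈ Ks, ∀ a < K + 1, ∀ b < K + 1 - a, ∀ c < K + 1 - a - b,
    ∀ d < K + 1 - a - b - c, ok K a b c d (K - a - b - c - d)
      (6 * K - 12 - (3 * a + 4 * b + 5 * c + 6 * d + 7 * (K - a - b - c - d))) = true := by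
  decide +kernel

theorem lam0 : ∀ K ∈ Ks, 0 < K ∧ ∀ i < 5, 0 ≤ (lamU K).getD i 0 := by decide +kernel

theorem chk' {K a b c d e x : ℕ} (hK : K ∈ Ks) (h1 : a + b + c + d + e = K)
    (h2 : 3 * a + 4 * b + 5 * c + 6 * d + 7 * e + x + 12 = 6 * K) (h3 : e = 0 → x = 0)
    (h4 : 6 * (lowN K : ℤ) ≤ 100 * bd K a b c d e x) : x = 0 ∧ [a, b, c, d, e] ∈ keep K := by
  have := chk K hK a (by omega) b (by omega) c (by omega) d (by omega)
  rw [show K - a - b - c - d = e by omega,
    show 6 * K - 12 - (3 * a + 4 * b + 5 * c + 6 * d + 7 * e) = x by omega] at this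
  simp only [ok, Bool.or_eq_true, Bool.and_eq_true, Bool.not_eq_true', beq_eq_false_iff_ne,
    beq_iff_eq, decide_eq_true_eq] at this
  rcases this with ((k | k) | k) | k
  · exact absurd h2 k
  · exact absurd (h3 k.1) k.2
  · exact absurd h4 (not_le.2 k)
  · exact k

/-- The face inequality for three degree classes. -/
def G (K a b c : ℕ) : Prop :=
  FaceLe (kR K a + kR K b + kR K c) (lamR K a) (lamR K b) (lamR K c) 0 0 0

theorem G.rot {K a b c : ℕ} (h : G K a b c) : G K b c a := by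
  have := FaceLe.rot h
  rwa [show kR K a + kR K b + kR K c = kR K b + kR K c + kR K a by ring] at this

theorem G.swap {K a b c : ℕ} (h : G K a b c) : G K a c b := by
  have := FaceLe.swap h
  rwa [add_right_comm] at this

theorem kR_min (K d : ℕ) : kR K (min d 7) = kR K d := by rw [kR, kR, min_assoc, min_self]

theorem lamR_min (K d : ℕ) : lamR K (min d 7) = lamR K d := by
  rw [lamR, lamR, min_assoc, min_self]

theorem all (h : UniS) {K a b c : ℕ} (hK : K ∈ Ks) (ha : 3 ≤ a) (hb : 3 ≤ b) (hc : 3 ≤ c) :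
    G K a b c := by
  have k : ∀ a b c, 3 ≤ a → a ≤ b → b ≤ c → G K a b c := fun a b c h1 h2 h3 => by
    have := h K hK (min a 7) (min b 7) (min c 7) (by omega) (by omega) (by omega) (by omega)
    simpa only [G, kR_min, lamR_min] using this
  rcases le_total a b with h1 | h1 <;> rcases le_total b c with h2 | h2 <;>
    rcases le_total a c with h3 | h3
  · exact k a b c ha h1 h2
  · exact k a b c ha h1 h2
  · exact (k a c b ha h3 h2).swap
  · exact (k c a b hc h3 h1).rot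
  · exact (k b a c hb h1 h3).swap.rot.rot
  · exact (k b c a hb h2 h3).rot.rot
  · exact (k c b a hc h2 h1).swap.rot
  · exact (k c b a hc h2 h1).swap.rot

variable {ι Φ : Type} [Fintype ι] [Fintype Φ] (M : Mesh ι Φ)

theorem three (v : ι) : 3 ≤ M.deg v := by
  obtain ⟨d, hd⟩ := M.exists_flag v
  have h1 := Finset.sum_lt_sum_of_nonempty ⟨d, M.mem_star.2 hd⟩ fun d _ => M.θ_lt d
  rw [M.angle_sum, Finset.sum_const, nsmul_eq_mul, ← Mesh.deg] at h1
  have h2 : (2 : ℝ) < M.deg v := lt_of_mul_lt_mul_right h1 pi_pos.le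
  exact_mod_cast h2

theorem glob (h : UniS) {K : ℕ} (hK : K ∈ Ks) :
    6 * M.vol ≤ ∑ v, (M.deg v * kR K (M.deg v) + 2 * π * lamR K (M.deg v)) := by
  obtain ⟨H, hH⟩ : ∃ H : Φ → ℝ, ∀ d, H d =
    kR K (M.deg (M.tl d)) + lamR K (M.deg (M.tl d)) * M.θ d := ⟨_, fun _ => rfl⟩
  have h1 : ∀ d ∈ Finset.univ, M.D d ≤ H d + H (M.φ d) + H (M.φ (M.φ d)) := fun d _ => by
    have := all h hK (three M (M.tl d)) (three M (M.tl (M.φ d))) (three M (M.tl (M.φ (M.φ d))))
      _ _ _ (M.uA d) (M.uB d) (M.uC d) (M.D_pos d)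
    simp only [hH, theta_eq, M.A_φ, M.B_φ, M.C_φ]
    rw [rhs] at this
    rw [Mesh.D]
    linarith
  have h2 := Finset.sum_le_sum h1
  rw [M.sum_D, Finset.sum_add_distrib, Finset.sum_add_distrib, M.sum_φφ, M.sum_φ,
    ← M.sum_star] at h2
  have h3 : ∀ v ∈ Finset.univ, ∑ d ∈ M.star v, H d =
      M.deg v * kR K (M.deg v) + 2 * π * lamR K (M.deg v) := fun v _ => by
    rw [Finset.sum_congr rfl fun d hd => (hH d).trans (by rw [M.mem_star.1 hd]),
      Finset.sum_add_distrib, ← Finset.mul_sum, M.angle_sum, Finset.sum_const, nsmul_eq_mul,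
      ← Mesh.deg, mul_comm (2 * π)]
  rw [Finset.sum_congr rfl h3] at h2
  linarith

/-- The number of vertices in a class. -/
def nn (c : ι → ℕ) (i : ℕ) : ℕ := (Finset.univ.filter fun v => c v = i).card

theorem fib {R : Type} [CommSemiring R] {c : ι → ℕ} (h : ∀ v, 3 ≤ c v ∧ c v ≤ 7) (g : ℕ → R) :
    ∑ v, g (c v) = nn c 3 * g 3 + nn c 4 * g 4 + nn c 5 * g 5 + nn c 6 * g 6 + nn c 7 * g 7 := by
  rw [← Finset.sum_fiberwise_of_maps_to' (t := Finset.Icc 3 7)
    (fun v _ => Finset.mem_Icc.2 (h v)) g, show Finset.Icc 3 7 = {3, 4, 5, 6, 7} from rfl]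
  simp [nn, add_assoc]

end Deg

open Deg in
theorem deg (h : UniS) : DegS := by
  intro K hK Φ _ M hv
  obtain ⟨hK0, hl⟩ := lam0 K hK
  have : Nonempty (Fin K) := ⟨⟨0, hK0⟩⟩
  obtain ⟨c, hc⟩ : ∃ c : Fin K → ℕ, ∀ v, c v = min (M.deg v) 7 := ⟨_, fun _ => rfl⟩
  have h3 := three M
  have h37 : ∀ v, 3 ≤ c v ∧ c v ≤ 7 := fun v => by
    have := h3 v
    rw [hc]
    omega
  obtain ⟨x, hx⟩ : ∃ x, x = ∑ v, (M.deg v - 7) := ⟨_, rfl⟩
  have e1 : nn c 3 + nn c 4 + nn c 5 + nn c 6 + nn c 7 = K := by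
    simpa using (fib h37 fun _ => (1 : ℕ)).symm
  have e2 : 3 * nn c 3 + 4 * nn c 4 + 5 * nn c 5 + 6 * nn c 6 + 7 * nn c 7 + x + 12 = 6 * K := by
    have a1 := fib h37 fun i => i
    have a2 : ∑ v, M.deg v = Fintype.card Φ := by exact_mod_cast M.sum_deg
    have a3 : ∑ v, M.deg v = ∑ v, c v + x := by
      rw [hx, ← Finset.sum_add_distrib]
      exact Finset.sum_congr rfl fun v _ => by rw [hc]; omega
    have a4 := M.card
    have a5 : 6 * (Fintype.card (Fin K) : ℝ) ≤ Fintype.card Φ + 12 := by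
      linarith [T32.euler M]
    have a6 : 6 * Fintype.card (Fin K) ≤ Fintype.card Φ + 12 := by exact_mod_cast a5
    simp only [Nat.cast_id, Fintype.card_fin] at a1 a4 a6
    omega
  have e3 : nn c 7 = 0 → x = 0 := fun e => by
    rw [hx]
    refine Finset.sum_eq_zero fun v _ => ?_
    have := Finset.filter_eq_empty_iff.1 (Finset.card_eq_zero.1 e) (Finset.mem_univ v)
    rw [hc] at this
    omega
  have e4 : 6 * (lowN K : ℤ) ≤ 100 * bd K (nn c 3) (nn c 4) (nn c 5) (nn c 6) (nn c 7) x := by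
    have a1 := glob M h hK
    have a2 : ∑ v, (M.deg v * kR K (M.deg v) + 2 * π * lamR K (M.deg v)) =
        ∑ v, (c v * kR K (c v) + 2 * π * lamR K (c v)) + x * kR K 7 := by
      rw [hx, Nat.cast_sum, Finset.sum_mul, ← Finset.sum_add_distrib]
      refine Finset.sum_congr rfl fun v _ => ?_
      rw [hc, kR_min, lamR_min]
      rcases le_total (M.deg v) 7 with k | k
      · rw [min_eq_left k, Nat.sub_eq_zero_of_le k]
        simp
      · rw [← kR_min K (M.deg v), min_eq_right k, Nat.cast_sub k]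
        ring
    rw [a2, fib h37 fun i => i * kR K i + 2 * π * lamR K i] at a1
    have a3 : (0 : ℝ) ≤ nn c 3 * (lamU K).getD 0 0 + nn c 4 * (lamU K).getD 1 0 +
        nn c 5 * (lamU K).getD 2 0 + nn c 6 * (lamU K).getD 3 0 + nn c 7 * (lamU K).getD 4 0 := by
      have := hl 0 (by omega)
      have := hl 1 (by omega)
      have := hl 2 (by omega)
      have := hl 3 (by omega)
      have := hl 4 (by omega)
      positivity
    have a4 := mul_le_mul_of_nonneg_right pi_lt_d6.le a3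
    rw [low] at hv
    simp only [kR, lamR, Nat.reduceLeDiff, inf_of_le_left, Nat.reduceSub, le_refl] at a1
    have a5 : 6 * (lowN K : ℝ) ≤
        100 * (bd K (nn c 3) (nn c 4) (nn c 5) (nn c 6) (nn c 7) x : ℤ) := by
      rw [bd]
      push_cast at a1 ⊢
      linarith
    exact_mod_cast a5
  obtain ⟨x0, hk⟩ := chk' hK e1 e2 e3 e4
  have h7 : ∀ v, M.deg v ≤ 7 := fun v => by
    have := Finset.sum_eq_zero_iff.1 (hx.symm.trans x0) v (Finset.mem_univ v)
    omega
  obtain rfl : c = M.deg := funext fun v => (hc v).trans (min_eq_left (h7 v))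
  exact ⟨h37, hk⟩

end Pool.Agent.MP_2ab689_gt.Fam
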