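import Pool.Agent.MP_2ab689_gt.Fam.Spec

/-!
A critical point is a strict maximum where the comparison form is nonnegative.
-/

namespace Pool.Agent.MP_2ab689_gt.Fam

open Real Big

namespace HessA

theorem sum_list (K : ℕ) (q y : ℕ → V) (R : List Tri) (h : ∀ g ∈ R, g.1 < K) :
    (R.map fun g => det3 (y g.1) (q g.2.1) (q g.2.2)).sum = ∑ v ∈ Finset.range K,
      ip (y v) (R.map fun g => if g.1 = v then crs (q g.2.1) (q g.2.2) else 0).sum := by
  induction R with
  | nil => simp [ip]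
  | cons g R ih =>
    simp only [List.map_cons, List.sum_cons, ip_add_right, Finset.sum_add_distrib]
    rw [ih fun g' hg' => h g' (List.mem_cons_of_mem _ hg')]
    congr 1
    rw [Finset.sum_eq_single g.1]
    · rw [if_pos rfl]; simp [det3, ip, crs]; ring
    · intro v _ hv
      rw [if_neg (Ne.symm hv)]; simp [ip]
    · intro hg
      exact absurd (Finset.mem_range.2 (h g List.mem_cons_self)) hg

theorem par {q N : V} (x : V) (hq : ip q q = 1) (h : crs q N = 0) :
    ip x N = ip q x * ip q N := by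
  have h0 := congrFun h 0
  have h1 := congrFun h 1
  have h2 := congrFun h 2
  simp only [crs, Matrix.cons_val_zero, Matrix.cons_val_one, Matrix.cons_val, Pi.zero_apply]
    at h0 h1 h2
  unfold ip at *
  linear_combination (-(x 0 * N 0 + x 1 * N 1 + x 2 * N 2)) * hq +
    (q 1 * x 2 - q 2 * x 1) * h0 + (q 2 * x 0 - q 0 * x 2) * h1 + (q 0 * x 1 - q 1 * x 0) * h2

theorem rad {p q : V} (hp : ip p p = 1) (hq : ip q q = 1) :
    ip q (p - q) = -(ip (p - q) (p - q) / 2) := by
  rw [ip_sub_unit hp hq, ip_sub_right, hq, ip_comm q p]; ring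

theorem det_le {a b c : V} {α β γ : ℝ} (ha : nv a ≤ α) (hb : nv b ≤ β) (hc : nv c ≤ γ) :
    |det3 a b c| ≤ α * β * γ :=
  (abs_det3_le a b c).trans (mul_le_mul (mul_le_mul ha hb (nv_nonneg _) ((nv_nonneg _).trans ha))
    hc (nv_nonneg _) (mul_nonneg ((nv_nonneg _).trans ha) ((nv_nonneg _).trans hb)))

theorem det_close {a b c a' b' c' : V} {r : ℝ} (h0 : 0 ≤ r) (h1 : r ≤ 1 / 100)
    (ua : ip a a = 1) (ub : ip b b = 1)
    (ha : nv (a - a') ≤ r) (hb : nv (b - b') ≤ r) (hc : nv (c - c') ≤ r) (uc : ip c c = 1) :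
    det3 a' b' c' - det3 a b c ≤ 304 / 100 * r := by
  have e : det3 a' b' c' - det3 a b c = -det3 (a - a') b c - det3 a (b - b') c -
      det3 a b (c - c') + det3 a (b - b') (c - c') + det3 (a - a') b (c - c') +
      det3 (a - a') (b - b') c - det3 (a - a') (b - b') (c - c') := by
    simp only [det3, Pi.sub_apply]; ring
  have na := (nv_eq_one ua).le
  have nb := (nv_eq_one ub).le
  have nc := (nv_eq_one uc).le
  have d1 := abs_le.1 (det_le ha nb nc)
  have d2 := abs_le.1 (det_le na hb nc)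
  have d3 := abs_le.1 (det_le na nb hc)
  have d4 := abs_le.1 (det_le na hb hc)
  have d5 := abs_le.1 (det_le ha nb hc)
  have d6 := abs_le.1 (det_le ha hb nc)
  have d7 := abs_le.1 (det_le ha hb hc)
  have r2 : r * r ≤ r / 100 := by nlinarith
  have r3 : r * r * r ≤ r / 100 := by nlinarith
  rw [e]
  linarith [d1.1, d2.1, d3.1, d4.2, d5.2, d6.2, d7.1]

theorem face {a b c a' b' c' x y z : V} {r : ℝ} (h0 : 0 ≤ r) (h1 : r ≤ 1 / 100)
    (ua : ip a a = 1) (ub : ip b b = 1) (uc : ip c c = 1)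
    (ha : nv (a - a') ≤ r) (hb : nv (b - b') ≤ r) (hc : nv (c - c') ≤ r)
    (hx : nv x ≤ 2 * r) (hy : nv y ≤ 2 * r) (hz : nv z ≤ 2 * r) :
    (det3 a' b' c' - det3 a b c) / 2 * (ip x x + ip y y + ip z z) + det3 (a - a') y z +
      det3 (b - b') z x + det3 (c - c') x y + det3 x y z ≤
      33 / 10 * r * (ip x x + ip y y + ip z z) := by
  have d0 := det_close h0 h1 ua ub ha hb hc uc
  have d1 := (le_abs_self _).trans (det_le ha (le_refl (nv y)) (le_refl (nv z)))
  have d2 := (le_abs_self _).trans (det_le hb (le_refl (nv z)) (le_refl (nv x)))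
  have d3 := (le_abs_self _).trans (det_le hc (le_refl (nv x)) (le_refl (nv y)))
  have d4 := (le_abs_self _).trans (det_le hx (le_refl (nv y)) (le_refl (nv z)))
  have d5 := (le_abs_self _).trans (det_le (le_refl (nv x)) hy (le_refl (nv z)))
  have d6 := (le_abs_self _).trans (det_le (le_refl (nv x)) (le_refl (nv y)) hz)
  rw [← nv_sq, ← nv_sq, ← nv_sq]
  set X := nv x
  set Y := nv y
  set Z := nv z
  have s0 : 0 ≤ X ^ 2 + Y ^ 2 + Z ^ 2 := by positivity
  have s1 : Y * Z + Z * X + X * Y ≤ X ^ 2 + Y ^ 2 + Z ^ 2 := by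
    nlinarith [sq_nonneg (X - Y), sq_nonneg (Y - Z), sq_nonneg (Z - X)]
  have s2 := mul_le_mul_of_nonneg_left s1 h0
  have s3 := mul_le_mul_of_nonneg_right d0 s0
  have s4 := mul_nonneg h0 s0
  linarith

theorem tang {p q t : V} {r : ℝ} (hp : ip p p = 1) (hq : ip q q = 1) (h2 : nv (q - t) ≤ r)
    (hx : nv (p - q) ≤ 2 * r) : ip t (p - q) ^ 2 ≤ 4 * r ^ 2 * ip (p - q) (p - q) := by
  have e : ip t (p - q) = -(nv (p - q) ^ 2 / 2) - ip (q - t) (p - q) := by
    rw [nv_sq, ← rad hp hq, ip_sub_left]; ring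
  have a1 := abs_le.1 ((abs_ip_le (q - t) (p - q)).trans
    (mul_le_mul_of_nonneg_right h2 (nv_nonneg _)))
  have n0 := nv_nonneg (p - q)
  rw [← nv_sq]
  set X := nv (p - q)
  have a2 : X ^ 2 / 2 ≤ r * X := by nlinarith
  have a3 : |ip t (p - q)| ≤ 2 * r * X := by
    rw [e, abs_le]
    constructor <;> nlinarith [a1.1, a1.2, sq_nonneg X]
  calc _ = |ip t (p - q)| ^ 2 := (sq_abs _).symm
    _ ≤ (2 * r * X) ^ 2 := pow_le_pow_left₀ (abs_nonneg _) a3 2
    _ = _ := by ring

theorem sum_le {T : List Tri} {f g h k l : Tri → ℝ} (H : ∀ a ∈ T, f a + g a + l a ≤ h a + k a) :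
    (T.map f).sum + (T.map g).sum + (T.map l).sum ≤ (T.map h).sum + (T.map k).sum := by
  induction T with
  | nil => simp
  | cons a T ih =>
    simp only [List.map_cons, List.sum_cons]
    have := H a List.mem_cons_self
    have := ih fun b hb => H b (List.mem_cons_of_mem _ hb)
    linarith

theorem fin {T : List Tri} {f g h k l : Tri → ℝ} {S W : ℝ} (hF : 0 ≤ (T.map g).sum + W)
    (hl : (T.map k).sum = (T.map l).sum) (hv : W ≤ -S)
    (H : ∀ a ∈ T, f a + g a + l a ≤ h a + k a) : (T.map f).sum + S ≤ (T.map h).sum := by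
  linarith [sum_le H]

end HessA

open HessA in
theorem hessA : HessAS := by
  intro K T t p q r M hW h0 h1 hM hp hq np nq hC hF
  have hx : ∀ v < K, nv (p v - q v) ≤ 2 * r := fun v hv => by
    have a1 := nv_tri (p v) (t v) (q v)
    rw [nv_sub_comm (t v)] at a1
    linarith [np v hv, nq v hv]
  have hR : ∀ g ∈ rots T, g.1 < K := by
    intro g hg
    obtain ⟨f, hf, rfl | rfl | rfl⟩ := mem_rots.1 hg
    · exact (hW _ hf).1
    · exact (hW _ hf).2.1
    · exact (hW _ hf).2.2.1
  have hlin : ((rots T).map fun g => det3 ((p - q) g.1) (q g.2.1) (q g.2.2)).sum =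
      ((rots T).map fun g => det3 (-(ip ((p - q) g.1) ((p - q) g.1) / 2) • q g.1)
        (q g.2.1) (q g.2.2)).sum := by
    rw [sum_list K q (p - q) _ hR,
      sum_list K q (fun v => -(ip ((p - q) v) ((p - q) v) / 2) • q v) _ hR]
    refine Finset.sum_congr rfl fun v hv => ?_
    have hv' := Finset.mem_range.1 hv
    have e := par ((p - q) v) (hq v hv') (hC v hv')
    unfold NN at e
    rw [e, Pi.sub_apply, rad (hp v hv') (hq v hv')]
    simp only [ip, Pi.smul_apply, smul_eq_mul]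
    ring
  have hv : ∑ v ∈ Finset.range K, (M * ip (t v) ((p - q) v) ^ 2 -
      5 * M * r ^ 2 * ip ((p - q) v) ((p - q) v)) ≤
      -(M * r ^ 2 * ∑ v ∈ Finset.range K, ip (p v - q v) (p v - q v)) := by
    rw [Finset.mul_sum, ← Finset.sum_neg_distrib]
    refine Finset.sum_le_sum fun v hv => ?_
    have hv' := Finset.mem_range.1 hv
    have a := mul_le_mul_of_nonneg_left (tang (hp v hv') (hq v hv') (nq v hv') (hx v hv')) hM
    rw [Pi.sub_apply]
    linarith
  unfold form at hF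
  rw [sum_rots] at hF
  rw [sum_rots, sum_rots] at hlin
  unfold FF
  refine fin hF hlin hv fun f hf => ?_
  obtain ⟨a1, a2, a3, -⟩ := hW f hf
  have b := face (a' := t f.1) (b' := t f.2.1) (c' := t f.2.2) h0 h1 (hq _ a1) (hq _ a2) (hq _ a3)
    (nq _ a1) (nq _ a2) (nq _ a3) (hx _ a1) (hx _ a2) (hx _ a3)
  simp only [det3, ip, Pi.sub_apply, Pi.smul_apply, smul_eq_mul] at b ⊢
  linarith

end Pool.Agent.MP_2ab689_gt.Fam
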