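import Pool.Agent.MP_2ab689_gt.Fam.Spec

/-!
The comparison form is nonnegative in the gauge: rounded Gaussian elimination.
-/

namespace Pool.Agent.MP_2ab689_gt.Fam

open Finset

namespace HessB

/-- Upper triangular storage: diagonal entry and the entries to its right. -/
abbrev Mat : Type := List (ℤ × List ℤ)

/-- Linear form. -/
def dot : List ℤ → List ℝ → ℝ
  | a :: l, y :: ys => a * y + dot l ys
  | _, _ => 0

/-- Quadratic form. -/
def qf : Mat → List ℝ → ℝ
  | r :: R, y :: ys => y * (r.1 * y + 2 * dot r.2 ys) + qf R ys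
  | _, _ => 0

/-- Sum of squares. -/
def nrm (ys : List ℝ) : ℝ := (ys.map fun y => y ^ 2).sum

/-- Triangular shape. -/
def Sh : Mat → ℕ → Prop
  | [], n => n = 0
  | r :: R, n => n = r.2.length + 1 ∧ Sh R r.2.length

/-- Update of a row. -/
def upd (p a : ℤ) : List ℤ → List ℤ → List ℤ
  | x :: r, w :: v => (x - a * w / p) :: upd p a r v
  | _, _ => []

/-- Rounded Schur complement. -/
def step (p : ℤ) : Mat → List ℤ → Mat
  | r :: R, a :: v => (r.1 - a * a / p - 50, upd p a r.2 v) :: step p R v
  | _, _ => []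

theorem nrm_nonneg (ys : List ℝ) : 0 ≤ nrm ys :=
  List.sum_nonneg fun z hz => by
    obtain ⟨y, _, rfl⟩ := List.mem_map.1 hz
    positivity

theorem nrm_cons (y : ℝ) (ys : List ℝ) : nrm (y :: ys) = y ^ 2 + nrm ys := by simp [nrm]

theorem rnd (m p : ℤ) (hp : 0 < p) :
    ∃ e : ℝ, 0 ≤ e ∧ e ≤ 1 ∧ ((m / p : ℤ) : ℝ) = m / p - e := by
  have h0 : (0 : ℝ) < p := by exact_mod_cast hp
  have h1 : ((m / p : ℤ) : ℝ) * p ≤ m := by exact_mod_cast Int.ediv_mul_le m hp.ne'
  have h2 : (m : ℝ) < ((m / p : ℤ) + 1 : ℝ) * p := by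
    exact_mod_cast Int.lt_ediv_add_one_mul_self m hp
  refine ⟨m / p - (m / p : ℤ), ?_, ?_, by ring⟩
  · rw [sub_nonneg, le_div_iff₀ h0]; exact h1
  · rw [sub_le_iff_le_add, div_le_iff₀ h0]; linarith

theorem upd_len (p a : ℤ) : ∀ r v : List ℤ, r.length = v.length → (upd p a r v).length = v.length
  | [], [], _ => rfl
  | [], _ :: _, h => by simp at h
  | _ :: _, [], h => by simp at h
  | _ :: r, _ :: v, h => by
    simp only [upd, List.length_cons, upd_len p a r v (by simpa using h)]

theorem upd_le {p : ℤ} (hp : 0 < p) (a : ℤ) (z : ℝ) : ∀ (ys : List ℝ) (r v : List ℤ),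
    r.length = ys.length → v.length = ys.length →
    2 * z * dot (upd p a r v) ys ≤ 2 * z * (dot r ys - a / p * dot v ys) +
      ys.length * z ^ 2 + nrm ys
  | [], [], [], _, _ => by simp [dot, nrm]
  | [], _ :: _, _, h, _ => by simp at h
  | [], _, _ :: _, _, h => by simp at h
  | _ :: _, [], _, h, _ => by simp at h
  | _ :: _, _, [], _, h => by simp at h
  | y :: ys, x :: r, w :: v, h, h' => by
    have ih := upd_le hp a z ys r v (by simpa using h) (by simpa using h')
    obtain ⟨e, e0, e1, he⟩ := rnd (a * w) p hp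
    simp only [upd, dot, nrm_cons, List.length_cons, Int.cast_sub, he, Int.cast_mul, Nat.cast_add,
      Nat.cast_one]
    have h1 : 2 * z * (e * y) ≤ z ^ 2 + y ^ 2 := by
      nlinarith [mul_nonneg e0 (sq_nonneg (z - y)), mul_nonneg (sub_nonneg.2 e1) (sq_nonneg z),
        mul_nonneg (sub_nonneg.2 e1) (sq_nonneg y)]
    have h2 : 2 * z * ((x - (a * w / p - e)) * y + dot (upd p a r v) ys) =
        2 * z * (x * y) - 2 * z * (a / p * (w * y)) + 2 * z * (e * y) +
          2 * z * dot (upd p a r v) ys := by ring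
    rw [h2]
    linarith

theorem step_sh (p : ℤ) : ∀ (R : Mat) (v : List ℤ), Sh R v.length → Sh (step p R v) v.length
  | [], [], _ => rfl
  | [], _ :: _, h => by simp [Sh] at h
  | _ :: _, [], h => by simp [Sh] at h
  | r :: R, a :: v, h => by
    have h1 : r.2.length = v.length := by have := h.1; simp at this; omega
    have h2 := h.2
    rw [h1] at h2
    have h3 := upd_len p a r.2 v h1
    refine ⟨by simp only [h3, List.length_cons], ?_⟩
    simp only [h3]
    exact step_sh p R v h2

theorem step_le {p : ℤ} (hp : 0 < p) : ∀ (ys : List ℝ) (R : Mat) (v : List ℤ),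
    Sh R ys.length → v.length = ys.length →
    qf (step p R v) ys ≤ qf R ys - dot v ys ^ 2 / p + (ys.length - 50) * nrm ys
  | [], [], [], _, _ => by simp [qf, dot, nrm]
  | [], _ :: _, _, h, _ => by simp [Sh] at h
  | [], _, _ :: _, _, h => by simp at h
  | _ :: _, [], _, h, _ => by simp [Sh] at h
  | _ :: _, _, [], _, h => by simp at h
  | y :: ys, r :: R, a :: v, h, h' => by
    have h1 : r.2.length = ys.length := by have := h.1; simp at this; omega
    have h2 := h.2
    rw [h1] at h2
    have h3 : v.length = ys.length := by simpa using h'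
    have ih := step_le hp ys R v h2 h3
    have hu := upd_le hp a y ys r.2 v h1 h3
    obtain ⟨e, e0, e1, he⟩ := rnd (a * a) p hp
    simp only [step, qf, dot, nrm_cons, List.length_cons, Int.cast_sub, he, Int.cast_mul,
      Nat.cast_add, Nat.cast_one, Int.cast_ofNat]
    have h4 : e * y ^ 2 ≤ y ^ 2 := by nlinarith [sq_nonneg y]
    have h5 : ((a : ℝ) * y + dot v ys) ^ 2 / p =
        a * a / p * y ^ 2 + 2 * y * (a / p * dot v ys) + dot v ys ^ 2 / p := by ring
    have h6 : y * ((r.1 - (a * a / p - e) - 50) * y + 2 * dot (upd p a r.2 v) ys) =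
        r.1 * y ^ 2 - a * a / p * y ^ 2 + e * y ^ 2 - 50 * y ^ 2 +
          2 * y * dot (upd p a r.2 v) ys := by ring
    rw [h5, h6]
    linarith

/-- Strict update of a row. -/
noncomputable def updK {α : Type} (p a : ℤ) (r : List ℤ) : List ℤ → (List ℤ → α) → α :=
  List.rec (fun _ k => k []) (fun x _ ih v k => List.rec (k []) (fun w v' _ =>
    forceZ (Int.sub x (Int.ediv (Int.mul a w) p)) fun z => ih v' fun t => k (z :: t)) v) r

theorem updK_eq {α : Type} (p a : ℤ) : ∀ (r v : List ℤ) (k : List ℤ → α),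
    updK p a r v k = k (upd p a r v)
  | [], _, _ => by simp only [upd]; rfl
  | _ :: _, [], _ => rfl
  | x :: r, w :: v, k => by
    change (forceZ (x - a * w / p) fun z => updK p a r v fun t => k (z :: t)) = _
    rw [forceZ_eq, updK_eq p a r v]; rfl

/-- Strict Schur complement. -/
noncomputable def stepK {α : Type} (p : ℤ) (R : Mat) : List ℤ → (Mat → α) → α :=
  List.rec (fun _ k => k []) (fun r _ ih v k => List.rec (k []) (fun a v' _ =>
    forceZ (r.1 - a * a / p - 50) fun d => updK p a r.2 v' fun t =>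
      ih v' fun M => k ((d, t) :: M)) v) R

theorem stepK_eq {α : Type} (p : ℤ) : ∀ (R : Mat) (v : List ℤ) (k : Mat → α),
    stepK p R v k = k (step p R v)
  | [], _, _ => by simp only [step]; rfl
  | _ :: _, [], _ => rfl
  | r :: R, a :: v, k => by
    change (forceZ (r.1 - a * a / p - 50) fun d => updK p a r.2 v fun t =>
      stepK p R v fun M => k ((d, t) :: M)) = _
    rw [forceZ_eq, updK_eq, stepK_eq p R v]; rfl

/-- The elimination succeeds. -/
noncomputable def elim (n : ℕ) : Mat → Bool :=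
  Nat.rec (fun _ => true) (fun _ ih R => List.rec true (fun r R' _ =>
    and (decide (0 < r.1)) (stepK r.1 R' r.2 ih)) R) n

theorem elim_ok : ∀ (ys : List ℝ) (n : ℕ) (R : Mat), ys.length ≤ n → ys.length ≤ 50 →
    Sh R ys.length → elim n R = true → 0 ≤ qf R ys
  | [], _, [], _, _, _, _ => le_rfl
  | [], _, _ :: _, _, _, _, _ => le_rfl
  | _ :: _, _, [], _, _, _, _ => le_rfl
  | _ :: _, 0, _ :: _, h, _, _, _ => by simp at h
  | y :: ys, n + 1, r :: R, h, h', hs, he => by
    change (decide (0 < r.1) && stepK r.1 R r.2 (elim n)) = true at he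
    rw [Bool.and_eq_true, decide_eq_true_eq, stepK_eq] at he
    have h1 : r.2.length = ys.length := by have := hs.1; simp at this; omega
    have h2 := step_sh r.1 R r.2 hs.2
    have h3 := hs.2
    rw [h1] at h2 h3
    have l1 : ys.length ≤ 50 := by simp at h'; omega
    have ih := elim_ok ys n _ (by simpa using h) l1 h2 he.2
    have h4 := step_le he.1 ys R r.2 h3 h1
    have h5 : ((ys.length : ℝ) - 50) * nrm ys ≤ 0 :=
      mul_nonpos_of_nonpos_of_nonneg (sub_nonpos.2 (by exact_mod_cast l1)) (nrm_nonneg ys)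
    have h0 : (0 : ℝ) < r.1 := by exact_mod_cast he.1
    have h6 : y * (r.1 * y + 2 * dot r.2 ys) + dot r.2 ys ^ 2 / r.1 =
        (r.1 * y + dot r.2 ys) ^ 2 / r.1 := by field_simp; ring
    have h7 : 0 ≤ ((r.1 : ℝ) * y + dot r.2 ys) ^ 2 / r.1 := by positivity
    simp only [qf]
    linarith

/-- The matrix of a kernel on a list of indices. -/
def mk (H : ℕ × ℕ → ℕ × ℕ → ℤ) : List (ℕ × ℕ) → Mat
  | [] => []
  | i :: L => (H i i, L.map (H i)) :: mk H L

theorem mk_sh (H : ℕ × ℕ → ℕ × ℕ → ℤ) : ∀ L, Sh (mk H L) L.length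
  | [] => rfl
  | i :: L => ⟨by simp, by simpa using mk_sh H L⟩

theorem dot_map (h : ℕ × ℕ → ℤ) (X : ℕ × ℕ → ℝ) : ∀ L : List (ℕ × ℕ),
    dot (L.map h) (L.map X) = (L.map fun j => h j * X j).sum
  | [] => rfl
  | i :: L => by simp only [List.map_cons, dot, List.sum_cons, dot_map h X L]

theorem qf_mk (G : ℕ × ℕ → ℕ × ℕ → ℤ) (X : ℕ × ℕ → ℝ) : ∀ L : List (ℕ × ℕ),
    qf (mk (fun i j => G i j + G j i) L) (L.map X) =
      2 * (L.map fun i => X i * (L.map fun j => G i j * X j).sum).sum
  | [] => by simp [qf, mk]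
  | i :: L => by
    simp only [mk, List.map_cons, qf, dot_map, qf_mk G X L, List.sum_cons, Int.cast_add, add_mul,
      mul_add, List.sum_map_add]
    have : (L.map fun j => X j * (G j i * X i)).sum = X i * (L.map fun j => G j i * X j).sum := by
      rw [← List.sum_map_mul_left]
      exact congrArg List.sum (List.map_congr_left fun j _ => by ring)
    rw [this]
    ring

/-- Strict map. -/
noncomputable def mapK {α : Type} (h : ℕ × ℕ → ℤ) (L : List (ℕ × ℕ)) : (List ℤ → α) → α :=
  List.rec (fun k => k []) (fun i _ ih k => forceZ (h i) fun z => ih fun t => k (z :: t)) L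

theorem mapK_eq {α : Type} (h : ℕ × ℕ → ℤ) : ∀ (L : List (ℕ × ℕ)) (k : List ℤ → α),
    mapK h L k = k (L.map h)
  | [], _ => rfl
  | i :: L, k => by
    change (forceZ (h i) fun z => mapK h L fun t => k (z :: t)) = _
    rw [forceZ_eq, mapK_eq h L]; rfl

/-- Strict matrix. -/
noncomputable def mkK {α : Type} (H : ℕ × ℕ → ℕ × ℕ → ℤ) (L : List (ℕ × ℕ)) : (Mat → α) → α :=
  List.rec (fun k => k []) (fun i L' ih k => forceZ (H i i) fun d => mapK (H i) L' fun t =>
    ih fun M => k ((d, t) :: M)) L

theorem mkK_eq {α : Type} (H : ℕ × ℕ → ℕ × ℕ → ℤ) : ∀ (L : List (ℕ × ℕ)) (k : Mat → α),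
    mkK H L k = k (mk H L)
  | [], _ => rfl
  | i :: L, k => by
    change (forceZ (H i i) fun d => mapK (H i) L fun t => mkK H L fun M => k ((d, t) :: M)) = _
    rw [forceZ_eq, mapK_eq, mkK_eq H L]; rfl

/-- Strict list of pairs. -/
noncomputable def forceP {α : Type} (L : List (ℕ × ℕ)) : (List (ℕ × ℕ) → α) → α :=
  List.rec (fun k => k []) (fun i _ ih k => force i.1 fun a => force i.2 fun b =>
    ih fun t => k ((a, b) :: t)) L

theorem forceP_eq {α : Type} : ∀ (L : List (ℕ × ℕ)) (k : List (ℕ × ℕ) → α), forceP L k = k L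
  | [], _ => rfl
  | i :: L, k => by
    change (force i.1 fun a => force i.2 fun b => forceP L fun t => k ((a, b) :: t)) = _
    rw [force_eq, force_eq, forceP_eq L]

/-- Strict list of flags. -/
noncomputable def forceT {α : Type} (L : List Tri) : (List Tri → α) → α :=
  List.rec (fun k => k []) (fun i _ ih k => force i.1 fun a => force i.2.1 fun b =>
    force i.2.2 fun c => ih fun t => k ((a, b, c) :: t)) L

theorem forceT_eq {α : Type} : ∀ (L : List Tri) (k : List Tri → α), forceT L k = k L
  | [], _ => rfl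
  | i :: L, k => by
    change (force i.1 fun a => force i.2.1 fun b => force i.2.2 fun c =>
      forceT L fun t => k ((a, b, c) :: t)) = _
    rw [force_eq, force_eq, force_eq, forceT_eq L]

/-- A coordinate. -/
def co {α : Type} (a : α × α × α) (m : ℕ) : α := if m = 0 then a.1 else if m = 1 then a.2.1 else a.2.2

/-- The integer determinant. -/
def dZ (a b c : ℤ × ℤ × ℤ) : ℤ :=
  a.1 * (b.2.1 * c.2.2 - b.2.2 * c.2.1) - a.2.1 * (b.1 * c.2.2 - b.2.2 * c.1) +
    a.2.2 * (b.1 * c.2.1 - b.2.1 * c.1)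

variable (A : ℕ → ℤ × ℤ × ℤ)

/-- The sum of the opposite vertices of a directed edge. -/
noncomputable def uc (R : List Tri) (v w m : ℕ) : ℤ :=
  List.rec 0 (fun f _ ih => Bool.rec ih (Bool.rec ih (co (A f.1) m + ih) (Nat.beq f.2.2 w))
    (Nat.beq f.2.1 v)) R

/-- The diagonal coefficient. -/
noncomputable def dg (R : List Tri) (v : ℕ) : ℤ :=
  List.rec 0 (fun f _ ih => Bool.rec ih
    (dZ (A f.1) (A f.2.1) (A f.2.2) - 13200000000000000000 + ih) (Nat.beq f.1 v)) R

/-- The coefficients of a determinant with fixed first vector. -/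
def cr (u : ℕ → ℤ) (k l : ℕ) : ℤ :=
  if k = l then 0 else if k = 0 then (if l = 1 then u 2 else - u 1) else
  if k = 1 then (if l = 0 then - u 2 else u 0) else (if l = 0 then u 1 else - u 0)

/-- The matrix of the form. -/
noncomputable def GG (R : List Tri) (i j : ℕ × ℕ) : ℤ :=
  (if i.1 = j.1 then (if i.2 = j.2 then dg A R i.1 - 400000000000000000 else 0) +
    200000000 * (co (A i.1) i.2 * co (A i.1) j.2) else 0) -
  200000000000000 * cr (uc A R i.1 j.1) i.2 j.2

/-- All indices. -/
def full (K : ℕ) : List (ℕ × ℕ) := (List.range K).flatMap fun v => [(v, 0), (v, 1), (v, 2)]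

/-- The free indices. -/
def free (i : ℕ × ℕ) : Bool := !(decide (i.1 = 0)) && !(decide (i.1 = 1) && decide (i.2 = 1))

/-- The check. -/
noncomputable def chk (K : ℕ) : Bool :=
  forceT (rots (fac K)) fun R => forceP ((full K).filter free) fun L =>
    and (decide (L.length ≤ 50)) (mkK (fun i j => GG (fun v => (data K).1.getD v 0) R i j +
      GG (fun v => (data K).1.getD v 0) R j i) L (elim 50))

theorem chk_all : ∀ K ∈ Ks, chk K = true := by decide +kernel

theorem sum_full (F : ℕ × ℕ → ℝ) (K : ℕ) :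
    ((full K).map F).sum = ∑ v ∈ range K, (F (v, 0) + F (v, 1) + F (v, 2)) := by
  induction K with
  | zero => rfl
  | succ K ih =>
    rw [sum_range_succ, ← ih]
    simp only [full, List.range_succ, List.flatMap_append, List.map_append, List.sum_append,
      List.flatMap_cons, List.flatMap_nil, List.map_cons, List.map_nil, List.sum_cons,
      List.sum_nil]
    ring

theorem sum_filter_free (F : ℕ × ℕ → ℝ) (h : ∀ i, free i = false → F i = 0) :
    ∀ L : List (ℕ × ℕ), ((L.filter free).map F).sum = (L.map F).sum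
  | [] => rfl
  | i :: L => by
    cases hi : free i
    · rw [List.filter_cons_of_neg (by simp [hi]), List.map_cons, List.sum_cons, h i hi, zero_add,
        sum_filter_free F h L]
    · rw [List.filter_cons_of_pos hi, List.map_cons, List.map_cons, List.sum_cons, List.sum_cons,
        sum_filter_free F h L]

theorem brec {α : Type} (a b : α) (m n : ℕ) :
    (Bool.rec a b (Nat.beq m n) : α) = if m = n then b else a := by
  cases h : Nat.beq m n
  · rw [if_neg (Nat.ne_of_beq_eq_false h)]
  · rw [if_pos (Nat.eq_of_beq_eq_true h)]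

theorem uc_cons (f : Tri) (R : List Tri) (v w m : ℕ) : uc A (f :: R) v w m =
    if f.2.1 = v then (if f.2.2 = w then co (A f.1) m + uc A R v w m else uc A R v w m)
    else uc A R v w m := by
  rw [← brec, ← brec]; rfl

theorem dg_cons (f : Tri) (R : List Tri) (v : ℕ) : dg A (f :: R) v =
    if f.1 = v then dZ (A f.1) (A f.2.1) (A f.2.2) - 13200000000000000000 + dg A R v
    else dg A R v := by
  rw [← brec]; rfl

/-- A real vector with integer coordinates. -/
def vec (u : ℕ → ℤ) : V := ![u 0, u 1, u 2]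

theorem sum_uc (K : ℕ) (x : ℕ → V) : ∀ R : List Tri, (∀ f ∈ R, f.2.1 < K ∧ f.2.2 < K) →
    ∑ v ∈ range K, ∑ w ∈ range K, det3 (vec (uc A R v w)) (x v) (x w) =
      (R.map fun f => det3 (vec (co (A f.1))) (x f.2.1) (x f.2.2)).sum
  | [], _ => by simp [uc, vec, det3]
  | f :: R, h => by
    have h1 := h f (List.mem_cons_self ..)
    rw [List.map_cons, List.sum_cons, ← sum_uc K x R fun g hg => h g (List.mem_cons_of_mem _ hg)]
    have e : ∀ v w, det3 (vec (uc A (f :: R) v w)) (x v) (x w) =
        (if f.2.1 = v then (if f.2.2 = w then det3 (vec (co (A f.1))) (x v) (x w) else 0) else 0) +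
          det3 (vec (uc A R v w)) (x v) (x w) := by
      intro v w
      simp only [vec, uc_cons]
      split_ifs
      · simp only [det3, Matrix.cons_val_zero, Matrix.cons_val_one, Matrix.cons_val, Int.cast_add]
        ring
      · rw [zero_add]
      · rw [zero_add]
    simp only [e, sum_add_distrib]
    congr 1
    rw [sum_eq_single f.2.1, sum_eq_single f.2.2]
    · simp
    · intro w _ hw; simp [hw.symm]
    · intro hw; exact absurd (mem_range.2 h1.2) hw
    · intro v _ hv; simp [hv.symm]
    · intro hv; exact absurd (mem_range.2 h1.1) hv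

theorem sum_dg (K : ℕ) (N : ℕ → ℝ) : ∀ R : List Tri, (∀ f ∈ R, f.1 < K) →
    ∑ v ∈ range K, (dg A R v : ℝ) * N v =
      (R.map fun f => ((dZ (A f.1) (A f.2.1) (A f.2.2) : ℝ) - 13200000000000000000) * N f.1).sum
  | [], _ => by simp [dg]
  | f :: R, h => by
    have h1 := h f (List.mem_cons_self ..)
    rw [List.map_cons, List.sum_cons, ← sum_dg K N R fun g hg => h g (List.mem_cons_of_mem _ hg)]
    have e : ∀ v, (dg A (f :: R) v : ℝ) * N v = (if f.1 = v then
        ((dZ (A f.1) (A f.2.1) (A f.2.2) : ℝ) - 13200000000000000000) * N v else 0) +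
          (dg A R v : ℝ) * N v := by
      intro v
      rw [dg_cons]
      split_ifs
      · push_cast; ring
      · rw [zero_add]
    simp only [e, sum_add_distrib]
    congr 1
    rw [sum_eq_single f.1]
    · simp
    · intro v _ hv; simp [hv.symm]
    · intro hv; exact absurd (mem_range.2 h1) hv

/-- The coordinates of a family of vectors. -/
def XX (x : ℕ → V) (i : ℕ × ℕ) : ℝ := co (x i.1 0, x i.1 1, x i.1 2) i.2

theorem sum_GG (K : ℕ) (x : ℕ → V) (R : List Tri) :
    ((full K).map fun i => XX x i * ((full K).map fun j => GG A R i j * XX x j).sum).sum =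
      ∑ v ∈ range K, (dg A R v : ℝ) * ip (x v) (x v) +
      ∑ v ∈ range K, (200000000 * ip (vec (co (A v))) (x v) ^ 2 -
        400000000000000000 * ip (x v) (x v)) -
      200000000000000 * ∑ v ∈ range K, ∑ w ∈ range K, det3 (vec (uc A R v w)) (x v) (x w) := by
  simp only [sum_full]
  rw [← sum_add_distrib, mul_sum, ← sum_sub_distrib]
  refine sum_congr rfl fun v hv => ?_
  have e : (dg A R v : ℝ) * ip (x v) (x v) + (200000000 * ip (vec (co (A v))) (x v) ^ 2 -
      400000000000000000 * ip (x v) (x v)) = ∑ w ∈ range K, if v = w then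
        (dg A R v : ℝ) * ip (x v) (x v) + (200000000 * ip (vec (co (A v))) (x v) ^ 2 -
        400000000000000000 * ip (x v) (x v)) else 0 := by
    rw [sum_ite_eq, if_pos hv]
  rw [e]
  simp only [mul_sum]
  rw [← sum_add_distrib, ← sum_add_distrib, ← sum_sub_distrib]
  refine sum_congr rfl fun w _ => ?_
  by_cases h : v = w
  · subst h
    simp [GG, XX, co, cr, vec, det3, ip]
    ring
  · simp [GG, XX, co, cr, vec, det3, h]
    ring

theorem sum_map_sub (F G : Tri → ℝ) : ∀ R : List Tri,
    (R.map fun f => F f - G f).sum = (R.map F).sum - (R.map G).sum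
  | [] => by simp
  | f :: R => by simp only [List.map_cons, List.sum_cons, sum_map_sub F G R]; ring

end HessB

open HessB in
theorem hessB : HessBS := by
  intro K hK x h0 h1
  have hc := chk_all K hK
  obtain ⟨A, hA⟩ : ∃ A : ℕ → ℤ × ℤ × ℤ, A = fun v => (data K).1.getD v 0 := ⟨_, rfl⟩
  rw [HessB.chk, forceT_eq, forceP_eq, mkK_eq, Bool.and_eq_true, decide_eq_true_eq, ← hA] at hc
  have hq := elim_ok (((full K).filter free).map (XX x)) 50 _ (by simpa using hc.1)
    (by simpa using hc.1) (by rw [List.length_map]; exact mk_sh _ _) hc.2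
  have hz : ∀ i, free i = false → XX x i = 0 := by
    rintro ⟨v, k⟩ hi
    by_cases hv : v = 0
    · subst hv; simp [XX, co, h0]
    · simp [free, hv] at hi
      obtain ⟨rfl, rfl⟩ := hi
      simp [XX, co, h1]
  rw [qf_mk, sum_filter_free _ fun i hi => by rw [hz i hi, zero_mul]] at hq
  have e1 : ∀ i, (((full K).filter free).map fun j =>
      (GG A (rots (fac K)) i j : ℝ) * XX x j).sum =
      ((full K).map fun j => (GG A (rots (fac K)) i j : ℝ) * XX x j).sum := fun i =>
    sum_filter_free _ (fun j hj => by rw [hz j hj, mul_zero]) _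
  have hw : ∀ f ∈ rots (fac K), f.1 < K ∧ f.2.1 < K ∧ f.2.2 < K := by
    intro f hf
    obtain ⟨g, hg, h⟩ := mem_rots.1 hf
    obtain ⟨a, b, c, _⟩ := wf_fac K hK g hg
    rcases h with rfl | rfl | rfl
    exacts [⟨a, b, c⟩, ⟨b, c, a⟩, ⟨c, a, b⟩]
  simp only [e1] at hq
  rw [sum_GG, sum_uc A K x _ fun f hf => (hw f hf).2, sum_dg A K _ _ fun f hf => (hw f hf).1,
    ← List.sum_map_mul_left] at hq
  have hcen : ∀ v, cen K v = ![((A v).1 : ℝ) / 10 ^ 7, ((A v).2.1 : ℝ) / 10 ^ 7,
      ((A v).2.2 : ℝ) / 10 ^ 7] := fun v => by rw [hA]; exact cen_eq K v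
  have e2 : 2000000000000000000000 * form K (fac K) (cen K) (1 / 500) 10 x =
      ((rots (fac K)).map fun f => ((dZ (A f.1) (A f.2.1) (A f.2.2) : ℝ) - 13200000000000000000) *
        ip (x f.1) (x f.1) - 200000000000000 *
          det3 (vec (co (A f.1))) (x f.2.1) (x f.2.2)).sum +
      ∑ v ∈ range K, (200000000 * ip (vec (co (A v))) (x v) ^ 2 -
        400000000000000000 * ip (x v) (x v)) := by
    rw [form, mul_add, ← List.sum_map_mul_left, mul_sum]
    refine congrArg₂ (· + ·) (congrArg List.sum (List.map_congr_left fun f _ => ?_))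
      (sum_congr rfl fun v _ => ?_)
    · simp [hcen, det3, ip, vec, co, dZ]
      ring
    · simp [hcen, ip, vec, co]
      ring
  rw [sum_map_sub] at e2
  linarith

end Pool.Agent.MP_2ab689_gt.Fam
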