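import Pool.Agent.MP_2ab689_gt.Fam.Spec

/-!
Configurations near the tables are inscribed polytopes with the listed faces.
-/

namespace Pool.Agent.MP_2ab689_gt.Fam

open Real Big MeasureTheory Set WithLp

namespace Low

/-- An entry of the table. -/
def tb (K v : ℕ) : ℤ × ℤ × ℤ := (data K).1.getD v 0

/-- A determinant of table entries. -/
def dd (K a b c : ℕ) : ℤ :=
  (tb K a).1 * ((tb K b).2.1 * (tb K c).2.2 - (tb K b).2.2 * (tb K c).2.1) -
  (tb K a).2.1 * ((tb K b).1 * (tb K c).2.2 - (tb K b).2.2 * (tb K c).1) +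
  (tb K a).2.2 * ((tb K b).1 * (tb K c).2.1 - (tb K b).2.1 * (tb K c).1)

/-- A squared distance of table entries. -/
def ds (K a b : ℕ) : ℤ := ((tb K a).1 - (tb K b).1) ^ 2 + ((tb K a).2.1 - (tb K b).2.1) ^ 2 +
  ((tb K a).2.2 - (tb K b).2.2) ^ 2

/-- A tetrahedron around the origin. -/
def tet : ℕ → ℕ × ℕ × ℕ × ℕ
  | 9 => (8, 6, 1, 4)
  | 10 => (8, 5, 4, 1)
  | 11 => (9, 8, 7, 1)
  | 13 => (12, 7, 2, 3)
  | 14 => (13, 6, 4, 3)
  | 15 => (13, 9, 0, 7)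
  | _ => (12, 9, 0, 6)

theorem c1 : ∀ K ∈ Ks, ∀ f ∈ fac K, 10 ^ 20 < dd K f.1 f.2.1 f.2.2 ∧ ∀ l < K,
    l = f.1 ∨ l = f.2.1 ∨ l = f.2.2 ∨ 2 * 10 ^ 20 < dd K f.1 f.2.1 f.2.2 - dd K l f.2.1 f.2.2 -
      dd K f.1 l f.2.2 - dd K f.1 f.2.1 l := by decide +kernel

theorem c2 : ∀ K ∈ Ks, (fac K).Nodup ∧ ∀ f ∈ fac K, ∀ g ∈ fac K, f = g ∨
    ∃ l ∈ [g.1, g.2.1, g.2.2], l ≠ f.1 ∧ l ≠ f.2.1 ∧ l ≠ f.2.2 := by decide +kernel

theorem c3 : ∀ K ∈ Ks, ∀ a < K, ∀ b < K, a = b ∨ 10 ^ 11 < ds K a b := by decide +kernel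

theorem c4 : ∀ K ∈ Ks, ((tet K).1 < K ∧ (tet K).2.1 < K ∧ (tet K).2.2.1 < K ∧ (tet K).2.2.2 < K) ∧
    10 ^ 20 < dd K (tet K).2.1 (tet K).2.2.1 (tet K).2.2.2 ∧
    10 ^ 20 < dd K (tet K).1 (tet K).2.2.2 (tet K).2.2.1 ∧
    10 ^ 20 < dd K (tet K).1 (tet K).2.1 (tet K).2.2.2 ∧
    10 ^ 20 < dd K (tet K).1 (tet K).2.2.1 (tet K).2.1 := by decide +kernel

theorem det_cen (K a b c : ℕ) : det3 (cen K a) (cen K b) (cen K c) = dd K a b c / 10 ^ 21 := by
  simp only [cen_eq, det3, dd, tb, Matrix.cons_val]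
  push_cast
  ring

theorem ip_cen (K a b : ℕ) : ip (cen K a - cen K b) (cen K a - cen K b) = ds K a b / 10 ^ 14 := by
  simp only [cen_eq, ip, ds, tb, Pi.sub_apply, Matrix.cons_val]
  push_cast
  ring

theorem bd {a b c : V} {x y z : ℝ} (h1 : nv a ≤ x) (h2 : nv b ≤ y) (h3 : nv c ≤ z) :
    |det3 a b c| ≤ x * y * z :=
  have p := (nv_nonneg a).trans h1
  (abs_det3_le a b c).trans (mul_le_mul (mul_le_mul h1 h2 (nv_nonneg b) p) h3 (nv_nonneg c)
    (mul_nonneg p ((nv_nonneg b).trans h2)))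

variable {K : ℕ} {u : ℕ → V}

theorem prt (hu : Un K u) (hn : Near K (cen K) (1 / 100) u) {a b c : ℕ} (ha : a < K) (hb : b < K)
    (hc : c < K) : |det3 (u a) (u b) (u c) - dd K a b c / 10 ^ 21| ≤ 1 / 25 := by
  have t : ∀ v < K, nv (cen K v) ≤ 101 / 100 := fun v hv => by
    have := nv_tri (cen K v) (u v) 0
    rw [sub_zero, sub_zero, nv_sub_comm, nv_eq_one (hu v hv)] at this
    linarith [hn v hv]
  have o : ∀ v < K, nv (u v) ≤ 1 := fun v hv => (nv_eq_one (hu v hv)).le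
  have h1 := abs_le.1 (bd (hn a ha) (o b hb) (o c hc))
  have h2 := abs_le.1 (bd (t a ha) (hn b hb) (o c hc))
  have h3 := abs_le.1 (bd (t a ha) (t b hb) (hn c hc))
  rw [← det_cen, show det3 (u a) (u b) (u c) - det3 (cen K a) (cen K b) (cen K c) =
    det3 (u a - cen K a) (u b) (u c) + det3 (cen K a) (u b - cen K b) (u c) +
      det3 (cen K a) (cen K b) (u c - cen K c) by simp only [det3, Pi.sub_apply]; ring, abs_le]
  constructor <;> linarith [h1.1, h1.2, h2.1, h2.2, h3.1, h3.2]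

theorem big (hu : Un K u) (hn : Near K (cen K) (1 / 100) u) {a b c : ℕ} (ha : a < K) (hb : b < K)
    (hc : c < K) (h : 10 ^ 20 < dd K a b c) : 1 / 20 < det3 (u a) (u b) (u c) := by
  have h1 : (10 : ℝ) ^ 20 < dd K a b c := by exact_mod_cast h
  linarith [(abs_le.1 (prt hu hn ha hb hc)).1]

theorem t4 {a b c x : V} (ha : ip a a = 1) (hb : ip b b = 1) (hc : ip c c = 1)
    (h : 1 / 20 < det3 a b c) (hx : nv x ≤ 1 / 100) : 0 < T4 a b c x := by
  have h1 := (abs_le.1 (bd hx (nv_eq_one hb).le (nv_eq_one hc).le)).2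
  have h2 := (abs_le.1 (bd (nv_eq_one ha).le hx (nv_eq_one hc).le)).2
  have h3 := (abs_le.1 (bd (nv_eq_one ha).le (nv_eq_one hb).le hx)).2
  rw [T4_eq]
  linarith

theorem mem {s : Set V} {a b c d x : V} (ha : a ∈ s) (hb : b ∈ s) (hc : c ∈ s) (hd : d ∈ s)
    (h1 : 0 < T4 b c d x) (h2 : 0 < T4 a d c x) (h3 : 0 < T4 a b d x) (h4 : 0 < T4 a c b x) :
    x ∈ convexHull ℝ s := by
  have p : 0 < T4 b c d x + T4 a d c x + T4 a b d x + T4 a c b x := by positivity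
  have := Finset.centerMass_mem_convexHull (R := ℝ) (s := s) Finset.univ
    (w := ![T4 b c d x, T4 a d c x, T4 a b d x, T4 a c b x]) (z := ![a, b, c, d])
    (fun i _ => by fin_cases i <;> simp [h1.le, h2.le, h3.le, h4.le])
    (by simpa [Fin.sum_univ_four] using p) fun i _ => by fin_cases i <;> simpa
  convert this using 1
  simp only [Finset.centerMass, Fin.sum_univ_four, Matrix.cons_val]
  rw [eq_inv_smul_iff₀ p.ne']
  funext i
  fin_cases i <;> simp [T4, det3] <;> ring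

end Low

open Low

theorem lowS : LowS := by
  intro K hK u hu hn
  have ball : ∀ x : V, ip x x ≤ (1 / 100) ^ 2 → x ∈ convexHull ℝ (range fun v : Fin K => u v) := by
    intro x hx
    obtain ⟨⟨a, b, c, d⟩, h1, h2, h3, h4⟩ := c4 K hK
    have hx' := (nv_le_iff (by norm_num)).2 hx
    exact mem ⟨⟨_, a⟩, rfl⟩ ⟨⟨_, b⟩, rfl⟩ ⟨⟨_, c⟩, rfl⟩ ⟨⟨_, d⟩, rfl⟩
      (t4 (hu _ b) (hu _ c) (hu _ d) (big hu hn b c d h1) hx')
      (t4 (hu _ a) (hu _ d) (hu _ c) (big hu hn a d c h2) hx')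
      (t4 (hu _ a) (hu _ b) (hu _ d) (big hu hn a b d h3) hx')
      (t4 (hu _ a) (hu _ c) (hu _ b) (big hu hn a c b h4) hx')
  refine ⟨fun a b e => Fin.ext ((c3 K hK a a.2 b b.2).resolve_right fun h => ?_),
    (ball_iff _).2 ⟨_, by norm_num, ball⟩, ?_⟩
  · have h1 : (10 : ℝ) ^ 11 < ds K a b := by exact_mod_cast h
    have h2 := nv_tri (cen K a) (u a) (cen K b)
    have h3 := hn b b.2
    rw [nv_sub_comm _ (u a)] at h2
    rw [← show u a = u b from e] at h3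
    have h4 := (nv_le_iff (a := 1 / 50) (by norm_num)).1 (h2.trans (by linarith [hn a a.2]))
    rw [ip_cen] at h4
    linarith
  let ι : Fin K × Fin K × Fin K → Tri := fun f => (f.1, f.2.1, f.2.2)
  have inj : Function.Injective ι := fun f g e => by
    simpa only [ι, Prod.ext_iff, Fin.ext_iff] using e
  have := vol_ge_of_faces (fun v : Fin K => u v) _ (convex_convexHull ℝ _) (ball 0 (by simp [ip]))
    (fun i => subset_convexHull _ _ (mem_range_self i)) (Finset.univ.filter fun f => ι f ∈ fac K)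
    (fun f hf => ?_) (fun f hf => ?_) fun f hf g hg ne => ?_
  · rw [FF, ← List.sum_toFinset _ (c2 K hK).1]
    convert this using 3
    refine (Finset.sum_bij (fun f _ => ι f) (fun f hf => by simpa using hf)
      (fun _ _ _ _ e => inj e) (fun g hg => ?_) fun _ _ => rfl).symm
    have hg' := List.mem_toFinset.1 hg
    obtain ⟨a, b, c, -⟩ := wf_fac K hK g hg'
    exact ⟨(⟨_, a⟩, ⟨_, b⟩, ⟨_, c⟩), by simpa using hg', rfl⟩
  · have hf' := (Finset.mem_filter.1 hf).2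
    obtain ⟨a, b, c, n1, n2, n3⟩ := wf_fac K hK _ hf'
    refine ⟨fun e => n1 (congrArg Fin.val e), fun e => n2 (congrArg Fin.val e),
      fun e => n3 (congrArg Fin.val e), fun l m1 m2 m3 => ?_⟩
    have h := ((((c1 K hK _ hf').2 l l.2).resolve_left fun e => m1 (Fin.ext e)).resolve_left
      fun e => m2 (Fin.ext e)).resolve_left fun e => m3 (Fin.ext e)
    have h' : (2 : ℝ) * 10 ^ 20 < dd K f.1 f.2.1 f.2.2 - dd K l f.2.1 f.2.2 -
      dd K f.1 l f.2.2 - dd K f.1 f.2.1 l := by exact_mod_cast h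
    rw [posq, T4_eq]
    linarith [(abs_le.1 (prt hu hn f.1.2 f.2.1.2 f.2.2.2)).1,
      (abs_le.1 (prt hu hn l.2 f.2.1.2 f.2.2.2)).2, (abs_le.1 (prt hu hn f.1.2 l.2 f.2.2.2)).2,
      (abs_le.1 (prt hu hn f.1.2 f.2.1.2 l.2)).2]
  · exact lt_trans (by norm_num)
      (big hu hn f.1.2 f.2.1.2 f.2.2.2 (c1 K hK _ (Finset.mem_filter.1 hf).2).1)
  · obtain ⟨l, h, m1, m2, m3⟩ := ((c2 K hK).2 _ (Finset.mem_filter.1 hf).2 _
      (Finset.mem_filter.1 hg).2).resolve_left (inj.ne ne)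
    simp only [List.mem_cons, List.not_mem_nil, or_false] at h
    rcases h with rfl | rfl | rfl
    exacts [⟨g.1, Or.inl rfl, Fin.ne_of_val_ne m1, Fin.ne_of_val_ne m2, Fin.ne_of_val_ne m3⟩,
      ⟨g.2.1, Or.inr (Or.inl rfl), Fin.ne_of_val_ne m1, Fin.ne_of_val_ne m2, Fin.ne_of_val_ne m3⟩,
      ⟨g.2.2, Or.inr (Or.inr rfl), Fin.ne_of_val_ne m1, Fin.ne_of_val_ne m2, Fin.ne_of_val_ne m3⟩]

end Pool.Agent.MP_2ab689_gt.Fam
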