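import Pool.Agent.MP_2ab689_gt.Fam.En.RunA
import Pool.Agent.MP_2ab689_gt.Fam.En.RunB
import Pool.Agent.MP_2ab689_gt.Fam.En.RunC
import Pool.Agent.MP_2ab689_gt.Fam.En.RunD
import Pool.Agent.MP_2ab689_gt.Fam.En.RunE

/-!
The combinatorial types of the configurations of large volume.
-/

namespace Pool.Agent.MP_2ab689_gt.Fam

open Big En

theorem okT_all : ∀ K ∈ Ks, (9 ≤ K ∧ K ≤ 30) ∧ ∀ T ∈ fac K :: others K, OkT K T := by
  unfold OkT
  decide +kernel

theorem type (H : DegS) : TypeS := by
  intro K hK p hi hu h0 hl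
  obtain ⟨⟨h9, h30⟩, hL⟩ := okT_all K hK
  obtain ⟨Φ, _, M, rfl⟩ := exists_mesh (by omega) p hu hi ((ball_iff p).mp h0)
  obtain ⟨hd, hn⟩ := H K hK Φ M hl
  suffices h : ∃ T ∈ fac K :: others K, Has (Fc M) K T by
    obtain ⟨T, hT, h⟩ := h
    exact ⟨T, hT, conf_of M (hL T hT) h⟩
  simp only [Ks, List.mem_cons, List.not_mem_nil, or_false] at hK
  rcases hK with rfl | rfl | rfl | rfl | rfl | rfl | rfl <;>
    simp only [keep, List.mem_cons, List.not_mem_nil, or_false] at hn
  · exact chkS_sound M h9 h30 hL hd hn run9x0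
  · exact chkS_sound M h9 h30 hL hd hn run10x0
  · rcases hn with hn | hn | hn | hn | hn
    · exact chkS_sound M h9 h30 hL hd hn run11x0
    · exact chkS_sound M h9 h30 hL hd hn run11x1
    · exact chkS_sound M h9 h30 hL hd hn run11x2
    · exact chkS_sound M h9 h30 hL hd hn run11x3
    · exact chkS_sound M h9 h30 hL hd hn run11x4
  · rcases hn with hn | hn | hn | hn
    · exact chkS_sound M h9 h30 hL hd hn run13x0
    · exact chkS_sound M h9 h30 hL hd hn run13x1
    · exact chkS_sound M h9 h30 hL hd hn run13x2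
    · exact chkS_sound M h9 h30 hL hd hn run13x3
  · rcases hn with hn | hn
    · exact chkS_sound M h9 h30 hL hd hn run14x0
    · exact chkS_sound M h9 h30 hL hd hn run14x1
  · rcases hn with hn | hn | hn
    · exact chkS_sound M h9 h30 hL hd hn run15x0
    · exact chkS_sound M h9 h30 hL hd hn run15x1
    · exact chkS_sound M h9 h30 hL hd hn run15x2
  · exact chkS_sound M h9 h30 hL hd hn run16x0

end Pool.Agent.MP_2ab689_gt.Fam
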