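import Pool.Agent.MP_2ab689_gt.Fam.Final
import Pool.Agent.MP_2ab689_gt.Fam.Typ
import Pool.Agent.MP_2ab689_gt.Fam.Deg
import Pool.Agent.MP_2ab689_gt.Fam.HessA
import Pool.Agent.MP_2ab689_gt.Fam.HessB
import Pool.Agent.MP_2ab689_gt.Fam.Low
import Pool.Agent.MP_2ab689_gt.Fam.Crit
import Pool.Agent.MP_2ab689_gt.Fam.Q.Kill
import Pool.Agent.MP_2ab689_gt.Fam.Q.Uni
import Pool.Agent.MP_2ab689_gt.Fam.K16
import Pool.Agent.MP_2ab689_gt.Fam.L9
import Pool.Agent.MP_2ab689_gt.Fam.L10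
import Pool.Agent.MP_2ab689_gt.Fam.L11
import Pool.Agent.MP_2ab689_gt.Fam.L13
import Pool.Agent.MP_2ab689_gt.Fam.L14
import Pool.Agent.MP_2ab689_gt.Fam.L15
import Pool.Agent.MP_2ab689_gt.Fam.L16

/-!
The family theorem.
-/

namespace Pool.Agent.MP_2ab689_gt.Fam

theorem locS : LocS := by
  intro K hK
  simp only [Ks, List.mem_cons, List.not_mem_nil, or_false] at hK
  rcases hK with rfl | rfl | rfl | rfl | rfl | rfl | rfl
  exacts [L9.loc, L10.loc, L11.loc, L13.loc, L14.loc, L15.loc, L16.loc]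

theorem mainS : MainS :=
  main (type (deg Q.uni)) (Q.kill_of K16.kill) locS gauge dev hessA hessB lowS crit vlow

end Pool.Agent.MP_2ab689_gt.Fam
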