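import Pool.Agent.MP_2ab689_gt.Fam.Spec

/-!
The sum of the face inequalities, and coordinates adapted to two points.
-/

namespace Pool.Agent.MP_2ab689_gt.Fam

open Real Big

namespace Book

/-- An antisymmetric weight on the directed edges has sum zero. -/
theorem anti (T : List Tri) (p : ℕ → V) (u : ℕ → ℕ → ℝ) (hu : ∀ a b, u a b = -u b a)
    (h : ((rots T).map fun f => (f.1, f.2.1)).Perm ((rots T).map fun f => (f.2.1, f.1))) :
    ((rots T).map fun f => u f.1 f.2.1 * ip (p f.1) (p f.2.1)).sum = 0 := by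
  have e := (h.map fun e : ℕ × ℕ => u e.1 e.2 * ip (p e.1) (p e.2)).sum_eq
  rw [List.map_map, List.map_map] at e
  have k : ((rots T).map fun f => u f.1 f.2.1 * ip (p f.1) (p f.2.1)).sum +
      ((rots T).map fun f => u f.2.1 f.1 * ip (p f.2.1) (p f.1)).sum = 0 := by
    rw [← List.sum_map_add]
    refine List.sum_eq_zero fun x hx => ?_
    obtain ⟨f, -, rfl⟩ := List.mem_map.1 hx
    rw [hu f.1, ip_comm (p f.1)]
    ring
  have e' : ((rots T).map fun f => u f.1 f.2.1 * ip (p f.1) (p f.2.1)).sum =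
      ((rots T).map fun f => u f.2.1 f.1 * ip (p f.2.1) (p f.1)).sum := e
  linarith

theorem det_crs (a b x : V) : det3 a b x = ip (crs a b) x := by
  simp only [det3, ip, crs, Matrix.cons_val_zero, Matrix.cons_val_one, Matrix.cons_val_two,
    Matrix.head_cons, Matrix.tail_cons]
  ring

theorem ip_crs (a b : V) : ip (crs a b) (crs a b) = ip a a * ip b b - ip a b ^ 2 := by
  simp only [ip, crs, Matrix.cons_val_zero, Matrix.cons_val_one, Matrix.cons_val_two,
    Matrix.head_cons, Matrix.tail_cons]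
  ring

/-- The coordinates in a frame. -/
def co (e f g x : V) : V := ![ip x e, ip x f, ip x g]

theorem det_co (e f g a b c : V) :
    det3 (co e f g a) (co e f g b) (co e f g c) = det3 a b c * det3 g e f := by
  simp only [det3, ip, co, Matrix.cons_val_zero, Matrix.cons_val_one, Matrix.cons_val_two,
    Matrix.head_cons, Matrix.tail_cons]
  ring

theorem ip_exp (x e f g : V) (a b c : ℝ) :
    ip x (a • e + b • f + c • g) = a * ip x e + b * ip x f + c * ip x g := by
  simp only [ip, Pi.add_apply, Pi.smul_apply, smul_eq_mul]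
  ring

/-- An orthonormal pair gives a frame. -/
theorem frame {e g : V} (he : ip e e = 1) (hg : ip g g = 1) (h : ip g e = 0) (x : V) :
    x = ip x e • e + ip x (crs g e) • crs g e + ip x g • g := by
  have ff : ip (crs g e) (crs g e) = 1 := by rw [ip_crs, he, hg, h]; ring
  have fe : ip (crs g e) e = 0 := by rw [← det_crs, det3_self23]
  have fg : ip (crs g e) g = 0 := by rw [← det_crs, det3_self13]
  refine T32.det_vec (a := g) (b := e) (z := crs g e) (by rw [det_crs, ff]; exact one_ne_zero)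
    ?_ ?_ ?_
  · rw [ip_exp, h, ip_comm g (crs g e), fg, hg, ip_comm]; ring
  · rw [ip_exp, he, ip_comm e (crs g e), fe, ip_comm e g, h, ip_comm]; ring
  · rw [det_crs, det_crs, ip_exp, fe, ff, fg, ip_comm]; ring

end Book

open Book

theorem book : BookS := by
  intro K T p vol m l u hc hu h
  have e1 := hc.angs l
  have e2 := anti T p u hu h
  rw [sum_rots] at e1 e2
  rw [← e1, ← add_zero (_ + _), ← e2, ← List.sum_map_add, ← List.sum_map_add]
  refine congrArg _ (List.map_congr_left fun f _ => ?_)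
  unfold rhs
  ring

theorem gauge : GaugeS := by
  intro P h0 h1 h
  have s0 : 0 < √(1 - ip (P 0) (P 1) ^ 2) := sqrt_pos.2 (by linarith)
  have s2 := sq_sqrt (show 0 ≤ 1 - ip (P 0) (P 1) ^ 2 by linarith)
  generalize √(1 - ip (P 0) (P 1) ^ 2) = s at s0 s2
  have s1 : s⁻¹ * s = 1 := inv_mul_cancel₀ s0.ne'
  obtain ⟨e, he⟩ : ∃ e : V, e = s⁻¹ • (P 1 - ip (P 0) (P 1) • P 0) := ⟨_, rfl⟩
  have ge : ip (P 0) e = 0 := by
    rw [he, ip_smul_right, ip_sub_right, ip_smul_right, h0]; ring
  have pe : ip (P 1) e = s := by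
    rw [he, ip_smul_right, ip_sub_right, ip_smul_right, h1, ip_comm (P 1)]
    linear_combination s * s1 - s⁻¹ * s2
  have ee : ip e e = 1 := by
    have : ip (s⁻¹ • (P 1 - ip (P 0) (P 1) • P 0)) e = 1 := by
      rw [ip_smul_left, ip_sub_left, ip_smul_left, ge, pe]
      linear_combination s1
    rwa [← he] at this
  have ff : ip (crs (P 0) e) (crs (P 0) e) = 1 := by rw [ip_crs, ee, h0, ge]; ring
  have fe : ip (crs (P 0) e) e = 0 := by rw [← det_crs, det3_self23]
  have fg : ip (crs (P 0) e) (P 0) = 0 := by rw [← det_crs, det3_self13]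
  have fp : ip (P 1) (crs (P 0) e) = 0 := by
    have : ip (s⁻¹ • (P 1 - ip (P 0) (P 1) • P 0)) (crs (P 0) e) = 0 := by
      rw [← he, ip_comm, fe]
    rw [ip_smul_left, ip_sub_left, ip_smul_left, ip_comm (P 0) (crs _ _), fg] at this
    linear_combination s * this - ip (P 1) (crs (P 0) e) * s1
  refine ⟨e, crs (P 0) e, P 0, fun v => co e (crs (P 0) e) (P 0) (P v), ee, ff, h0,
    (ip_comm _ _).trans fe, fg, (ip_comm _ _).trans ge, fun v => frame ee h0 ge (P v),
    fun a b => ?_, fun a b c => ?_, ge, (ip_comm _ _).trans fg, h0, fp, s0.trans_eq pe.symm⟩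
  · have := congrArg (ip (P a)) (frame ee h0 ge (P b))
    rw [ip_exp] at this
    rw [this]
    exact (show ip (P a) e * ip (P b) e + ip (P a) (crs (P 0) e) * ip (P b) (crs (P 0) e) +
      ip (P a) (P 0) * ip (P b) (P 0) = _ by ring)
  · rw [det_co, det_crs (P 0), ff, mul_one]

end Pool.Agent.MP_2ab689_gt.Fam
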