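import Pool.Agent.MP_2ab689_gt.Fam.Spec

/-!
A checker for face inequalities on boxes of angles: definitions and interfaces.
-/

namespace Pool.Agent.MP_2ab689_gt.Fam

open Real Big

/-- The unit of the fixed point numbers. -/
def U : ℕ := 72057594037927936
/-- Lower bound of `π`. -/
def piL : ℕ := 226375608064910088
/-- Upper bound of `π`. -/
def piH : ℕ := 226375608064910089
/-- Lower bound of `π / 2`. -/
def p1 : ℕ := 113187804032455044
/-- Upper bound of `π / 2`. -/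
def p2 : ℕ := 113187804032455045

/-- A homogeneous polynomial in `v` and `U ^ 4`. -/
def hp (v a5 a4 a3 a2 a1 a0 : ℕ) : ℕ :=
  Nat.add (Nat.mul (Nat.add (Nat.mul (Nat.add (Nat.mul (Nat.add (Nat.mul (Nat.add (Nat.mul a5 v)
    (Nat.shiftLeft a4 224)) v) (Nat.shiftLeft a3 448)) v) (Nat.shiftLeft a2 672)) v)
    (Nat.shiftLeft a1 896)) v) (Nat.shiftLeft a0 1120)

/-- Taylor sums of cosine (`P0 - P2`) and sine (`S`) at `B / U` with error `E`, all multiplied by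
`24! * U ^ 24`. -/
noncomputable def trig (B : ℕ) (k : ℕ → ℕ → ℕ → ℕ → Bool) : Bool :=
  force (Nat.mul B B) fun u => force (Nat.mul u u) fun v =>
  force (Nat.shiftLeft (hp v 255024 29654190720 1295295050649600 15388105201717248000
    25852016738884976640000 620448401733239439360000) 224) fun P0 =>
  force (Nat.shiftLeft (Nat.mul (hp v 552 96909120 7117005772800 170978946685747200
    861733891296165888000 310224200866619719680000) u) 112) fun P2 =>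
  force (Nat.sub (Nat.shiftLeft (Nat.mul (hp v 12144 1744364160 99638080819200
    1709789466857472000 5170403347776995328000 620448401733239439360000) B) 168)
    (Nat.shiftLeft (Nat.mul (hp v 24 5100480 474467051520 15543540607795200
    123104841613737984000 103408066955539906560000) (Nat.mul u B)) 56)) fun S =>
  force (Nat.mul 2 (Nat.pow v 6)) fun E =>
  and (Nat.blt E S) (and (Nat.ble B (Nat.mul 3 U)) (k P0 P2 S E))

/-- Upper bound of the cotangent. -/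
noncomputable def cub (B : ℕ) (k : ℕ → Bool) : Bool := trig B fun P0 P2 S E =>
  force (Nat.succ (Nat.div (Nat.mul (Nat.sub (Nat.add P0 E) P2) U) (Nat.sub S E))) k

/-- Upper bound of minus the cotangent. -/
noncomputable def cnb (B : ℕ) (k : ℕ → Bool) : Bool := trig B fun P0 P2 S E =>
  force (Nat.succ (Nat.div (Nat.mul (Nat.sub (Nat.add P2 E) P0) U) (Nat.sub S E))) k

/-- Enclosure of the cotangent of an acute angle. -/
noncomputable def ctb (B : ℕ) (k : ℕ → ℕ → Bool) : Bool := trig B fun P0 P2 S E =>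
  force (Nat.div (Nat.mul (Nat.sub P0 (Nat.add P2 E)) U) (Nat.add S E)) fun cl =>
  force (Nat.succ (Nat.div (Nat.mul (Nat.sub (Nat.add P0 E) P2) U) (Nat.sub S E))) (k cl)

/-- Bounds of the cotangent at the ends of an interval. -/
noncomputable def prep (lo hi : ℕ) (k : ℕ → ℕ → Bool) : Bool :=
  cond (Nat.ble p2 lo) (cnb lo) (cond (Nat.blt 0 lo) (cub lo) fun k => k 0) fun e =>
    cond (Nat.ble hi p1) (k e 0) (cnb hi (k e))

/-- What `prep` guarantees. -/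
def Prep (lo hi e f : ℕ) : Prop := (p2 ≤ lo → -cot (lo / U) ≤ e / U) ∧
  (0 < lo → lo ≤ p1 → cot (lo / U) ≤ e / U) ∧ (p1 < hi → hi ≤ 3 * U ∧ -cot (hi / U) ≤ f / U)

/-- Comparison of integers. -/
noncomputable def ile (a b : ℤ) : Bool := Int.rec (fun _ => true) (fun _ => false) (Int.sub b a)

/-- Minimum of integers, passed on. -/
noncomputable def imin (a b : ℤ) (k : ℤ → Bool) : Bool :=
  forceZ a fun a => forceZ b fun b => cond (ile a b) (k a) (k b)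

/-- Product of an integer and a natural number. -/
def mn (a : ℤ) (n : ℕ) : ℤ := Int.mul a (Int.ofNat n)

/-- Value at an obtuse end point. -/
def ep (W c : ℤ) (x f : ℕ) : ℤ := mn (Int.sub (mn c x) (mn W (Nat.mul f U))) U

/-- A lower bound of `W cot y + c y` on an interval, in units `U ^ (-4)`. -/
noncomputable def term (W c : ℤ) (lo hi e f B : ℕ) (k : ℤ → Bool) : Bool :=
  forceZ W fun W => forceZ c fun c =>
  cond (Nat.ble p2 lo)
    (imin (ep (cond (ile 0 W) W 0) c lo e) (ep (cond (ile 0 W) W 0) c hi f) k)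
    (cond (ile 0 W)
      (and (Nat.ble B p1) (ctb B fun cl cu =>
        force (Nat.add (Nat.mul U U) (Nat.mul cl cl)) fun q =>
        forceZ (Int.mul W (Int.subNatNat (Nat.add (Nat.mul q B)
          (Nat.mul (Nat.mul cl U) (Nat.add U (Nat.mul 2 cl))))
          (Nat.mul (Nat.mul 2 U) (Nat.mul cu cu)))) fun I =>
        forceZ (Int.sub (mn c U) (mn W q)) fun sl =>
        imin (Int.add I (mn sl lo)) (Int.add I (mn sl (cond (Nat.ble hi p2) hi p2))) fun v =>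
          cond (Nat.ble hi p1) (k v) (imin v (ep W c hi f) k)))
      (and (Nat.blt 0 lo) (imin (mn (Int.add (mn c lo) (mn W (Nat.mul e U))) U)
        (mn c (Nat.mul p1 U)) fun v => imin v (mn c (Nat.mul (cond (Nat.ble hi p2) p2 hi) U)) k)))

/-- Coefficients of a face inequality in units `U ^ (-1)`. -/
structure Cf where
  m : ℤ
  l1 : ℤ
  l2 : ℤ
  l3 : ℤ
  u1 : ℤ
  u2 : ℤ
  u3 : ℤ
  deriving DecidableEq

/-- The weights of the four angles. -/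
def Cf.w (c : Cf) : ℕ → ℤ
  | 0 => c.l1 + c.l2 + c.l3
  | 1 => c.l1
  | 2 => c.l2
  | _ => c.l3

/-- The affine part. -/
noncomputable def Cf.R (c : Cf) (y : ℕ → ℝ) : ℝ :=
  (c.m + c.u1 + c.u2 + c.u3 + (c.l1 + c.l2 + c.l3) * y 0 + c.l1 * y 1 + c.l2 * y 2 + c.l3 * y 3) / U

/-- The face inequality in terms of the four angles. -/
def Cl (c : Cf) (y : ℕ → ℝ) : Prop :=
  4 + 2 * (c.u1 * (cot (y 2) + cot (y 3)) + c.u2 * (cot (y 1) + cot (y 3))
    + c.u3 * (cot (y 1) + cot (y 2))) / U ≤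
  (cot (y 0) + cot (y 1) + cot (y 2) + cot (y 3)) * c.R y

/-- Admissible angles. -/
def Ok (y : ℕ → ℝ) : Prop := (∀ j < 4, 0 < y j) ∧ y 0 + y 1 + y 2 + y 3 = π ∧
  4 ≤ cot (y 0) + cot (y 1) + cot (y 2) + cot (y 3)

/-- Membership in a box: lower ends `B 0 .. B 3`, upper ends `B 4 .. B 7`. -/
def In (B : ℕ → ℕ) (y : ℕ → ℝ) : Prop := ∀ j < 4, (B j : ℝ) / U ≤ y j ∧ y j ≤ (B (j + 4) : ℝ) / U

/-- One condition of the obtuse case. -/
def ob1 (P : ℤ) (v t z : ℕ) : Bool :=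
  decide (0 ≤ P ∧ 150 * t ^ 2 ≤ 149 * 10 ^ 12 ∧
    (150 * z ^ 2 * v * U : ℕ) ≤ ((149 * 10 ^ 12 - 150 * t ^ 2 : ℕ) : ℤ) * P)

/-- The check of a box in which angle `j` is very obtuse; `t` and `z` are in units `10 ^ (-6)`. -/
def obt (c : Cf) (B : ℕ → ℕ) (j t0 t1 t2 z0 z1 z2 : ℕ) : Bool :=
  decide (c.u1 = 0 ∧ c.u2 = 0 ∧ c.u3 = 0 ∧ 1 ≤ j ∧ j ≤ 3 ∧ 5 * (piH - B j) ≤ 6 * U ∧
    0 ≤ c.w j ∧ 0 ≤ c.m * U + c.w j * piL ∧ 10 ^ 6 ≤ t0 + t1 + t2 ∧ 2 * 10 ^ 6 ≤ z0 + z1 + z2) &&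
  ob1 ((c.w 0 - c.w j) * (piH - B j : ℕ) + (c.m * U + c.w j * piL)) (piH - B j) t0 z0 &&
  ob1 ((c.w (j % 3 + 1) - c.w j) * (piH - B j : ℕ) + (c.m * U + c.w j * piL)) (piH - B j) t1 z1 &&
  ob1 ((c.w ((j + 1) % 3 + 1) - c.w j) * (piH - B j : ℕ) + (c.m * U + c.w j * piL))
    (piH - B j) t2 z2

/-- Row ENC. -/
def EncS : Prop :=
  (∀ B k, ctb B k = true → B ≤ p1 → ∃ cl cu : ℕ, k cl cu = true ∧ 0 < B ∧
    (cl : ℝ) / U ≤ cot (B / U) ∧ cot (B / U) ≤ cu / U) ∧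
  ∀ lo hi k, prep lo hi k = true → ∃ e f, k e f = true ∧ Prep lo hi e f

/-- Row TERM (from `EncS`). -/
def TermS : Prop := ∀ (W c : ℤ) (lo hi e f B : ℕ) (k : ℤ → Bool) (y : ℝ),
  term W c lo hi e f B k = true → Prep lo hi e f → (lo : ℝ) / U ≤ y → y ≤ (hi : ℝ) / U → 0 < y →
  ∃ v : ℤ, k v = true ∧ (v : ℝ) ≤ U ^ 3 * W * cot y + U ^ 2 * c * y

/-- Row OBT. -/
def ObtS : Prop := ∀ c B j t0 t1 t2 z0 z1 z2 y, obt c B j t0 t1 t2 z0 z1 z2 = true → Ok y →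
  In B y → Cl c y

/-- The right side of the face inequality. -/
noncomputable def Cf.rhs (x : Cf) (a b c : V) : ℝ :=
  Fam.rhs (x.m / U) (x.l1 / U) (x.l2 / U) (x.l3 / U) (x.u1 / U) (x.u2 / U) (x.u3 / U) a b c

/-- A class of faces: multipliers of two stages and the inner products along the edges. -/
structure Kl where
  c1 : Cf
  c2 : Cf
  g1 : ℤ
  g2 : ℤ
  g3 : ℤ

/-- What is proved for a class of faces. -/
def Cls (S1 S2 η : ℤ) (x : Kl) : Prop := ∀ a b c : V, ip a a = 1 → ip b b = 1 → ip c c = 1 →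
  0 < det3 a b c → det3 a b c ≤ x.c1.rhs a b c ∧ (x.c1.rhs a b c - S1 / U ≤ det3 a b c →
    det3 a b c ≤ x.c2.rhs a b c ∧ (x.c2.rhs a b c - S2 / U ≤ det3 a b c →
      |ip b c - x.g1 / U| ≤ η / U ∧ |ip c a - x.g2 / U| ≤ η / U ∧ |ip a b - x.g3 / U| ≤ η / U))

/-- The six perturbed inequalities. -/
def Kl.pert (x : Kl) (S2 η t : ℤ) : List Cf :=
  [{ x.c2 with m := x.c2.m - S2 - (x.g1 - η) * t / U - 1, u1 := x.c2.u1 + t },
    { x.c2 with m := x.c2.m - S2 + (x.g1 + η) * t / U - 1, u1 := x.c2.u1 - t },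
    { x.c2 with m := x.c2.m - S2 - (x.g2 - η) * t / U - 1, u2 := x.c2.u2 + t },
    { x.c2 with m := x.c2.m - S2 + (x.g2 + η) * t / U - 1, u2 := x.c2.u2 - t },
    { x.c2 with m := x.c2.m - S2 - (x.g3 - η) * t / U - 1, u3 := x.c2.u3 + t },
    { x.c2 with m := x.c2.m - S2 + (x.g3 + η) * t / U - 1, u3 := x.c2.u3 - t }]

/-- Row STAGE, part one: from angles to triangles. -/
def ClsS : Prop := ∀ (S1 S2 η t : ℤ) (x : Kl) (B : ℕ → ℕ), 0 ≤ S2 → 0 < t →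
  (∀ y, Ok y → Cl x.c1 y) →
  (∀ y, Ok y → Cl { x.c2 with m := x.c2.m - S2 - 1 } y ∨ Cl { x.c1 with m := x.c1.m - S1 - 1 } y ∨
    In B y) →
  (∀ c ∈ x.c2 :: x.pert S2 η t, ∀ y, Ok y → In B y → Cl c y) → Cls S1 S2 η x

/-- Rotation of the coefficients. -/
def Cf.rot (c : Cf) : Cf := ⟨c.m, c.l2, c.l3, c.l1, c.u2, c.u3, c.u1⟩
/-- Reflection of the coefficients. -/
def Cf.swp (c : Cf) : Cf := ⟨c.m, c.l1, c.l3, c.l2, c.u1, c.u3, c.u2⟩
/-- Rotation of a class. -/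
def Kl.rot (x : Kl) : Kl := ⟨x.c1.rot, x.c2.rot, x.g2, x.g3, x.g1⟩
/-- Reflection of a class. -/
def Kl.swp (x : Kl) : Kl := ⟨x.c1.swp, x.c2.swp, x.g1, x.g3, x.g2⟩
/-- The class number `n / 6` of a table, moved by the symmetry number `n % 6`. -/
def pick (L : List Kl) (n : ℕ) : Kl :=
  (Kl.swp^[n % 2]) ((Kl.rot^[n % 6 / 2]) (L.getD (n / 6) ⟨⟨0, 0, 0, 0, 0, 0, 0⟩,
    ⟨0, 0, 0, 0, 0, 0, 0⟩, 0, 0, 0⟩))

/-- The class fits the face `f`. -/
def Fit (l l' : ℕ → ℤ) (u : ℕ → ℕ → ℤ) (f : Tri) (x : Kl) : Prop :=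
  x.c1 = ⟨x.c1.m, l f.1, l f.2.1, l f.2.2, 0, 0, 0⟩ ∧
  x.c2 = ⟨x.c2.m, l' f.1, l' f.2.1, l' f.2.2, u f.2.1 f.2.2 - u f.2.2 f.2.1,
    u f.2.2 f.1 - u f.1 f.2.2, u f.1 f.2.1 - u f.2.1 f.1⟩

/-- An upper bound for the sum of the right sides, in units `U ^ (-2)`. -/
def tot (K : ℕ) (T : List Tri) (m : Tri → ℤ) (l : ℕ → ℤ) : ℤ :=
  (T.map m).sum * U + 2 * piH * ((List.range K).map l).sum

/-- Row STAGE, part two: the two summations over all faces. -/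
def StageS : Prop := ∀ (K : ℕ) (T : List Tri) (p : ℕ → V) (vol : ℝ) (S1 S2 η : ℤ) (L : List Kl)
  (n : Tri → ℕ) (l l' : ℕ → ℤ) (u : ℕ → ℕ → ℤ) (lo : ℕ), Conf K T p vol →
  (lo : ℝ) / 10 ^ 13 ≤ vol → (∀ x ∈ L, Cls S1 S2 η x) →
  ((rots T).map fun f => (f.1, f.2.1)).Perm ((rots T).map fun f => (f.2.1, f.1)) →
  (∀ f ∈ T, n f / 6 < L.length ∧ Fit l l' u f (pick L (n f))) →
  0 ≤ ((List.range K).map l).sum → 0 ≤ ((List.range K).map l').sum →
  10 ^ 13 * (tot K T (fun f => (pick L (n f)).c1.m) l - S1 * U) ≤ 6 * lo * U ^ 2 →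
  6 * vol * U ^ 2 ≤ tot K T (fun f => (pick L (n f)).c2.m) l' ∧
  (10 ^ 13 * (tot K T (fun f => (pick L (n f)).c2.m) l' - S2 * U) ≤ 6 * lo * U ^ 2 →
    ∀ f ∈ T, |ip (p f.2.1) (p f.2.2) - (pick L (n f)).g1 / U| ≤ η / U ∧
      |ip (p f.2.2) (p f.1) - (pick L (n f)).g2 / U| ≤ η / U ∧
      |ip (p f.1) (p f.2.1) - (pick L (n f)).g3 / U| ≤ η / U)

theorem ile_iff (a b : ℤ) : ile a b = true ↔ a ≤ b := by
  unfold ile
  change Int.rec _ _ (b - a) = true ↔ _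
  rw [← Int.sub_nonneg]
  cases b - a with
  | ofNat n => exact iff_of_true rfl (Int.natCast_nonneg n)
  | negSucc n => exact iff_of_false Bool.false_ne_true (not_le.mpr (Int.negSucc_lt_zero n))

theorem imin_eq (a b : ℤ) (k : ℤ → Bool) : imin a b k = k (min a b) := by
  simp only [imin, forceZ_eq]
  cases h : ile a b
  · rw [min_eq_right (not_le.mp fun e => by simp [(ile_iff a b).mpr e] at h).le]; rfl
  · rw [min_eq_left ((ile_iff a b).mp h)]; rfl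

theorem mn_eq (a : ℤ) (n : ℕ) : mn a n = a * n := rfl

theorem U_pos : (0 : ℝ) < U := by unfold U; norm_num

theorem pi_U : (piL : ℝ) ≤ π * U ∧ π * U ≤ piH ∧ (p1 : ℝ) ≤ π / 2 * U ∧ π / 2 * U ≤ p2 := by
  have h1 := pi_gt_d20
  have h2 := pi_lt_d20
  unfold U piL piH p1 p2
  push_cast
  refine ⟨?_, ?_, ?_, ?_⟩ <;> linarith

end Pool.Agent.MP_2ab689_gt.Fam
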