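import Mathlib.LinearAlgebra.CrossProduct
import Pool.Agent.MP_2ab689_gt.Defs

/-!
The polynomial systems and isolating boxes that determine the maximum volume polytopes.
-/

namespace Pool.Agent.MP_2ab689_gt.Fam

/-- Data for 9 vertices: approximate vertices, faces, volume. -/
def data9 : List (ℤ × ℤ × ℤ) × List (ℕ × ℕ × ℕ) × ℕ :=
  ([(0, 0, 10000000), (9306049, 0, 3660254), (668144, 9282032, 3660254),
  (-668144, -9282032, 3660254), (-9306049, 0, 3660254), (4987096, 4641016, -7320508),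
  (5899798, -6339746, -5000000), (-4987096, -4641016, -7320508), (-5899798, 6339746, -5000000)],
  [(0, 1, 2), (0, 2, 4), (0, 3, 1), (0, 4, 3), (1, 3, 6), (1, 5, 2), (1, 6, 5), (2, 5, 8),
  (2, 8, 4), (3, 4, 7), (3, 7, 6), (4, 8, 7), (5, 6, 7), (5, 7, 8)],
  20437501)

/-- Data for 10 vertices: approximate vertices, faces, volume. -/
def data10 : List (ℤ × ℤ × ℤ) × List (ℕ × ℕ × ℕ) × ℕ :=
  ([(0, 0, 10000000), (8902055, 0, 4555592), (0, 8902055, 4555592), (0, -8902055, 4555592),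
  (-8902055, 0, 4555592), (6294704, 6294704, -4555592), (6294704, -6294704, -4555592),
  (-6294704, 6294704, -4555592), (-6294704, -6294704, -4555592), (0, 0, -10000000)],
  [(0, 1, 2), (0, 2, 4), (0, 3, 1), (0, 4, 3), (1, 3, 6), (1, 5, 2), (1, 6, 5), (2, 5, 7),
  (2, 7, 4), (3, 4, 8), (3, 8, 6), (4, 7, 8), (5, 6, 9), (5, 9, 7), (6, 8, 9), (7, 9, 8)],
  22187111)

/-- Data for 11 vertices: approximate vertices, faces, volume. -/
def data11 : List (ℤ × ℤ × ℤ) × List (ℕ × ℕ × ℕ) × ℕ :=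
  ([(0, 0, 10000000), (8719394, 0, 4896138), (4959592, 8440657, 2039059),
  (4959592, -8440657, 2039059), (-4959592, 8440657, 2039059), (-4959592, -8440657, 2039059),
  (8538271, 0, -5205567), (-8719394, 0, 4896138), (0, 5950272, -8037056), (0, -5950272, -8037056),
  (-8538271, 0, -5205567)],
  [(0, 1, 2), (0, 2, 4), (0, 3, 1), (0, 4, 7), (0, 5, 3), (0, 7, 5), (1, 3, 6), (1, 6, 2),
  (2, 6, 8), (2, 8, 4), (3, 5, 9), (3, 9, 6), (4, 8, 10), (4, 10, 7), (5, 7, 10), (5, 10, 9),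
  (6, 9, 8), (8, 9, 10)],
  23546344)

/-- Data for 13 vertices: approximate vertices, faces, volume. -/
def data13 : List (ℤ × ℤ × ℤ) × List (ℕ × ℕ × ℕ) × ℕ :=
  ([(0, 0, 10000000), (8553502, 0, 5180502), (0, 7353455, 6776924), (0, -7353455, 6776924),
  (5395268, 8366747, -942669), (5395268, -8366747, -942669), (-8553502, 0, 5180502),
  (8437915, 0, -5366711), (-5395268, 8366747, -942669), (-5395268, -8366747, -942669),
  (0, 4935140, -8697379), (0, -4935140, -8697379), (-8437915, 0, -5366711)],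
  [(0, 1, 2), (0, 2, 6), (0, 3, 1), (0, 6, 3), (1, 3, 5), (1, 4, 2), (1, 5, 7), (1, 7, 4),
  (2, 4, 8), (2, 8, 6), (3, 6, 9), (3, 9, 5), (4, 7, 10), (4, 10, 8), (5, 9, 11), (5, 11, 7),
  (6, 8, 12), (6, 12, 9), (7, 11, 10), (8, 10, 12), (9, 12, 11), (10, 11, 12)],
  26128341)

/-- Data for 14 vertices: approximate vertices, faces, volume. -/
def data14 : List (ℤ × ℤ × ℤ) × List (ℕ × ℕ × ℕ) × ℕ :=
  ([(0, 0, 10000000), (8965135, 0, 4430164), (4482567, 7764035, 4430164),
  (4482567, -7764035, 4430164), (-4482567, 7764035, 4430164), (-4482567, -7764035, 4430164),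
  (7764035, 4482567, -4430164), (7764035, -4482567, -4430164), (-8965135, 0, 4430164),
  (0, 8965135, -4430164), (0, -8965135, -4430164), (0, 0, -10000000),
  (-7764035, 4482567, -4430164), (-7764035, -4482567, -4430164)],
  [(0, 1, 2), (0, 2, 4), (0, 3, 1), (0, 4, 8), (0, 5, 3), (0, 8, 5), (1, 3, 7), (1, 6, 2),
  (1, 7, 6), (2, 6, 9), (2, 9, 4), (3, 5, 10), (3, 10, 7), (4, 9, 12), (4, 12, 8), (5, 8, 13),
  (5, 13, 10), (6, 7, 11), (6, 11, 9), (7, 10, 11), (8, 12, 13), (9, 11, 12), (10, 13, 11),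
  (11, 13, 12)],
  27209778)

/-- Data for 15 vertices: approximate vertices, faces, volume. -/
def data15 : List (ℤ × ℤ × ℤ) × List (ℕ × ℕ × ℕ) × ℕ :=
  ([(0, 0, 10000000), (8406700, 0, 5415478), (4095546, 7900625, 4561428),
  (4095546, -7900625, 4561428), (-4095546, 7900625, 4561428), (-4095546, -7900625, 4561428),
  (8406700, 4689941, -2707739), (8406700, -4689941, -2707739), (-8406700, 0, 5415478),
  (0, 8660254, -5000000), (0, -8660254, -5000000), (4095546, 0, -9122856),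
  (-8406700, 4689941, -2707739), (-8406700, -4689941, -2707739), (-4095546, 0, -9122856)],
  [(0, 1, 2), (0, 2, 4), (0, 3, 1), (0, 4, 8), (0, 5, 3), (0, 8, 5), (1, 3, 7), (1, 6, 2),
  (1, 7, 6), (2, 6, 9), (2, 9, 4), (3, 5, 10), (3, 10, 7), (4, 9, 12), (4, 12, 8), (5, 8, 13),
  (5, 13, 10), (6, 7, 11), (6, 11, 9), (7, 10, 11), (8, 12, 13), (9, 11, 14), (9, 14, 12),
  (10, 13, 14), (10, 14, 11), (12, 14, 13)],
  28043793)

/-- Data for 16 vertices: approximate vertices, faces, volume. -/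
def data16 : List (ℤ × ℤ × ℤ) × List (ℕ × ℕ × ℕ) × ℕ :=
  ([(0, 0, 10000000), (8502986, 0, 5263006), (3969514, 7519556, 5263006),
  (4527370, -7197478, 5263006), (-4251493, -7363802, 5263006), (-4251493, 7363802, 5263006),
  (8252797, -4558534, -3333333), (8406959, 5068479, -1906192), (-8496884, -322078, 5263006),
  (-178592, 9426399, -3333333), (185952, -9814879, -1906192), (4341418, 2617401, -8619820),
  (-8074205, -4867864, -3333333), (-8592911, 4746400, -1906192), (96027, -5068479, -8619820),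
  (-4437445, 2451078, -8619820)],
  [(0, 1, 2), (0, 2, 5), (0, 3, 1), (0, 4, 3), (0, 5, 8), (0, 8, 4), (1, 3, 6), (1, 6, 7),
  (1, 7, 2), (2, 7, 9), (2, 9, 5), (3, 4, 10), (3, 10, 6), (4, 8, 12), (4, 12, 10), (5, 9, 13),
  (5, 13, 8), (6, 10, 14), (6, 11, 7), (6, 14, 11), (7, 11, 9), (8, 13, 12), (9, 11, 15),
  (9, 15, 13), (10, 12, 14), (11, 14, 15), (12, 13, 15), (12, 15, 14)],
  28864553)

/-- The data for `K` vertices. -/
def data (K : ℕ) : List (ℤ × ℤ × ℤ) × List (ℕ × ℕ × ℕ) × ℕ :=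
  if K = 9 then data9 else if K = 10 then data10 else if K = 11 then data11 else
  if K = 13 then data13 else if K = 14 then data14 else if K = 15 then data15 else data16

/-- The approximate position of vertex `v`: the entry of the table divided by `10 ^ 7`. -/
noncomputable def centre (K v : ℕ) : EuclideanSpace ℝ (Fin 3) :=
  !₂[(((data K).1.getD v 0).1 : ℝ) / 10 ^ 7, (((data K).1.getD v 0).2.1 : ℝ) / 10 ^ 7,
    (((data K).1.getD v 0).2.2 : ℝ) / 10 ^ 7]

/-- The sum of the cross products `q b × q c` over the listed faces `(v, b, c)` at vertex `v`,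
read cyclically. -/
def normal (K : ℕ) (q : ℕ → EuclideanSpace ℝ (Fin 3)) (v : ℕ) : Fin 3 → ℝ :=
  ((data K).2.1.map fun f =>
    (if f.1 = v then crossProduct (q f.2.1).ofLp (q f.2.2).ofLp else 0) +
    (if f.2.1 = v then crossProduct (q f.2.2).ofLp (q f.1).ofLp else 0) +
    (if f.2.2 = v then crossProduct (q f.1).ofLp (q f.2.1).ofLp else 0)).sum

/-- The points `q 0, ..., q (K - 1)` solve the polynomial system in the isolating box. -/
def Solves (K : ℕ) (q : ℕ → EuclideanSpace ℝ (Fin 3)) : Prop :=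
  (∀ v < K, ‖q v‖ = 1 ∧ ‖q v - centre K v‖ ≤ 1 / 500 ∧
    crossProduct (q v).ofLp (normal K q v) = 0) ∧ q 0 0 = 0 ∧ q 0 1 = 0 ∧ q 1 1 = 0

end Pool.Agent.MP_2ab689_gt.Fam
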