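import Pool.Agent.MP_2ab689_gt.Fam.Spec

/-!
Development of the vertices from the edges.
-/

namespace Pool.Agent.MP_2ab689_gt.Fam

open Big

namespace Dev

theorem amul {a b A B : ℝ} (h : |a| ≤ A) (k : |b| ≤ B) : |a * b| ≤ A * B := by
  rw [abs_mul]; exact mul_le_mul h k (abs_nonneg _) ((abs_nonneg _).trans h)

theorem gram {x y z x0 y0 z0 : ℝ} (hx : |x| ≤ 1) (hy : |y| ≤ 1) (hz : |z| ≤ 1)
    (u : |x - x0| ≤ 1 / 100000) (v : |y - y0| ≤ 1 / 100000) (w : |z - z0| ≤ 1 / 100000) :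
    1 + 2 * x0 * y0 * z0 - x0 ^ 2 - y0 ^ 2 - z0 ^ 2 - 13 / 100000 ≤
      1 + 2 * x * y * z - x ^ 2 - y ^ 2 - z ^ 2 := by
  have b : ∀ {p q : ℝ}, |p| ≤ 1 → |p - q| ≤ 1 / 100000 → |q| ≤ 101 / 100 := fun h k => by
    rw [abs_le] at *; constructor <;> linarith [h.1, h.2, k.1, k.2]
  have b2 : ∀ {p q : ℝ}, |p| ≤ 1 → |p - q| ≤ 1 / 100000 → |p + q| ≤ 201 / 100 := fun h k => by
    rw [abs_le] at *; constructor <;> linarith [h.1, h.2, k.1, k.2]
  have h1 := abs_le.1 (amul (amul u (b hy v)) (b hz w))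
  have h2 := abs_le.1 (amul (amul hx v) (b hz w))
  have h3 := abs_le.1 (amul (amul hx hy) w)
  have h4 := abs_le.1 (amul u (b2 hx u))
  have h5 := abs_le.1 (amul v (b2 hy v))
  have h6 := abs_le.1 (amul w (b2 hz w))
  linarith [h1.1, h2.1, h3.1, h4.2, h5.2, h6.2]

theorem nv_crs (a b : V) : nv (crs a b) ≤ nv a * nv b := by
  rw [nv_le_iff (mul_nonneg (nv_nonneg a) (nv_nonneg b)), mul_pow, nv_sq, nv_sq]
  have e : ip (crs a b) (crs a b) = ip a a * ip b b - ip a b ^ 2 := by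
    simp only [ip, crs, Matrix.cons_val_zero, Matrix.cons_val_one, Matrix.cons_val_two,
      Matrix.head_cons, Matrix.tail_cons]; ring
  rw [e]
  linarith [sq_nonneg (ip a b)]

theorem cramer (a b s x : V) :
    det3 a b s • x = ip a x • crs b s + ip b x • crs s a + ip s x • crs a b := by
  funext i
  fin_cases i <;> simp [det3, ip, crs] <;> ring

theorem nv_t {t : V} (h : |1 - ip t t| ≤ 1 / 10 ^ 6) : nv t ≤ 1 + 1 / 10 ^ 6 := by
  rw [nv_le_iff (by norm_num)]
  linarith [(abs_le.1 h).1]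

theorem step {a b c ta tb tc : V} {ra rb d r : ℝ} (ha : ip a a = 1) (hb : ip b b = 1)
    (hc : ip c c = 1) (hD : 0 < det3 a b c) (hab : |ip a b - ip ta tb| ≤ 1 / 100000)
    (hbc : |ip b c - ip tb tc| ≤ 1 / 100000) (hca : |ip c a - ip tc ta| ≤ 1 / 100000)
    (hra : nv (a - ta) ≤ ra) (hrb : nv (b - tb) ≤ rb) (hta : |1 - ip ta ta| ≤ 1 / 10 ^ 6)
    (htc : |1 - ip tc tc| ≤ 1 / 10 ^ 6)
    (hd : d ^ 2 ≤ 1 + 2 * ip ta tb * ip tb tc * ip tc ta - ip ta tb ^ 2 - ip tb tc ^ 2 -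
      ip tc ta ^ 2 - 13 / 100000)
    (hpos : 0 < d + det3 ta tb tc - 1001 / 1000 * (ra + rb))
    (hr : 411 / 10 ^ 7 + 2001 / 1000 * (ra + rb) ≤
      r * (d + det3 ta tb tc - 1001 / 1000 * (ra + rb))) : nv (c - tc) ≤ r := by
  have na := nv_eq_one ha
  have nb := nv_eq_one hb
  have nc := nv_eq_one hc
  have nta := nv_t hta
  have ntc := nv_t htc
  have ra0 := (nv_nonneg _).trans hra
  have rb0 := (nv_nonneg _).trans hrb
  have one : ∀ {p q : V}, nv p = 1 → nv q = 1 → |ip p q| ≤ 1 := fun {p q} h k => by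
    simpa [h, k] using abs_ip_le p q
  have hG := gram (one na nb) (one nb nc) (one nc na) hab hbc hca
  have dD : d ≤ det3 a b c := by
    refine (abs_le_of_sq_le_sq' ?_ hD.le).2
    rw [det3_sq, ha, hb, hc]
    linarith
  have ab : ∀ x : V, |nv x| = nv x := fun x => abs_of_nonneg (nv_nonneg x)
  have m3 : ∀ {x y z : V} {A B C : ℝ}, nv x ≤ A → nv y ≤ B → nv z ≤ C →
      |det3 x y z| ≤ A * B * C := fun {x y z A B C} h k l =>
    (abs_det3_le x y z).trans ((le_abs_self _).trans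
      (amul (amul ((ab x).trans_le h) ((ab y).trans_le k)) ((ab z).trans_le l)))
  have m2 : ∀ {x y : V} {A B : ℝ}, nv x ≤ A → nv y ≤ B → nv x * nv y ≤ A * B :=
    fun {x y A B} h k => (le_abs_self _).trans (amul ((ab x).trans_le h) ((ab y).trans_le k))
  have e1 := (abs_le.1 (m3 hra nb.le ntc)).1
  have e2 := (abs_le.1 (m3 nta hrb ntc)).1
  have e3 : det3 a b (c + tc) = det3 a b c + det3 ta tb tc + det3 (a - ta) b tc +
      det3 ta (b - tb) tc := by
    simp only [det3, Pi.add_apply, Pi.sub_apply]; ring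
  have hden : d + det3 ta tb tc - 1001 / 1000 * (ra + rb) ≤ det3 a b (c + tc) := by
    rw [e3]; linarith
  have ns : nv (c + tc) ≤ 2 + 1 / 10 ^ 6 := (nv_add c tc).trans (by linarith)
  have ax : |ip a (c - tc)| ≤ 1 / 100000 + ra * (1 + 1 / 10 ^ 6) := by
    have e : ip a (c - tc) = (ip c a - ip tc ta) - ip (a - ta) tc := by
      simp only [ip, Pi.sub_apply]; ring
    rw [e]
    exact (abs_sub _ _).trans (add_le_add hca ((abs_ip_le _ _).trans (m2 hra ntc)))
  have bx : |ip b (c - tc)| ≤ 1 / 100000 + rb * (1 + 1 / 10 ^ 6) := by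
    have e : ip b (c - tc) = (ip b c - ip tb tc) - ip (b - tb) tc := by
      simp only [ip, Pi.sub_apply]; ring
    rw [e]
    exact (abs_sub _ _).trans (add_le_add hbc ((abs_ip_le _ _).trans (m2 hrb ntc)))
  have sx : |ip (c + tc) (c - tc)| ≤ 1 / 10 ^ 6 := by
    have e : ip (c + tc) (c - tc) = ip c c - ip tc tc := by
      simp only [ip, Pi.sub_apply, Pi.add_apply]; ring
    rwa [e, hc]
  have t : ∀ {k A B : ℝ} {y : V}, |k| ≤ A → nv y ≤ B → nv (k • y) ≤ A * B :=
    fun {k A B y} h l => by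
      rw [nv_smul]; exact mul_le_mul h l (nv_nonneg _) ((abs_nonneg _).trans h)
  have t1 := t ax ((nv_crs _ _).trans (m2 nb.le ns))
  have t2 := t bx ((nv_crs _ _).trans (m2 ns na.le))
  have t3 := t sx ((nv_crs _ _).trans (m2 na.le nb.le))
  have key : det3 a b (c + tc) * nv (c - tc) ≤ 411 / 10 ^ 7 + 2001 / 1000 * (ra + rb) := by
    have h := nv_smul (det3 a b (c + tc)) (c - tc)
    rw [abs_of_pos (hpos.trans_le hden), cramer] at h
    have h1 := nv_add (ip a (c - tc) • crs b (c + tc) + ip b (c - tc) • crs (c + tc) a)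
      (ip (c + tc) (c - tc) • crs a b)
    have h2 := nv_add (ip a (c - tc) • crs b (c + tc)) (ip b (c - tc) • crs (c + tc) a)
    linarith
  have := mul_le_mul_of_nonneg_right hden (nv_nonneg (c - tc))
  refine le_of_mul_le_mul_right ?_ hpos
  linarith

theorem first {s c s0 c0 : ℝ} (h : s * s + c * c = 1) (hs : 0 < s) (hc : |c - c0| ≤ 1 / 100000)
    (h0 : |1 - (s0 * s0 + c0 * c0)| ≤ 1 / 10 ^ 6) (h1 : 84 / 100 ≤ s0) (h2 : |c0| ≤ 55 / 100) :
    (s - s0) * (s - s0) + (c - c0) * (c - c0) ≤ (2 / 100000) ^ 2 := by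
  have h3 : |c + c0| ≤ 111 / 100 := by
    rw [abs_le] at *; constructor <;> linarith [hc.1, hc.2, h2.1, h2.2]
  have h4 := abs_le.1 (amul hc h3)
  have h5 := abs_le.1 h0
  have h6 : |s - s0| ≤ 15 / 10 ^ 6 := by
    refine le_of_mul_le_mul_right (a := s + s0) ?_ (by linarith)
    rw [← abs_of_pos (by linarith : 0 < s + s0), ← abs_mul, abs_of_pos (by linarith : 0 < s + s0),
      abs_le]
    constructor <;> linarith [h4.1, h4.2, h5.1, h5.2]
  have h7 := (le_abs_self _).trans (amul h6 h6)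
  have h8 := (le_abs_self _).trans (amul hc hc)
  linarith

/-- For each vertex: a radius (unit `10 ^ (-9)`), two earlier vertices and a lower bound for the
determinant (unit `10 ^ (-7)`). -/
def cert : ℕ → List (ℤ × ℕ × ℕ × ℤ)
  | 9 => [(0, 0, 0, 0), (20000, 0, 0, 0), (46959, 0, 1, 8637151), (46959, 1, 0, 8637151),
    (78188, 0, 2, 8637151), (92302, 2, 1, 9484392), (101356, 1, 3, 8637151),
    (153689, 3, 4, 9484392), (168764, 4, 2, 8637151)]
  | 10 => [(0, 0, 0, 0), (20000, 0, 0, 0), (51186, 0, 1, 7923837), (51186, 1, 0, 7923837),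
    (90563, 0, 2, 7923837), (105304, 2, 1, 8714929), (105304, 1, 3, 8714929),
    (186320, 4, 2, 8714929), (186320, 3, 4, 8714929), (291882, 5, 6, 7923837)]
  | 11 => [(0, 0, 0, 0), (20000, 0, 0, 0), (55115, 0, 1, 7358857), (55115, 1, 0, 7358857),
    (90414, 0, 2, 8371666), (90414, 3, 0, 8371666), (130050, 1, 3, 7358858),
    (150852, 0, 4, 7358857), (209488, 4, 2, 7931649), (209488, 3, 5, 7931649),
    (355985, 7, 4, 7358858)]
  | 13 => [(0, 0, 0, 0), (20000, 0, 0, 0), (64492, 0, 1, 6288745), (64492, 1, 0, 6288745),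
    (140164, 2, 1, 7497261), (140164, 1, 3, 7497261), (135276, 0, 2, 6288745),
    (241163, 1, 5, 7497145), (294021, 6, 2, 7497261), (294021, 3, 6, 7497261),
    (560435, 4, 7, 7175674), (560435, 7, 5, 7175674), (600449, 6, 8, 7497145)]
  | 14 => [(0, 0, 0, 0), (20000, 0, 0, 0), (58276, 0, 1, 6959628), (58276, 1, 0, 6959628),
    (113301, 0, 2, 6959627), (113301, 3, 0, 6959627), (148817, 2, 1, 6643349),
    (148817, 1, 3, 6643349), (192410, 0, 4, 6959628), (289348, 4, 2, 6643348),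
    (289348, 3, 5, 6643348), (457467, 6, 7, 6959627), (491417, 8, 4, 6643349),
    (491417, 5, 8, 6643349)]
  | 15 => [(0, 0, 0, 0), (20000, 0, 0, 0), (61074, 0, 1, 6640839), (61074, 1, 0, 6640839),
    (126192, 0, 2, 6470470), (126192, 3, 0, 6470470), (165239, 2, 1, 6152469),
    (165239, 1, 3, 6152469), (221069, 0, 4, 6640839), (321343, 4, 2, 6470470),
    (321343, 3, 5, 6470470), (570922, 6, 7, 6152469), (598227, 8, 4, 6152469),
    (598227, 5, 8, 6152469), (1412295, 9, 11, 6470470)]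
  | 16 => [(0, 0, 0, 0), (20000, 0, 0, 0), (63442, 0, 1, 6392851), (66282, 1, 0, 6118943),
    (135875, 3, 0, 6392851), (137313, 0, 2, 6118943), (174660, 1, 3, 6118942),
    (180796, 2, 1, 5754080), (247052, 0, 5, 6392851), (361864, 5, 2, 6118943),
    (387248, 3, 4, 5754081), (614911, 7, 6, 6118942), (659853, 4, 8, 6118943),
    (704201, 8, 5, 5754080), (952708, 6, 10, 6118943), (1561898, 9, 11, 6392851)]
  | _ => []

/-- A row of the table. -/
def pt (K v : ℕ) : ℤ × ℤ × ℤ := (data K).1.getD v 0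

/-- Integer inner product of two rows. -/
def ipZ (K a b : ℕ) : ℤ :=
  (pt K a).1 * (pt K b).1 + (pt K a).2.1 * (pt K b).2.1 + (pt K a).2.2 * (pt K b).2.2

/-- Integer determinant of three rows. -/
def detZ (K a b c : ℕ) : ℤ :=
  (pt K a).1 * ((pt K b).2.1 * (pt K c).2.2 - (pt K b).2.2 * (pt K c).2.1) -
  (pt K a).2.1 * ((pt K b).1 * (pt K c).2.2 - (pt K b).2.2 * (pt K c).1) +
  (pt K a).2.2 * ((pt K b).1 * (pt K c).2.1 - (pt K b).2.1 * (pt K c).1)

/-- The certified radius. -/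
def rho (K v : ℕ) : ℤ := ((cert K).getD v 0).1

theorem ip_cen (K a b : ℕ) : ip (cen K a) (cen K b) = (ipZ K a b : ℝ) / 10 ^ 14 := by
  simp only [cen_eq, ip, ipZ, pt, Matrix.cons_val_zero, Matrix.cons_val_one, Matrix.cons_val_two,
    Matrix.head_cons, Matrix.tail_cons]
  push_cast; ring

theorem det_cen (K a b c : ℕ) :
    det3 (cen K a) (cen K b) (cen K c) = (detZ K a b c : ℝ) / 10 ^ 21 := by
  simp only [cen_eq, det3, detZ, pt, Matrix.cons_val_zero, Matrix.cons_val_one,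
    Matrix.cons_val_two, Matrix.head_cons, Matrix.tail_cons]
  push_cast; ring

/-- The check of one step. -/
def Ok (K a b c : ℕ) (d : ℤ) : Prop :=
  (a, b, c) ∈ rots (fac K) ∧ (b, c, a) ∈ rots (fac K) ∧ (c, a, b) ∈ rots (fac K) ∧ a < c ∧ b < c ∧
  d ^ 2 * 10 ^ 28 ≤ 10 ^ 42 + 2 * ipZ K a b * ipZ K b c * ipZ K c a -
    (ipZ K a b ^ 2 + ipZ K b c ^ 2 + ipZ K c a ^ 2) * 10 ^ 14 - 13 * 10 ^ 37 ∧
  0 < d * 10 ^ 14 + detZ K a b c - 1001 * (rho K a + rho K b) * 10 ^ 9 ∧
  411 * 10 ^ 23 + 2001 * (rho K a + rho K b) * 10 ^ 18 ≤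
    rho K c * (d * 10 ^ 14 + detZ K a b c - 1001 * (rho K a + rho K b) * 10 ^ 9)

theorem ok_all : ∀ K ∈ Ks, ∀ c < K, 2 ≤ c →
    Ok K ((cert K).getD c 0).2.1 ((cert K).getD c 0).2.2.1 c ((cert K).getD c 0).2.2.2 := by
  unfold Ok; decide +kernel

theorem ok_row : ∀ K ∈ Ks, ∀ v < K, |10 ^ 14 - ipZ K v v| ≤ 10 ^ 8 ∧ rho K v ≤ 2000000 := by
  decide +kernel

theorem ok_two : ∀ K ∈ Ks, pt K 0 = (0, 0, 10000000) ∧ (pt K 1).2.1 = 0 ∧
    8400000 ≤ (pt K 1).1 ∧ |(pt K 1).2.2| ≤ 5500000 ∧ rho K 0 = 0 ∧ rho K 1 = 20000 ∧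
    (0, 1, 2) ∈ rots (fac K) ∧ 1 < K := by
  decide +kernel

theorem unit_cen {K v : ℕ} (hK : K ∈ Ks) (hv : v < K) :
    |1 - ip (cen K v) (cen K v)| ≤ 1 / 10 ^ 6 := by
  have h : |(10 : ℝ) ^ 14 - ipZ K v v| ≤ 10 ^ 8 := by exact_mod_cast (ok_row K hK v hv).1
  rw [ip_cen, abs_le] at *
  constructor <;> linarith [h.1, h.2]

theorem cen_pt (K v : ℕ) : cen K v 0 = (pt K v).1 / 10 ^ 7 ∧ cen K v 1 = (pt K v).2.1 / 10 ^ 7 ∧
    cen K v 2 = (pt K v).2.2 / 10 ^ 7 := ⟨rfl, rfl, rfl⟩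

end Dev

open Dev

theorem dev : DevS := by
  intro K hK p hu hpos he h00 h01 h02 h11 h10
  obtain ⟨k0, k1, k2, k3, k4, k5, k6, k7⟩ := ok_two K hK
  obtain ⟨c00, c01, c02⟩ := cen_pt K 0
  obtain ⟨c10, c11, c12⟩ := cen_pt K 1
  rw [k0] at c00 c01 c02
  rw [k1] at c11
  norm_num at c00 c01 c02 c11
  have main : ∀ v < K, nv (p v - cen K v) ≤ (rho K v : ℝ) / 10 ^ 9 := by
    intro c
    induction c using Nat.strong_induction_on with
    | _ c ih =>
      intro hc
      rcases Nat.lt_or_ge c 2 with h2 | h2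
      · obtain rfl | rfl : c = 0 ∨ c = 1 := by omega
        · rw [k4, nv_le_iff (by norm_num)]
          simp [ip, h00, h01, h02, c00, c01, c02]
        · rw [k5, nv_le_iff (by norm_num)]
          have e := he _ k6
          have u := hu 1 hc
          have w := unit_cen hK hc
          simp only [ip, h00, h01, h02, c00, c01, c02, h11, c11, zero_mul, zero_add, one_mul,
            add_zero] at e u w
          have a1 : (8400000 : ℝ) ≤ (pt K 1).1 := by exact_mod_cast k2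
          have a2 : |((pt K 1).2.2 : ℝ)| ≤ 5500000 := by exact_mod_cast k3
          have := first u h10 e w (by rw [c10]; linarith) (by
            rw [c12, abs_le] at *; constructor <;> linarith [a2.1, a2.2])
          simp only [ip, Pi.sub_apply, h11, c11]
          push_cast
          linarith
      · obtain ⟨o1, o2, o3, o4, o5, o6, o7, o8⟩ := ok_all K hK c hc h2
        generalize ((cert K).getD c 0).2.1 = a at *
        generalize ((cert K).getD c 0).2.2.1 = b at *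
        generalize ((cert K).getD c 0).2.2.2 = d at *
        have ha := o4.trans hc
        have hb := o5.trans hc
        have hD : 0 < det3 (p a) (p b) (p c) := by
          obtain ⟨f, hf, h | h | h⟩ := mem_rots.1 o1 <;>
            obtain ⟨rfl, rfl, rfl⟩ : _ ∧ _ ∧ _ := by simpa only [Prod.ext_iff] using h
          · exact hpos f hf
          · rw [det3_rot]; exact hpos f hf
          · rw [← det3_rot]; exact hpos f hf
        have o6' : (d : ℝ) ^ 2 * 10 ^ 28 ≤ 10 ^ 42 + 2 * ipZ K a b * ipZ K b c * ipZ K c a -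
            (ipZ K a b ^ 2 + ipZ K b c ^ 2 + ipZ K c a ^ 2) * 10 ^ 14 - 13 * 10 ^ 37 := by
          exact_mod_cast o6
        have o7' : (0 : ℝ) < d * 10 ^ 14 + detZ K a b c - 1001 * (rho K a + rho K b) * 10 ^ 9 := by
          exact_mod_cast o7
        have o8' : (411 : ℝ) * 10 ^ 23 + 2001 * (rho K a + rho K b) * 10 ^ 18 ≤
            rho K c * (d * 10 ^ 14 + detZ K a b c - 1001 * (rho K a + rho K b) * 10 ^ 9) := by
          exact_mod_cast o8
        refine step (d := d / 10 ^ 7) (hu a ha) (hu b hb) (hu c hc) hD (he _ o1) (he _ o2)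
          (he _ o3) (ih a o4 ha) (ih b o5 hb) (unit_cen hK ha) (unit_cen hK hc) ?_ ?_ ?_
        · rw [ip_cen, ip_cen, ip_cen]; linarith
        · rw [det_cen]; linarith
        · rw [det_cen]; linarith
  intro v hv
  have h : (rho K v : ℝ) ≤ 2000000 := by exact_mod_cast (ok_row K hK v hv).2
  exact (main v hv).trans (by linarith)

end Pool.Agent.MP_2ab689_gt.Fam
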