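import Pool.Agent.MP_2ab689_gt.Fam.Data
import Pool.Agent.MP_2ab689_gt.T32.Main

/-!
Interfaces of the proof for nine to sixteen vertices.
-/

namespace Pool.Agent.MP_2ab689_gt.Fam

open Real Big MeasureTheory Set WithLp

/-- An oriented face. -/
abbrev Tri : Type := ℕ × ℕ × ℕ

/-- The numbers of vertices treated. -/
def Ks : List ℕ := [9, 10, 11, 13, 14, 15, 16]

/-- The faces of the extremal polytope. -/
def fac (K : ℕ) : List Tri := (data K).2.1

/-- The approximate vertices. -/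
noncomputable def cen (K v : ℕ) : V := (centre K v).ofLp

/-- A lower bound for the maximum volume (unit `10 ^ (-13)`). -/
def lowN : ℕ → ℕ
  | 9 => 20437501158995
  | 10 => 22187111315452
  | 11 => 23546344950685
  | 13 => 26128341520601
  | 14 => 27209778993485
  | 15 => 28043793818349
  | 16 => 28864553922744
  | _ => 0

/-- A lower bound for the maximum volume. -/
noncomputable def low (K : ℕ) : ℝ := (lowN K : ℝ) / 10 ^ 13

/-- A competing triangulation with 11 vertices. -/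
def t11x0 : List Tri :=
  [(0, 1, 2), (0, 2, 3), (0, 3, 4), (0, 4, 1), (1, 4, 5), (1, 5, 2), (2, 5, 6), (2, 6, 7),
  (2, 7, 3), (3, 7, 8), (3, 8, 4), (4, 8, 9), (4, 9, 5), (5, 9, 6), (6, 9, 10), (6, 10, 7),
  (7, 10, 8), (8, 10, 9)]

/-- A competing triangulation with 11 vertices. -/
def t11x1 : List Tri :=
  [(0, 1, 2), (0, 2, 3), (0, 3, 4), (0, 4, 1), (1, 4, 5), (1, 5, 6), (1, 6, 2), (2, 6, 7),
  (2, 7, 3), (3, 7, 8), (3, 8, 4), (4, 8, 9), (4, 9, 5), (5, 9, 6), (6, 9, 10), (6, 10, 7),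
  (7, 10, 8), (8, 10, 9)]

/-- A competing triangulation with 13 vertices. -/
def t13x0 : List Tri :=
  [(0, 1, 2), (0, 2, 3), (0, 3, 4), (0, 4, 1), (1, 4, 5), (1, 5, 6), (1, 6, 2), (2, 6, 7),
  (2, 7, 3), (3, 7, 8), (3, 8, 4), (4, 8, 9), (4, 9, 5), (5, 9, 10), (5, 10, 6), (6, 10, 11),
  (6, 11, 7), (7, 11, 8), (8, 11, 12), (8, 12, 9), (9, 12, 10), (10, 12, 11)]

/-- A competing triangulation with 13 vertices. -/
def t13x1 : List Tri :=
  [(0, 1, 2), (0, 2, 3), (0, 3, 4), (0, 4, 1), (1, 4, 5), (1, 5, 6), (1, 6, 2), (2, 6, 7),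
  (2, 7, 3), (3, 7, 8), (3, 8, 4), (4, 8, 9), (4, 9, 5), (5, 9, 10), (5, 10, 6), (6, 10, 11),
  (6, 11, 7), (7, 11, 12), (7, 12, 8), (8, 12, 9), (9, 12, 10), (10, 12, 11)]

/-- A competing triangulation with 13 vertices. -/
def t13x2 : List Tri :=
  [(0, 1, 2), (0, 2, 3), (0, 3, 4), (0, 4, 1), (1, 4, 5), (1, 5, 6), (1, 6, 2), (2, 6, 7),
  (2, 7, 3), (3, 7, 8), (3, 8, 9), (3, 9, 4), (4, 9, 10), (4, 10, 5), (5, 10, 11), (5, 11, 6),
  (6, 11, 7), (7, 11, 12), (7, 12, 8), (8, 12, 9), (9, 12, 10), (10, 12, 11)]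

/-- A competing triangulation with 14 vertices. -/
def t14x0 : List Tri :=
  [(0, 1, 2), (0, 2, 3), (0, 3, 4), (0, 4, 1), (1, 4, 5), (1, 5, 6), (1, 6, 2), (2, 6, 7),
  (2, 7, 3), (3, 7, 8), (3, 8, 9), (3, 9, 4), (4, 9, 10), (4, 10, 5), (5, 10, 11), (5, 11, 6),
  (6, 11, 12), (6, 12, 7), (7, 12, 8), (8, 12, 13), (8, 13, 9), (9, 13, 10), (10, 13, 11),
  (11, 13, 12)]

/-- A competing triangulation with 15 vertices. -/
def t15x0 : List Tri :=
  [(0, 1, 2), (0, 2, 3), (0, 3, 4), (0, 4, 1), (1, 4, 5), (1, 5, 6), (1, 6, 2), (2, 6, 7),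
  (2, 7, 3), (3, 7, 8), (3, 8, 9), (3, 9, 4), (4, 9, 10), (4, 10, 5), (5, 10, 11), (5, 11, 12),
  (5, 12, 6), (6, 12, 7), (7, 12, 13), (7, 13, 8), (8, 13, 14), (8, 14, 9), (9, 14, 10),
  (10, 14, 11), (11, 13, 12), (11, 14, 13)]

/-- A competing triangulation with 15 vertices. -/
def t15x1 : List Tri :=
  [(0, 1, 2), (0, 2, 3), (0, 3, 4), (0, 4, 1), (1, 4, 5), (1, 5, 6), (1, 6, 2), (2, 6, 7),
  (2, 7, 8), (2, 8, 3), (3, 8, 9), (3, 9, 4), (4, 9, 10), (4, 10, 5), (5, 10, 11), (5, 11, 6),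
  (6, 11, 12), (6, 12, 7), (7, 12, 13), (7, 13, 8), (8, 13, 9), (9, 13, 14), (9, 14, 10),
  (10, 14, 11), (11, 14, 12), (12, 14, 13)]

/-- A competing triangulation with 15 vertices. -/
def t15x2 : List Tri :=
  [(0, 1, 2), (0, 2, 3), (0, 3, 4), (0, 4, 1), (1, 4, 5), (1, 5, 6), (1, 6, 2), (2, 6, 7),
  (2, 7, 8), (2, 8, 3), (3, 8, 9), (3, 9, 10), (3, 10, 4), (4, 10, 11), (4, 11, 5), (5, 11, 12),
  (5, 12, 6), (6, 12, 7), (7, 12, 13), (7, 13, 8), (8, 13, 9), (9, 13, 14), (9, 14, 10),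
  (10, 14, 11), (11, 14, 12), (12, 14, 13)]

/-- A competing triangulation with 16 vertices. -/
def t16x0 : List Tri :=
  [(0, 1, 2), (0, 2, 3), (0, 3, 4), (0, 4, 5), (0, 5, 1), (1, 5, 6), (1, 6, 7), (1, 7, 2),
  (2, 7, 8), (2, 8, 3), (3, 8, 9), (3, 9, 4), (4, 9, 10), (4, 10, 5), (5, 10, 11), (5, 11, 6),
  (6, 11, 12), (6, 12, 7), (7, 12, 13), (7, 13, 8), (8, 13, 14), (8, 14, 9), (9, 14, 10),
  (10, 14, 15), (10, 15, 11), (11, 15, 12), (12, 15, 13), (13, 15, 14)]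

/-- The competing triangulations. -/
def others : ℕ → List (List Tri)
  | 11 => [t11x0, t11x1]
  | 13 => [t13x0, t13x1, t13x2]
  | 14 => [t14x0]
  | 15 => [t15x0, t15x1, t15x2]
  | 16 => [t16x0]
  | _ => []

/-- The surviving numbers of vertices of degree `3, 4, 5, 6, 7`. -/
def keep : ℕ → List (List ℕ)
  | 9 => [[0, 3, 6, 0, 0]]
  | 10 => [[0, 2, 8, 0, 0]]
  | 11 => [[0, 1, 10, 0, 0], [0, 2, 8, 1, 0], [0, 3, 6, 2, 0], [0, 3, 7, 0, 1], [1, 0, 9, 1, 0]]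
  | 13 => [[0, 0, 12, 1, 0], [0, 1, 10, 2, 0], [0, 1, 11, 0, 1], [0, 2, 8, 3, 0]]
  | 14 => [[0, 0, 12, 2, 0], [0, 1, 10, 3, 0]]
  | 15 => [[0, 0, 12, 3, 0], [0, 0, 13, 1, 1], [0, 1, 10, 4, 0]]
  | 16 => [[0, 0, 12, 4, 0]]
  | _ => []

/-- Multipliers of the angles for the degree classes `3, 4, 5, 6, 7+` (unit `10 ^ (-5)`). -/
def lamU : ℕ → List ℤ
  | 9 => [13421, 23675, 37335, 44350, 40322]
  | 10 => [30090, 34735, 46351, 54094, 54625]
  | 11 => [36028, 43924, 52590, 59528, 59283]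
  | 13 => [60472, 65434, 67780, 76275, 77299]
  | 14 => [75595, 75948, 75958, 82917, 88952]
  | 15 => [77292, 79291, 81318, 87395, 89929]
  | 16 => [80524, 85322, 87494, 92430, 94722]
  | _ => []

/-- Constants per corner for the degree classes (unit `10 ^ (-5)`). -/
def kU : ℕ → List ℤ
  | 9 => [18159, -1005, -20008, -28401, -23691]
  | 10 => [-7303, -16004, -32382, -41243, -41795]
  | 11 => [-14077, -28521, -40408, -48400, -47662]
  | 13 => [-47493, -56564, -59749, -69569, -70614]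
  | 14 => [-69138, -69892, -69913, -77853, -83813]
  | 15 => [-70022, -73755, -76441, -83321, -85782]
  | 16 => [-69487, -81033, -83936, -89494, -91715]
  | _ => []

/-- All flags: each face with its three rotations. -/
def rots (T : List Tri) : List Tri :=
  T.flatMap fun f => [f, (f.2.1, f.2.2, f.1), (f.2.2, f.1, f.2.1)]

/-- The angle at `a` of the spherical triangle `a b c`. -/
noncomputable def ang (a b c : V) : ℝ := Complex.arg ⟨ip b c - ip a b * ip c a, det3 a b c⟩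

/-- The sum of the determinants of the faces. -/
def FF (T : List Tri) (p : ℕ → V) : ℝ := (T.map fun f => det3 (p f.1) (p f.2.1) (p f.2.2)).sum

/-- The gradient of `FF` at a vertex. -/
def NN (T : List Tri) (p : ℕ → V) (v : ℕ) : V :=
  ((rots T).map fun f => if f.1 = v then crs (p f.2.1) (p f.2.2) else 0).sum

/-- The first `K` points are unit vectors. -/
def Un (K : ℕ) (p : ℕ → V) : Prop := ∀ v < K, ip (p v) (p v) = 1

/-- The first `K` points are close to given points. -/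
def Near (K : ℕ) (t : ℕ → V) (r : ℝ) (p : ℕ → V) : Prop := ∀ v < K, nv (p v - t v) ≤ r

/-- Critical point of `FF` on the product of spheres. -/
def Crit (K : ℕ) (T : List Tri) (p : ℕ → V) : Prop := ∀ v < K, crs (p v) (NN T p v) = 0

/-- The faces have three distinct vertices below `K`. -/
def Wf (K : ℕ) (T : List Tri) : Prop :=
  ∀ f ∈ T, f.1 < K ∧ f.2.1 < K ∧ f.2.2 < K ∧ f.1 ≠ f.2.1 ∧ f.2.1 ≠ f.2.2 ∧ f.2.2 ≠ f.1

/-- The volume of the hull of `K` points. -/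
noncomputable def hvol {K : ℕ} (p : Fin K → V) : ℝ := (volume (convexHull ℝ (range p))).toReal

/-- A geometric realisation of the triangulation `T`. -/
structure Conf (K : ℕ) (T : List Tri) (p : ℕ → V) (vol : ℝ) : Prop where
  unit : Un K p
  pos : ∀ f ∈ T, 0 < det3 (p f.1) (p f.2.1) (p f.2.2)
  angs : ∀ l : ℕ → ℝ, ((rots T).map fun f => l f.1 * ang (p f.1) (p f.2.1) (p f.2.2)).sum =
    2 * π * ∑ v ∈ Finset.range K, l v
  vol_eq : FF T p = 6 * vol

/-- The right side of a face inequality. -/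
noncomputable def rhs (m l1 l2 l3 u1 u2 u3 : ℝ) (a b c : V) : ℝ :=
  m + l1 * ang a b c + l2 * ang b c a + l3 * ang c a b + u1 * ip b c + u2 * ip c a + u3 * ip a b

/-- A face inequality for all positively oriented spherical triangles. -/
def FaceLe (m l1 l2 l3 u1 u2 u3 : ℝ) : Prop := ∀ a b c : V, ip a a = 1 → ip b b = 1 →
  ip c c = 1 → 0 < det3 a b c → det3 a b c ≤ rhs m l1 l2 l3 u1 u2 u3 a b c

/-- The real multiplier of a degree class. -/
noncomputable def lamR (K d : ℕ) : ℝ := ((lamU K).getD (min d 7 - 3) 0 : ℤ) / 10 ^ 5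

/-- The real constant of a degree class. -/
noncomputable def kR (K d : ℕ) : ℝ := ((kU K).getD (min d 7 - 3) 0 : ℤ) / 10 ^ 5

/-- The comparison form of second order. -/
noncomputable def form (K : ℕ) (T : List Tri) (t : ℕ → V) (r M : ℝ) (x : ℕ → V) : ℝ :=
  ((rots T).map fun f => (det3 (t f.1) (t f.2.1) (t f.2.2) / 2 - 33 / 10 * r) * ip (x f.1) (x f.1)
    - det3 (t f.1) (x f.2.1) (x f.2.2)).sum +
  ∑ v ∈ Finset.range K, (M * ip (t v) (x v) ^ 2 - 5 * M * r ^ 2 * ip (x v) (x v))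

/-- Row UNI: the face inequalities of the degree stage. -/
def UniS : Prop := ∀ K ∈ Ks, ∀ a b c : ℕ, 3 ≤ a → a ≤ b → b ≤ c → c ≤ 7 →
  FaceLe (kR K a + kR K b + kR K c) (lamR K a) (lamR K b) (lamR K c) 0 0 0

/-- Row DEG (from `UniS`): the degrees of a mesh of large volume. -/
def DegS : Prop := ∀ K ∈ Ks, ∀ (Φ : Type) [Fintype Φ] (M : Mesh (Fin K) Φ), low K ≤ M.vol →
  (∀ v, 3 ≤ M.deg v ∧ M.deg v ≤ 7) ∧
  ([3, 4, 5, 6, 7].map fun d => (Finset.univ.filter fun v => M.deg v = d).card) ∈ keep K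

/-- Row TYPE (from `DegS`): a configuration of large volume realises a listed triangulation, up to
the antipodal map. -/
def TypeS : Prop := ∀ K ∈ Ks, ∀ p : Fin K → V, Function.Injective p → (∀ i, ip (p i) (p i) = 1) →
  0 ∈ interior (convexHull ℝ (range ((toLp 2 : V → E3) ∘ p))) → low K ≤ hvol p →
    ∃ T ∈ fac K :: others K, ∃ (P : ℕ → V) (s : ℝ), Conf K T P (hvol p) ∧ s ^ 2 = 1 ∧
    range p = range fun v : Fin K => s • P v

/-- Row BOOK: the sum of the right sides over all faces. -/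
def BookS : Prop := ∀ (K : ℕ) (T : List Tri) (p : ℕ → V) (vol : ℝ) (m : Tri → ℝ) (l : ℕ → ℝ)
  (u : ℕ → ℕ → ℝ), Conf K T p vol → (∀ a b, u a b = -u b a) →
  ((rots T).map fun f => (f.1, f.2.1)).Perm ((rots T).map fun f => (f.2.1, f.1)) →
  (T.map fun f => rhs (m f) (l f.1) (l f.2.1) (l f.2.2) (u f.2.1 f.2.2) (u f.2.2 f.1) (u f.1 f.2.1)
    (p f.1) (p f.2.1) (p f.2.2)).sum = (T.map m).sum + 2 * π * ∑ v ∈ Finset.range K, l v

/-- Row KILL: the competing triangulations have small volume. -/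
def KillS : Prop := ∀ K ∈ Ks, ∀ T ∈ others K, ∀ (p : ℕ → V) (vol : ℝ), Conf K T p vol →
  vol < low K

/-- Row LOC: the edges of a realisation of the extremal triangulation with large volume. -/
def LocS : Prop := ∀ K ∈ Ks, ∀ (p : ℕ → V) (vol : ℝ), Conf K (fac K) p vol → low K ≤ vol →
  vol ≤ ((data K).2.2 + 1 : ℝ) / 10 ^ 7 ∧ ∀ f ∈ rots (fac K),
    |ip (p f.1) (p f.2.1) - ip (cen K f.1) (cen K f.2.1)| ≤ 1 / 100000

/-- Row GAUGE: coordinates adapted to the first two points. -/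
def GaugeS : Prop := ∀ P : ℕ → V, ip (P 0) (P 0) = 1 → ip (P 1) (P 1) = 1 →
  ip (P 0) (P 1) ^ 2 < 1 → ∃ (e f g : V) (p : ℕ → V), ip e e = 1 ∧ ip f f = 1 ∧ ip g g = 1 ∧
    ip e f = 0 ∧ ip f g = 0 ∧ ip e g = 0 ∧ (∀ v, P v = p v 0 • e + p v 1 • f + p v 2 • g) ∧
    (∀ a b, ip (p a) (p b) = ip (P a) (P b)) ∧
    (∀ a b c, det3 (p a) (p b) (p c) = det3 (P a) (P b) (P c)) ∧
    p 0 0 = 0 ∧ p 0 1 = 0 ∧ p 0 2 = 1 ∧ p 1 1 = 0 ∧ 0 < p 1 0

/-- Row DEV: the development from the edges. -/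
def DevS : Prop := ∀ K ∈ Ks, ∀ p : ℕ → V, Un K p →
  (∀ f ∈ fac K, 0 < det3 (p f.1) (p f.2.1) (p f.2.2)) →
  (∀ f ∈ rots (fac K), |ip (p f.1) (p f.2.1) - ip (cen K f.1) (cen K f.2.1)| ≤ 1 / 100000) →
  p 0 0 = 0 → p 0 1 = 0 → p 0 2 = 1 → p 1 1 = 0 → 0 < p 1 0 → Near K (cen K) (1 / 500) p

/-- Row HESSA: a critical point is a strict maximum where the comparison form is nonnegative. -/
def HessAS : Prop := ∀ (K : ℕ) (T : List Tri) (t p q : ℕ → V) (r M : ℝ), Wf K T → 0 ≤ r →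
  r ≤ 1 / 100 → 0 ≤ M → Un K p → Un K q → Near K t r p → Near K t r q → Crit K T q →
  0 ≤ form K T t r M (p - q) →
  FF T p + M * r ^ 2 * ∑ v ∈ Finset.range K, ip (p v - q v) (p v - q v) ≤ FF T q

/-- Row HESSB: the comparison form is nonnegative in the gauge. -/
def HessBS : Prop := ∀ K ∈ Ks, ∀ x : ℕ → V, x 0 = 0 → x 1 1 = 0 →
  0 ≤ form K (fac K) (cen K) (1 / 500) 10 x

/-- Row LOW: configurations in the larger box are inscribed polytopes of volume at least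
`FF / 6`. -/
def LowS : Prop := ∀ K ∈ Ks, ∀ u : ℕ → V, Un K u → Near K (cen K) (1 / 100) u →
  Function.Injective (fun v : Fin K => u v) ∧
  0 ∈ interior (convexHull ℝ (range ((toLp 2 : V → E3) ∘ fun v : Fin K => u v))) ∧
  ENNReal.ofReal (FF (fac K) u / 6) ≤ volume (convexHull ℝ (range fun v : Fin K => u v))

/-- Row CRIT: a local maximum is a critical point. -/
def CritS : Prop := ∀ (K : ℕ) (T : List Tri) (q : ℕ → V) (ε : ℝ), Wf K T → 0 < ε → Un K q →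
  (∀ u, Un K u → Near K q ε u → FF T u ≤ FF T q) → Crit K T q

/-- Row VLOW: a configuration of large volume in the box. -/
def VlowS : Prop := ∀ K ∈ Ks, ∃ u : ℕ → V, Un K u ∧ Near K (cen K) (1 / 500) u ∧
  u 0 0 = 0 ∧ u 0 1 = 0 ∧ u 1 1 = 0 ∧ 6 * low K ≤ FF (fac K) u

/-- The family theorem. -/
def MainS : Prop := ∀ K ∈ Ks, ∃ q : ℕ → E3, Solves K q ∧
  (∀ q', Solves K q' → ∀ v < K, q' v = q v) ∧
  (∀ P, IsMaxVol K P ↔ ∃ φ : E3 ≃ₗᵢ[ℝ] E3, P = φ '' convexHull ℝ (q '' Iio K)) ∧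
  ENNReal.ofReal ((data K).2.2 / 10 ^ 7) ≤ volume (convexHull ℝ (q '' Iio K)) ∧
  volume (convexHull ℝ (q '' Iio K)) ≤ ENNReal.ofReal (((data K).2.2 + 1) / 10 ^ 7)

theorem wf_fac : ∀ K ∈ Ks, Wf K (fac K) := by unfold Wf; decide +kernel

theorem cen_eq (K v : ℕ) : cen K v = ![(((data K).1.getD v 0).1 : ℝ) / 10 ^ 7,
    (((data K).1.getD v 0).2.1 : ℝ) / 10 ^ 7, (((data K).1.getD v 0).2.2 : ℝ) / 10 ^ 7] := rfl

theorem theta_eq {ι Φ : Type} [Fintype ι] [Fintype Φ] (M : Mesh ι Φ) (d : Φ) :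
    M.θ d = ang (M.A d) (M.B d) (M.C d) := rfl

theorem sum_rots (T : List Tri) (g : Tri → ℝ) : ((rots T).map g).sum =
    (T.map fun f => g f + g (f.2.1, f.2.2, f.1) + g (f.2.2, f.1, f.2.1)).sum := by
  induction T with
  | nil => rfl
  | cons f T ih =>
    simp only [rots, List.flatMap_cons, List.map_append, List.sum_append, List.map_cons,
      List.sum_cons, List.map_nil, List.sum_nil] at ih ⊢
    rw [ih]; ring

theorem mem_rots {T : List Tri} {g : Tri} : g ∈ rots T ↔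
    ∃ f ∈ T, g = f ∨ g = (f.2.1, f.2.2, f.1) ∨ g = (f.2.2, f.1, f.2.1) := by
  simp [rots]

theorem FaceLe.rot {m l1 l2 l3 u1 u2 u3 : ℝ} (h : FaceLe m l1 l2 l3 u1 u2 u3) :
    FaceLe m l2 l3 l1 u2 u3 u1 := fun a b c ha hb hc hd => by
  have := h c a b hc ha hb (by rwa [det3_rot c a b] at hd)
  rw [← det3_rot c a b] at this
  unfold rhs at *
  linarith

theorem ang_neg (a b c : V) : ang (-a) (-c) (-b) = ang a b c := by
  rw [ang, ang, ip_neg, ip_neg, ip_neg, det3_neg, ip_comm c b, ip_comm a c, ip_comm b a, mul_comm]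

theorem FaceLe.swap {m l1 l2 l3 u1 u2 u3 : ℝ} (h : FaceLe m l1 l2 l3 u1 u2 u3) :
    FaceLe m l1 l3 l2 u1 u3 u2 := fun a b c ha hb hc hd => by
  have := h (-a) (-c) (-b) (by rwa [ip_neg]) (by rwa [ip_neg]) (by rwa [ip_neg])
    (by rwa [det3_neg])
  unfold rhs at *
  rw [det3_neg, ang_neg, ang_neg, ang_neg, ip_neg, ip_neg, ip_neg, ip_comm c b, ip_comm b a,
    ip_comm a c] at this
  linarith

end Pool.Agent.MP_2ab689_gt.Fam
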