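import Pool.Agent.MP_2ab689_gt.Fam.Chk

/-!
Enclosures of the cotangent at fixed point arguments.
-/

namespace Pool.Agent.MP_2ab689_gt.Fam

open Real Big

namespace Enc

theorem sum_split (x : ℝ) (n : ℕ) :
    ∑ m ∈ Finset.range (2 * n), ((x : ℂ) * Complex.I) ^ m / (m.factorial : ℂ) =
      ((∑ j ∈ Finset.range n, (-1) ^ j * x ^ (2 * j) / ((2 * j).factorial : ℝ) : ℝ) : ℂ) +
      ((∑ j ∈ Finset.range n, (-1) ^ j * x ^ (2 * j + 1) / ((2 * j + 1).factorial : ℝ) : ℝ) : ℂ) *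
        Complex.I := by
  induction n with
  | zero => simp
  | succ n ih =>
    rw [show 2 * (n + 1) = 2 * n + 1 + 1 from rfl, Finset.sum_range_succ, Finset.sum_range_succ, ih,
      Finset.sum_range_succ, Finset.sum_range_succ]
    have hI : Complex.I ^ (2 * n) = (-1) ^ n := by rw [pow_mul, Complex.I_sq]
    push_cast
    rw [mul_pow, mul_pow, pow_succ Complex.I, hI]
    ring

theorem taylor (x : ℝ) (h0 : 0 ≤ x) (h3 : x ≤ 3) :
    |cos x - ∑ j ∈ Finset.range 12, (-1) ^ j * x ^ (2 * j) / ((2 * j).factorial : ℝ)| ≤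
      x ^ 24 / (Nat.factorial 24 : ℝ) * 2 ∧
    |sin x - ∑ j ∈ Finset.range 12, (-1) ^ j * x ^ (2 * j + 1) / ((2 * j + 1).factorial : ℝ)| ≤
      x ^ 24 / (Nat.factorial 24 : ℝ) * 2 := by
  have hn : ‖(x : ℂ) * Complex.I‖ = x := by simp [abs_of_nonneg h0]
  have hb := Complex.exp_bound' (x := (x : ℂ) * Complex.I) (n := 24)
    (by rw [hn]; push_cast; linarith)
  rw [hn, show Finset.range 24 = Finset.range (2 * 12) from rfl, sum_split] at hb
  constructor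
  · have := (Complex.abs_re_le_norm _).trans hb
    simpa only [Complex.sub_re, Complex.exp_ofReal_mul_I_re, Complex.add_re, Complex.ofReal_re,
      Complex.mul_re, Complex.I_re, Complex.ofReal_im, Complex.I_im, mul_zero, zero_mul, mul_one,
      sub_zero, add_zero] using this
  · have := (Complex.abs_im_le_norm _).trans hb
    simpa only [Complex.sub_im, Complex.exp_ofReal_mul_I_im, Complex.add_im, Complex.ofReal_re,
      Complex.mul_im, Complex.I_re, Complex.ofReal_im, Complex.I_im, mul_zero, zero_mul, mul_one,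
      zero_add, add_zero] using this

theorem shl (a j : ℕ) : Nat.shiftLeft a (56 * j) = a * U ^ j := by
  have h : U = 2 ^ 56 := by unfold U; norm_num
  rw [h, ← pow_mul]
  exact Nat.shiftLeft_eq _ _

theorem shl_cast (a j n : ℕ) (h : n = 56 * j) :
    ((Nat.shiftLeft a n : ℕ) : ℝ) = a * (U : ℝ) ^ j := by
  rw [h, shl]; push_cast; rfl

theorem hp_cast (v a5 a4 a3 a2 a1 a0 : ℕ) : ((hp v a5 a4 a3 a2 a1 a0 : ℕ) : ℝ) =
    a5 * (v : ℝ) ^ 5 + a4 * (v : ℝ) ^ 4 * (U : ℝ) ^ 4 + a3 * (v : ℝ) ^ 3 * (U : ℝ) ^ 8 +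
      a2 * (v : ℝ) ^ 2 * (U : ℝ) ^ 12 + a1 * v * (U : ℝ) ^ 16 + a0 * (U : ℝ) ^ 20 := by
  unfold hp
  simp only [Nat.add_eq, Nat.mul_eq, Nat.cast_add, Nat.cast_mul]
  rw [shl_cast a4 4 224 rfl, shl_cast a3 8 448 rfl, shl_cast a2 12 672 rfl, shl_cast a1 16 896 rfl,
    shl_cast a0 20 1120 rfl]
  ring

theorem scale {c t e D P E : ℝ} (hD : 0 < D) (h : |c - t| ≤ e) (h1 : t * D = P) (h2 : e * D = E) :
    |c * D - P| ≤ E := by
  rw [← h1, ← h2, ← sub_mul, abs_mul, abs_of_pos hD]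
  exact mul_le_mul_of_nonneg_right h hD.le

theorem idE (B : ℕ) : ((B : ℝ) / U) ^ 24 / (Nat.factorial 24 : ℝ) * 2 *
    (620448401733239439360000 * (U : ℝ) ^ 24) =
    ((Nat.mul 2 (Nat.pow (Nat.mul (Nat.mul B B) (Nat.mul B B)) 6) : ℕ) : ℝ) := by
  have hU := U_pos
  simp only [Nat.mul_eq, Nat.pow_eq, Nat.factorial]
  push_cast
  field_simp

theorem idC (B : ℕ) :
    (∑ j ∈ Finset.range 12, (-1) ^ j * ((B : ℝ) / U) ^ (2 * j) / ((2 * j).factorial : ℝ)) *
      (620448401733239439360000 * (U : ℝ) ^ 24) =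
    ((hp (Nat.mul (Nat.mul B B) (Nat.mul B B)) 255024 29654190720 1295295050649600
      15388105201717248000 25852016738884976640000 620448401733239439360000 : ℕ) : ℝ) *
        (U : ℝ) ^ 4 -
    ((Nat.mul (hp (Nat.mul (Nat.mul B B) (Nat.mul B B)) 552 96909120 7117005772800
      170978946685747200 861733891296165888000 310224200866619719680000) (Nat.mul B B) : ℕ) : ℝ) *
        (U : ℝ) ^ 2 := by
  have hU := U_pos
  simp only [Nat.mul_eq, Nat.cast_mul, hp_cast, Finset.sum_range_succ, Finset.range_zero,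
    Finset.sum_empty, Nat.factorial]
  push_cast
  field_simp
  ring

theorem idS (B : ℕ) :
    (∑ j ∈ Finset.range 12, (-1) ^ j * ((B : ℝ) / U) ^ (2 * j + 1) /
      ((2 * j + 1).factorial : ℝ)) * (620448401733239439360000 * (U : ℝ) ^ 24) =
    ((Nat.mul (hp (Nat.mul (Nat.mul B B) (Nat.mul B B)) 12144 1744364160 99638080819200
      1709789466857472000 5170403347776995328000 620448401733239439360000) B : ℕ) : ℝ) *
        (U : ℝ) ^ 3 -
    ((Nat.mul (hp (Nat.mul (Nat.mul B B) (Nat.mul B B)) 24 5100480 474467051520 15543540607795200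
      123104841613737984000 103408066955539906560000) (Nat.mul (Nat.mul B B) B) : ℕ) : ℝ) *
        (U : ℝ) ^ 1 := by
  have hU := U_pos
  simp only [Nat.mul_eq, Nat.cast_mul, hp_cast, Finset.sum_range_succ, Finset.range_zero,
    Finset.sum_empty, Nat.factorial]
  push_cast
  field_simp
  ring

theorem cast_sub' {a b e : ℕ} (h : e < Nat.sub a b) : ((Nat.sub a b : ℕ) : ℝ) = a - b :=
  Nat.cast_sub (Nat.lt_of_sub_pos (Nat.lt_of_le_of_lt (Nat.zero_le _) h)).le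

theorem tay (B : ℕ) (h : B ≤ 3 * U) :
    (0 : ℝ) ≤ B / U ∧ (B : ℝ) / U ≤ 3 ∧ (0 : ℝ) < 620448401733239439360000 * (U : ℝ) ^ 24 := by
  have hU := U_pos
  refine ⟨by positivity, ?_, by positivity⟩
  rw [div_le_iff₀ hU]; exact_mod_cast h

theorem trig_ok {B : ℕ} {k : ℕ → ℕ → ℕ → ℕ → Bool} (h : trig B k = true) :
    ∃ P0 P2 S E : ℕ, k P0 P2 S E = true ∧ E < S ∧ B ≤ 3 * U ∧ ∃ D : ℝ, 0 < D ∧
      |cos (B / U) * D - (P0 - P2)| ≤ E ∧ |sin (B / U) * D - S| ≤ E := by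
  unfold trig at h
  simp only [force_eq, Bool.and_eq_true, Nat.blt_eq, Nat.ble_eq] at h
  obtain ⟨h1, h2, h3⟩ := h
  obtain ⟨h0, hx, hD⟩ := tay B h2
  obtain ⟨hc, hs⟩ := taylor (B / U) h0 hx
  refine ⟨_, _, _, _, h3, h1, h2, _, hD, scale hD hc ?_ (idE B), scale hD hs ?_ (idE B)⟩
  · rw [shl_cast _ 4 224 rfl, shl_cast _ 2 112 rfl]
    exact idC B
  · rw [cast_sub' h1, shl_cast _ 3 168 rfl, shl_cast _ 1 56 rfl]
    exact idS B

theorem up (n d : ℕ) (c s : ℝ) (hd : 0 < d) (hc : c ≤ n) (hs : (d : ℝ) ≤ s) :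
    c / s ≤ ((Nat.succ (Nat.div (Nat.mul n U) d) : ℕ) : ℝ) / U := by
  have hU := U_pos
  have hd' : (0 : ℝ) < d := by exact_mod_cast hd
  have h1 : n * U < (n * U / d + 1) * d := by
    have := Nat.lt_mul_div_succ (n * U) hd
    rwa [mul_comm d] at this
  have h2 : (n : ℝ) * U ≤ ((n * U / d + 1 : ℕ) : ℝ) * d := by exact_mod_cast h1.le
  have h3 : c / s ≤ n / d :=
    (div_le_div_of_nonneg_right hc (hd'.le.trans hs)).trans
      (div_le_div_of_nonneg_left (Nat.cast_nonneg n) hd' hs)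
  refine h3.trans ?_
  rw [div_le_div_iff₀ hd' hU]
  exact h2

theorem low (n d : ℕ) (c s : ℝ) (h0 : 0 < s) (hc : (n : ℝ) ≤ c) (hs : s ≤ d) :
    ((Nat.div (Nat.mul n U) d : ℕ) : ℝ) / U ≤ c / s := by
  have hU := U_pos
  have hd' : (0 : ℝ) < d := h0.trans_le hs
  have h2 : ((n * U / d : ℕ) : ℝ) * d ≤ (n : ℝ) * U := by
    exact_mod_cast Nat.div_mul_le_self (n * U) d
  have h3 : (n : ℝ) / d ≤ c / s :=
    (div_le_div_of_nonneg_left (Nat.cast_nonneg n) h0 hs).trans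
      (div_le_div_of_nonneg_right hc h0.le)
  refine le_trans ?_ h3
  rw [div_le_div_iff₀ hU hd']
  exact h2

theorem sub_ge (a b : ℕ) : (a : ℝ) - b ≤ ((Nat.sub a b : ℕ) : ℝ) := by
  have h : a ≤ a - b + b := le_tsub_add
  have h' : (a : ℝ) ≤ ((a - b : ℕ) : ℝ) + b := by exact_mod_cast h
  exact sub_le_iff_le_add.mpr h'

theorem cot_eq (x D : ℝ) (hD : 0 < D) : cot x = cos x * D / (sin x * D) := by
  rw [Real.cot_eq_cos_div_sin, mul_div_mul_right _ _ hD.ne']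

/-- The upper bound used by all three enclosures. -/
theorem up' (P Q S E : ℕ) (c s : ℝ) (hS : E < S) (hc : c ≤ P - Q + E) (hs : (S : ℝ) - E ≤ s) :
    c / s ≤ ((Nat.succ (Nat.div (Nat.mul (Nat.sub (Nat.add P E) Q) U) (Nat.sub S E)) : ℕ) : ℝ) /
      U := by
  refine up _ _ _ _ (Nat.sub_pos_of_lt hS) (le_trans ?_ (sub_ge _ _)) ?_
  · rw [Nat.add_eq, Nat.cast_add]; linarith
  · rw [Nat.sub_eq, Nat.cast_sub hS.le]; exact hs

theorem cub_ok {B : ℕ} {k : ℕ → Bool} (h : cub B k = true) :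
    ∃ e : ℕ, k e = true ∧ cot (B / U) ≤ e / U := by
  obtain ⟨P0, P2, S, E, hk, hS, -, D, hD, hc, hs⟩ := trig_ok h
  rw [force_eq] at hk
  refine ⟨_, hk, ?_⟩
  rw [cot_eq _ D hD]
  exact up' P0 P2 S E _ _ hS (by linarith [(abs_le.mp hc).2]) (by linarith [(abs_le.mp hs).1])

theorem cnb_ok {B : ℕ} {k : ℕ → Bool} (h : cnb B k = true) :
    ∃ e : ℕ, k e = true ∧ B ≤ 3 * U ∧ -cot (B / U) ≤ e / U := by
  obtain ⟨P0, P2, S, E, hk, hS, hB, D, hD, hc, hs⟩ := trig_ok h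
  rw [force_eq] at hk
  refine ⟨_, hk, hB, ?_⟩
  rw [cot_eq _ D hD, ← neg_div]
  exact up' P2 P0 S E _ _ hS (by linarith [(abs_le.mp hc).1]) (by linarith [(abs_le.mp hs).1])

theorem ctb_ok (B : ℕ) (k : ℕ → ℕ → Bool) (h : ctb B k = true) (hB : B ≤ p1) :
    ∃ cl cu : ℕ, k cl cu = true ∧ 0 < B ∧
      (cl : ℝ) / U ≤ cot (B / U) ∧ cot (B / U) ≤ cu / U := by
  obtain ⟨P0, P2, S, E, hk, hS, -, D, hD, hc, hs⟩ := trig_ok h
  rw [force_eq, force_eq] at hk
  have hU := U_pos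
  have hS' : (E : ℝ) < S := by exact_mod_cast hS
  have hpos : 0 < sin (B / U) * D := by linarith [(abs_le.mp hs).1]
  refine ⟨_, _, hk, ?_, ?_, ?_⟩
  · rcases Nat.eq_zero_or_pos B with rfl | h0
    · simp at hpos
    · exact h0
  · rw [cot_eq _ D hD]
    refine low _ _ _ _ hpos ?_ ?_
    · rw [Nat.sub_eq, Nat.add_eq]
      rcases le_total (P2 + E) P0 with h1 | h1
      · rw [Nat.cast_sub h1, Nat.cast_add]; linarith [(abs_le.mp hc).1]
      · rw [Nat.sub_eq_zero_of_le h1, Nat.cast_zero]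
        refine mul_nonneg (cos_nonneg_of_neg_pi_div_two_le_of_le ?_ ?_) hD.le
        · have : (0 : ℝ) ≤ B / U := by positivity
          linarith [pi_pos]
        · rw [div_le_iff₀ hU]
          have : (B : ℝ) ≤ p1 := by exact_mod_cast hB
          linarith [pi_U.2.2.1]
    · rw [Nat.add_eq, Nat.cast_add]; linarith [(abs_le.mp hs).2]
  · rw [cot_eq _ D hD]
    exact up' P0 P2 S E _ _ hS (by linarith [(abs_le.mp hc).2]) (by linarith [(abs_le.mp hs).1])

theorem first {lo : ℕ} {k : ℕ → Bool}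
    (h : cond (Nat.ble p2 lo) (cnb lo) (cond (Nat.blt 0 lo) (cub lo) fun k => k 0) k = true) :
    ∃ e : ℕ, k e = true ∧ (p2 ≤ lo → -cot (lo / U) ≤ e / U) ∧
      (0 < lo → lo ≤ p1 → cot (lo / U) ≤ e / U) := by
  have hp : p1 < p2 := by unfold p1 p2; norm_num
  cases h1 : Nat.ble p2 lo
  · have h1' : ¬p2 ≤ lo := fun e => by simp [Nat.ble_eq_true_of_le e] at h1
    rw [h1, cond_false] at h
    cases h2 : Nat.blt 0 lo
    · have h2' : ¬0 < lo := fun e => by simp [Nat.blt_eq.mpr e] at h2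
      rw [h2, cond_false] at h
      exact ⟨0, h, fun e => absurd e h1', fun e => absurd e h2'⟩
    · rw [h2, cond_true] at h
      obtain ⟨e, hk, he⟩ := cub_ok h
      exact ⟨e, hk, fun e => absurd e h1', fun _ _ => he⟩
  · have h1' : p2 ≤ lo := Nat.le_of_ble_eq_true h1
    rw [h1, cond_true] at h
    obtain ⟨e, hk, -, he⟩ := cnb_ok h
    exact ⟨e, hk, fun _ => he, fun _ e => by omega⟩

theorem prep_ok (lo hi : ℕ) (k : ℕ → ℕ → Bool) (h : prep lo hi k = true) :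
    ∃ e f, k e f = true ∧ Prep lo hi e f := by
  obtain ⟨e, hk, h1, h2⟩ := first h
  cases h3 : Nat.ble hi p1
  · rw [h3, cond_false] at hk
    obtain ⟨f, hk', hB, hf⟩ := cnb_ok hk
    exact ⟨e, f, hk', h1, h2, fun _ => ⟨hB, hf⟩⟩
  · rw [h3, cond_true] at hk
    have h3' : hi ≤ p1 := Nat.le_of_ble_eq_true h3
    exact ⟨e, 0, hk, h1, h2, fun c => by omega⟩

end Enc

theorem enc : EncS := ⟨Enc.ctb_ok, Enc.prep_ok⟩

end Pool.Agent.MP_2ab689_gt.Fam
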