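import Pool.Agent.MP_2ab689_gt.Fam.Spec

/-!
Assembly of the family theorem from its parts.
-/

namespace Pool.Agent.MP_2ab689_gt.Fam

open Real Big MeasureTheory Set WithLp

namespace Final

theorem max_iff {K : ℕ} (q : Fin K → V) {v : ℝ} (hu : ∀ i, ip (q i) (q i) = 1)
    (hi : Function.Injective q) (h0 : 0 ∈ interior (convexHull ℝ (range ((toLp 2 : V → E3) ∘ q))))
    (hv : 0 ≤ v) (hlow : ENNReal.ofReal v ≤ volume (convexHull ℝ (range q)))
    (hup : ∀ p : Fin K → V, Function.Injective p → (∀ i, ip (p i) (p i) = 1) →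
      0 ∈ interior (convexHull ℝ (range ((toLp 2 : V → E3) ∘ p))) → hvol p ≤ v ∧
      (v ≤ hvol p → ∃ e f g : V, ip e e = 1 ∧ ip f f = 1 ∧
        ip g g = 1 ∧ ip e f = 0 ∧ ip f g = 0 ∧ ip e g = 0 ∧
        range p = range fun i => q i 0 • e + q i 1 • f + q i 2 • g)) :
    (∀ P, IsMaxVol K P ↔
      ∃ φ : E3 ≃ₗᵢ[ℝ] E3, P = φ '' convexHull ℝ (range ((toLp 2 : V → E3) ∘ q))) ∧
    volume (convexHull ℝ (range ((toLp 2 : V → E3) ∘ q))) = ENNReal.ofReal v := by
  have fin : ∀ p : Fin K → V, volume (convexHull ℝ (range p)) ≠ ⊤ := fun p =>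
    ((finite_range p).isCompact_convexHull ℝ).measure_lt_top.ne
  have up : ∀ P, Inscribed K P → volume P ≤ ENNReal.ofReal v := by
    intro P hP
    obtain ⟨p, h1, h2, rfl⟩ := hP.exists_fam
    rw [vol_toLp]
    exact (ENNReal.le_ofReal_iff_toReal_le (fin p) hv).mpr (hup p h1 h2 hP.2.1).1
  have hn : ∀ i, ‖((toLp 2 : V → E3) ∘ q) i‖ = 1 := fun i => (norm_eq_one_iff _).mpr (hu i)
  have hi' : Function.Injective ((toLp 2 : V → E3) ∘ q) := (toLp_injective 2).comp hi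
  have hQ := inscribed_hull hi' hn h0
  have hvol : volume (convexHull ℝ (range ((toLp 2 : V → E3) ∘ q))) = ENNReal.ofReal v :=
    (up _ hQ).antisymm (by rwa [vol_toLp])
  have img : ∀ φ : E3 ≃ₗᵢ[ℝ] E3, φ '' convexHull ℝ (range ((toLp 2 : V → E3) ∘ q)) =
      convexHull ℝ (range (φ ∘ (toLp 2 : V → E3) ∘ q)) := by
    intro φ
    rw [range_comp φ]
    exact LinearMap.image_convexHull φ.toLinearEquiv.toLinearMap _
  refine ⟨fun P => ⟨fun ⟨hP, hm⟩ => ?_, ?_⟩, hvol⟩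
  · obtain ⟨p, h1, h2, rfl⟩ := hP.exists_fam
    have h3 := hm _ hQ
    rw [hvol, vol_toLp] at h3
    obtain ⟨e, f, g, a1, a2, a3, a4, a5, a6, a7⟩ :=
      (hup p h1 h2 hP.2.1).2 ((ENNReal.ofReal_le_iff_le_toReal (fin p)).mp h3)
    obtain ⟨φ, hφ⟩ := iso_of_frame a1 a2 a3 a4 a5 a6
    refine ⟨φ, ?_⟩
    rw [img, range_comp, a7, ← range_comp]
    congr 2
    funext i
    exact (hφ (q i)).symm
  · rintro ⟨φ, rfl⟩
    refine ⟨?_, fun P' hP' => (up P' hP').trans_eq ?_⟩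
    · have h1 : 0 ∈ interior (φ '' convexHull ℝ (range ((toLp 2 : V → E3) ∘ q))) := by
        have := φ.toHomeomorph.image_interior (convexHull ℝ (range ((toLp 2 : V → E3) ∘ q)))
        rw [LinearIsometryEquiv.coe_toHomeomorph] at this
        rw [← this]
        exact ⟨0, h0, map_zero φ⟩
      rw [img] at h1 ⊢
      exact inscribed_hull (φ.injective.comp hi') (fun i => (φ.norm_map _).trans (hn i)) h1
    · rw [← hvol]
      have := φ.symm.measurePreserving.measure_preimage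
        (s := convexHull ℝ (range ((toLp 2 : V → E3) ∘ q)))
        ((finite_range _).isClosed_convexHull ℝ).measurableSet.nullMeasurableSet
      rw [← this]
      congr 1
      exact (φ.toEquiv.image_eq_preimage_symm _).symm

/-- Unit vectors in the box and in the gauge. -/
def InB (K : ℕ) (p : ℕ → V) : Prop :=
  Un K p ∧ Near K (cen K) (1 / 500) p ∧ p 0 0 = 0 ∧ p 0 1 = 0 ∧ p 1 1 = 0

theorem facts : ∀ K ∈ Ks, 2 ≤ K ∧ (0, 1, 2) ∈ fac K ∧ (data K).1.getD 0 0 = (0, 0, 10000000) ∧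
    (data K).2.2 * 10 ^ 6 ≤ lowN K := by decide +kernel

theorem InB.zero {K : ℕ} (hK : K ∈ Ks) {p : ℕ → V} (h : InB K p) : p 0 = ![0, 0, 1] := by
  obtain ⟨k2, -, k0, -⟩ := facts K hK
  obtain ⟨h1, h2, h3, h4, -⟩ := h
  have a1 := h1 0 (by omega)
  have a2 := (nv_le_iff (by norm_num)).mp (h2 0 (by omega))
  rw [cen_eq, k0] at a2
  simp only [ip, h3, h4, Pi.sub_apply, Matrix.cons_val_zero, Matrix.cons_val_one,
    Matrix.cons_val_two, Matrix.head_cons, Matrix.tail_cons] at a1 a2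
  norm_num at a1 a2
  have a3 : p 0 2 = 1 := by
    rcases mul_self_eq_one_iff.mp a1 with e | e
    · exact e
    · rw [e] at a2; norm_num at a2
  funext i
  fin_cases i
  · exact h3
  · exact h4
  · exact a3

theorem FF_congr {K : ℕ} {T : List Tri} (hT : Wf K T) {p q : ℕ → V} (h : ∀ v < K, p v = q v) :
    FF T p = FF T q := by
  unfold FF
  refine congrArg _ (List.map_congr_left fun f hf => ?_)
  obtain ⟨a, b, c, -⟩ := hT f hf
  rw [h _ a, h _ b, h _ c]

theorem exists_max {K : ℕ} (hK : K ∈ Ks) (h : ∃ u, InB K u) :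
    ∃ q, InB K q ∧ ∀ u, InB K u → FF (fac K) u ≤ FF (fac K) q := by
  obtain ⟨k2, -⟩ := facts K hK
  have cl : IsClosed {p | InB K p} := by
    simp only [InB, Un, Near, ofPred_and, ofPred_forall]
    refine (isClosed_iInter fun v => isClosed_iInter fun _ => isClosed_eq ?_ continuous_const).inter
      ((isClosed_iInter fun v => isClosed_iInter fun _ => isClosed_le ?_ continuous_const).inter
      ((isClosed_eq ?_ continuous_const).inter ((isClosed_eq ?_ continuous_const).inter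
      (isClosed_eq ?_ continuous_const))))
    · unfold ip; fun_prop
    · unfold nv; fun_prop
    all_goals fun_prop
  have cp : IsCompact (Set.pi univ (fun _ : ℕ => Metric.closedBall (0 : V) 1) ∩ {p | InB K p}) :=
    (isCompact_univ_pi fun _ => isCompact_closedBall 0 1).inter_right cl
  have tr : ∀ u, InB K u → (fun v => if v < K then u v else 0) ∈
      Set.pi univ (fun _ : ℕ => Metric.closedBall (0 : V) 1) ∩ {p | InB K p} := by
    rintro u ⟨h1, h2, h3, h4, h5⟩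
    refine ⟨fun v _ => ?_, fun v hv => ?_, fun v hv => ?_, ?_, ?_, ?_⟩
    · by_cases hv : v < K
      · simp only [if_pos hv, mem_closedBall_zero_iff]
        refine (pi_norm_le_iff_of_nonneg one_pos.le).mpr fun i => ?_
        have := h1 v hv
        unfold ip at this
        refine abs_le_one_iff_mul_self_le_one.mpr ?_
        fin_cases i <;> simp only [Fin.zero_eta, Fin.mk_one, Fin.reduceFinMk] <;>
          nlinarith [mul_self_nonneg (u v 0), mul_self_nonneg (u v 1), mul_self_nonneg (u v 2)]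
      · simp [hv]
    · simpa only [if_pos hv] using h1 v hv
    · simpa only [if_pos hv] using h2 v hv
    · simpa only [if_pos (by omega : 0 < K)] using h3
    · simpa only [if_pos (by omega : 0 < K)] using h4
    · simpa only [if_pos (by omega : 1 < K)] using h5
  obtain ⟨u0, h0⟩ := h
  obtain ⟨q, hq, hm⟩ := cp.exists_isMaxOn ⟨_, tr u0 h0⟩ (f := FF (fac K))
    (continuous_list_sum _ fun f _ => by unfold det3; fun_prop).continuousOn
  exact ⟨q, hq.2, fun u hu =>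
    (FF_congr (wf_fac K hK) fun v hv => (if_pos hv).symm).trans_le (hm (tr u hu))⟩

theorem up (h1 : TypeS) (h2 : KillS) (h3 : LocS) (h4 : GaugeS) (h5 : DevS) {K : ℕ} (hK : K ∈ Ks)
    (p : Fin K → V) (hi : Function.Injective p) (hu : ∀ i, ip (p i) (p i) = 1)
    (h0 : 0 ∈ interior (convexHull ℝ (range ((toLp 2 : V → E3) ∘ p)))) (hl : low K ≤ hvol p) :
    hvol p ≤ ((data K).2.2 + 1 : ℝ) / 10 ^ 7 ∧ ∃ u, InB K u ∧ FF (fac K) u = 6 * hvol p ∧
      ∃ e f g : V, ip e e = 1 ∧ ip f f = 1 ∧ ip g g = 1 ∧ ip e f = 0 ∧ ip f g = 0 ∧ ip e g = 0 ∧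
        range p = range fun i : Fin K => u i 0 • e + u i 1 • f + u i 2 • g := by
  obtain ⟨k2, k1, -⟩ := facts K hK
  obtain ⟨T, hT, P, s, hC, hs, hr⟩ := h1 K hK p hi hu h0 hl
  rcases List.mem_cons.mp hT with rfl | hT
  swap
  · exact absurd (h2 K hK T hT P _ hC) (not_lt.mpr hl)
  obtain ⟨a1, a2⟩ := h3 K hK P _ hC hl
  have u0 := hC.unit 0 (by omega)
  have u1 := hC.unit 1 (by omega)
  have u2 := hC.unit 2 (wf_fac K hK _ k1).2.2.1
  have hlt : ip (P 0) (P 1) ^ 2 < 1 := by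
    have e := det3_sq (P 0) (P 1) (P 2)
    have b1 := ip_sq_le (P 2) (P 0)
    have b2 := pow_pos (hC.pos _ k1) 2
    rw [u0, u1, u2] at e
    rw [u0, u2] at b1
    by_contra hn
    nlinarith [sq_nonneg (ip (P 1) (P 2) - ip (P 0) (P 1) * ip (P 2) (P 0)),
      mul_nonneg (sub_nonneg.mpr (not_lt.mp hn)) (by linarith : 0 ≤ 1 - ip (P 2) (P 0) ^ 2)]
  obtain ⟨e, f, g, u, c1, c2, c3, c4, c5, c6, c7, c8, c9, d1, d2, d3, d4, d5⟩ := h4 P u0 u1 hlt
  have un : Un K u := fun v hv => (c8 v v).trans (hC.unit v hv)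
  have sc : ∀ x y : V, ip (s • x) (s • y) = ip x y := fun x y => by
    rw [ip_smul_left, ip_smul_right, ← mul_assoc, ← sq, hs, one_mul]
  refine ⟨a1, u, ⟨un, h5 K hK u un (fun f hf => (c9 _ _ _).symm ▸ hC.pos f hf)
    (fun f hf => (c8 _ _).symm ▸ a2 f hf) d1 d2 d3 d4 d5, d1, d2, d4⟩, ?_, s • e, s • f, s • g,
    (sc _ _).trans c1, (sc _ _).trans c2, (sc _ _).trans c3, (sc _ _).trans c4, (sc _ _).trans c5,
    (sc _ _).trans c6, ?_⟩
  · rw [← hC.vol_eq]
    simp only [FF, c9]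
  · rw [hr]
    congr 1
    funext v
    rw [c7 v, smul_add, smul_add, smul_comm s, smul_comm s, smul_comm s]

theorem normal_eq (K : ℕ) (q : ℕ → E3) (v : ℕ) :
    normal K q v = NN (fac K) (fun i => (q i).ofLp) v := by
  unfold normal NN fac
  induction (data K).2.1 with
  | nil => rfl
  | cons f T ih =>
    simp only [rots, List.flatMap_cons, List.map_append, List.sum_append, List.map_cons,
      List.sum_cons, List.map_nil, List.sum_nil] at ih ⊢
    rw [ih, add_zero, add_assoc (ite _ _ _) (ite _ _ _)]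
    rfl

theorem solves_iff (K : ℕ) (q : ℕ → E3) : Solves K q ↔
    InB K (fun i => (q i).ofLp) ∧ Crit K (fac K) fun i => (q i).ofLp := by
  simp only [Solves, InB, Un, Near, Crit, normal_eq, norm_eq_one_iff]
  exact ⟨fun ⟨h, k⟩ => ⟨⟨fun v hv => (h v hv).1, fun v hv => (h v hv).2.1, k⟩,
    fun v hv => (h v hv).2.2⟩, fun ⟨⟨a, b, k⟩, c⟩ => ⟨fun v hv => ⟨a v hv, b v hv, c v hv⟩, k⟩⟩

theorem strict (h6 : HessAS) (h7 : HessBS) {K : ℕ} (hK : K ∈ Ks) {p q : ℕ → V} (hp : InB K p)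
    (hq : InB K q) (hc : Crit K (fac K) q) (h : FF (fac K) q ≤ FF (fac K) p) :
    ∀ v < K, p v = q v := by
  have a := h6 K _ _ p q _ 10 (wf_fac K hK) (by norm_num) (by norm_num) (by norm_num) hp.1 hq.1
    hp.2.1 hq.2.1 hc (h7 K hK _ (by rw [Pi.sub_apply, hp.zero hK, hq.zero hK, sub_self])
      (by rw [Pi.sub_apply, Pi.sub_apply, hp.2.2.2.2, hq.2.2.2.2, sub_self]))
  intro v hv
  have := Finset.single_le_sum (f := fun v => ip (p v - q v) (p v - q v))
    (fun i _ => ip_self_nonneg _) (Finset.mem_range.mpr hv)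
  exact sub_eq_zero.mp (eq_zero_of_ip (by linarith))

end Final

open Final in
theorem main (h1 : TypeS) (h2 : KillS) (h3 : LocS) (h4 : GaugeS) (h5 : DevS) (h6 : HessAS)
    (h7 : HessBS) (h8 : LowS) (h9 : CritS) (h10 : VlowS) : MainS := by
  intro K hK
  obtain ⟨u0, b1, b2, b3, b4, b5, b6⟩ := h10 K hK
  obtain ⟨q, hq, hm⟩ := exists_max hK ⟨u0, b1, b2, b3, b4, b5⟩
  have l1 := b6.trans (hm u0 ⟨b1, b2, b3, b4, b5⟩)
  have l0 : ((data K).2.2 : ℝ) / 10 ^ 7 ≤ low K := by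
    have : (((data K).2.2 * 10 ^ 6 : ℕ) : ℝ) ≤ lowN K := Nat.cast_le.mpr (facts K hK).2.2.2
    push_cast at this
    unfold low
    linarith
  have p0 : (0 : ℝ) ≤ ((data K).2.2 : ℝ) / 10 ^ 7 := by positivity
  have fin : ∀ p : Fin K → V, volume (convexHull ℝ (range p)) ≠ ⊤ := fun p =>
    ((finite_range p).isCompact_convexHull ℝ).measure_lt_top.ne
  have bd : ∀ p : Fin K → V, Function.Injective p → (∀ i, ip (p i) (p i) = 1) →
      0 ∈ interior (convexHull ℝ (range ((toLp 2 : V → E3) ∘ p))) → hvol p ≤ FF (fac K) q / 6 := by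
    intro p hi hu h0
    rcases le_total (low K) (hvol p) with h | h
    · obtain ⟨-, u, c1, c2, -⟩ := up h1 h2 h3 h4 h5 hK p hi hu h0 h
      linarith [hm u c1]
    · linarith
  have hc : Crit K (fac K) q := h9 K _ q (1 / 200) (wf_fac K hK) (by norm_num) hq.1 fun u c1 c2 => by
    obtain ⟨d1, d2, d3⟩ := h8 K hK u c1 fun v hv => by
      linarith [nv_tri (u v) (q v) (cen K v), c2 v hv, hq.2.1 v hv]
    have := ((ENNReal.ofReal_le_iff_le_toReal (fin _)).mp d3).trans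
      (bd _ d1 (fun i => c1 i i.2) d2)
    linarith
  obtain ⟨d1, d2, d3⟩ := h8 K hK q hq.1 fun v hv => (hq.2.1 v hv).trans (by norm_num)
  obtain ⟨e1, e2⟩ := max_iff (fun v : Fin K => q v) (fun i => hq.1 i i.2) d1 d2 (by linarith) d3
    fun p hi hu h0 => ⟨bd p hi hu h0, fun h => by
      obtain ⟨-, u, c1, c2, e, f, g, c3⟩ := up h1 h2 h3 h4 h5 hK p hi hu h0 (by linarith)
      have := strict h6 h7 hK c1 hq hc (by linarith)
      exact ⟨e, f, g, by simpa only [fun i : Fin K => this i i.2] using c3⟩⟩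
  have er : (fun v => (toLp 2 (q v) : E3)) '' Iio K =
      range ((toLp 2 : V → E3) ∘ fun v : Fin K => q v) := by
    ext x
    exact ⟨fun ⟨v, hv, e⟩ => ⟨⟨v, hv⟩, e⟩, fun ⟨v, e⟩ => ⟨v, v.2, e⟩⟩
  have hi := (ENNReal.ofReal_le_iff_le_toReal (fin _)).mp d3
  refine ⟨fun v => toLp 2 (q v), (solves_iff _ _).mpr ⟨hq, hc⟩, fun q' h v hv => ?_, ?_⟩
  · obtain ⟨c1, c2⟩ := (solves_iff _ _).mp h
    exact (congrArg (toLp 2) (strict h6 h7 hK hq c1 c2 (hm _ c1) v hv)).symm
  · rw [er, e2]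
    exact ⟨e1, ENNReal.ofReal_le_ofReal (by linarith), ENNReal.ofReal_le_ofReal (hi.trans
      (up h1 h2 h3 h4 h5 hK _ d1 (fun i => hq.1 i i.2) d2 (le_trans (by linarith) hi)).1)⟩

end Pool.Agent.MP_2ab689_gt.Fam
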