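import Pool.Agent.MP_2ab689_gt.Fam.Chk
import Pool.Agent.MP_2ab689_gt.T32.Trig
import Pool.Agent.MP_2ab689_gt.E11.Tan

/-! The face inequality when one angle is very obtuse. -/

namespace Pool.Agent.MP_2ab689_gt.Fam

open Real

namespace Obt

theorem am (a b a' b' z z' : ℝ) (ha : 0 ≤ a) (hb : 0 ≤ b) (ha' : 0 ≤ a') (hb' : 0 ≤ b')
    (h : z ^ 2 ≤ a * b) (h' : z' ^ 2 ≤ a' * b') : 2 * (z * z') ≤ a * b' + a' * b := by
  have h1 := mul_le_mul h h' (sq_nonneg _) (mul_nonneg ha hb)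
  refine (le_abs_self _).trans (abs_le_of_sq_le_sq ?_ (add_nonneg (mul_nonneg ha hb') (mul_nonneg ha' hb)))
  nlinarith [sq_nonneg (a * b' - a' * b)]

theorem cs3 {a1 a2 a3 b1 b2 b3 z1 z2 z3 : ℝ} (p1 : 0 ≤ a1) (p2 : 0 ≤ a2) (p3 : 0 ≤ a3)
    (q1 : 0 ≤ b1) (q2 : 0 ≤ b2) (q3 : 0 ≤ b3) (h1 : z1 ^ 2 ≤ a1 * b1) (h2 : z2 ^ 2 ≤ a2 * b2)
    (h3 : z3 ^ 2 ≤ a3 * b3) : (z1 + z2 + z3) ^ 2 ≤ (a1 + a2 + a3) * (b1 + b2 + b3) := by
  have k1 := am _ _ _ _ _ _ p1 q1 p2 q2 h1 h2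
  have k2 := am _ _ _ _ _ _ p1 q1 p3 q3 h1 h3
  have k3 := am _ _ _ _ _ _ p2 q2 p3 q3 h2 h3
  linarith

theorem cot_sub (a : ℝ) : cot (π - a) = -cot a := by
  rw [cot_eq_cos_div_sin, cot_eq_cos_div_sin, cos_pi_sub, sin_pi_sub, neg_div]

theorem low {v1 v2 v3 t1 t2 t3 : ℝ} (p1 : 0 < v1) (p2 : 0 < v2) (p3 : 0 < v3)
    (ha : v1 + v2 + v3 ≤ 6 / 5) (ht : 1 ≤ t1 + t2 + t3) :
    (149 / 150 - t1 ^ 2) / v1 + (149 / 150 - t2 ^ 2) / v2 + (149 / 150 - t3 ^ 2) / v3 ≤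
      cot v1 + cot v2 + cot v3 + cot (π - (v1 + v2 + v3)) := by
  have a0 : 0 < v1 + v2 + v3 := by linarith
  have c1 := T32.cot_ge p1 (by linarith)
  have c2 := T32.cot_ge p2 (by linarith)
  have c3 := T32.cot_ge p3 (by linarith)
  have c4 := E11.cot_le3 a0 ha
  have e : ∀ (t v : ℝ), 0 < v → t ^ 2 ≤ t ^ 2 / v * v := fun t v h =>
    (div_mul_cancel₀ _ h.ne').ge
  have n : ∀ (t v : ℝ), 0 < v → 0 ≤ t ^ 2 / v := fun t v h => by positivity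
  have h9 := cs3 (n 1 _ p1) (n 1 _ p2) (n 1 _ p3) p1.le p2.le p3.le (e 1 _ p1) (e 1 _ p2) (e 1 _ p3)
  have h1 := cs3 (n t1 _ p1) (n t2 _ p2) (n t3 _ p3) p1.le p2.le p3.le (e t1 _ p1) (e t2 _ p2)
    (e t3 _ p3)
  have hc : v1 ^ 3 + v2 ^ 3 + v3 ^ 3 ≤ (v1 + v2 + v3) ^ 3 := by
    have : 0 ≤ (v1 + v2) * (v2 + v3) * (v3 + v1) := by positivity
    linarith
  set a := v1 + v2 + v3 with hd
  have k1 : 1 / a ≤ t1 ^ 2 / v1 + t2 ^ 2 / v2 + t3 ^ 2 / v3 := by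
    rw [div_le_iff₀ a0]
    exact (one_le_pow₀ ht).trans h1
  have k2 : a ^ 3 / 35 ≤ (1 / v1 + 1 / v2 + 1 / v3) / 150 := by
    have h4 : a ^ 4 ≤ (6 / 5) ^ 4 := pow_le_pow_left₀ a0.le ha 4
    refine le_of_mul_le_mul_right ?_ a0
    simp only [one_pow] at h9
    linarith
  have k3 : 0 ≤ a ^ 3 := by positivity
  have s : ∀ t v : ℝ, (149 / 150 - t ^ 2) / v = 149 / 150 * (1 / v) - t ^ 2 / v := fun t v => by
    ring
  rw [cot_sub, s, s, s]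
  linarith

theorem one {P : ℤ} {D t z : ℕ} (h : ob1 P D t z = true) (hD : (0 : ℝ) < D) {v : ℝ}
    (hv : 0 < v) : 0 ≤ (149 / 150 - ((t : ℝ) / 10 ^ 6) ^ 2) / v ∧ 0 ≤ P / (U * D) * v ∧
      ((z : ℝ) / 10 ^ 6) ^ 2 ≤ (149 / 150 - ((t : ℝ) / 10 ^ 6) ^ 2) / v * (P / (U * D) * v) := by
  obtain ⟨h1, h2, h3⟩ := of_decide_eq_true h
  have hU := U_pos
  have a1 : (0 : ℝ) ≤ P := by exact_mod_cast h1
  have a2 : (150 : ℝ) * t ^ 2 ≤ 149 * 10 ^ 12 := by exact_mod_cast h2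
  have a3 : (150 : ℝ) * z ^ 2 * D * U ≤ (149 * 10 ^ 12 - 150 * t ^ 2) * P := by
    rw [Nat.cast_sub h2] at h3
    exact_mod_cast h3
  refine ⟨div_nonneg (by linarith) hv.le, by positivity, ?_⟩
  have e : (149 / 150 - ((t : ℝ) / 10 ^ 6) ^ 2) / v * (P / (U * D) * v) =
      (149 / 150 - ((t : ℝ) / 10 ^ 6) ^ 2) * P / (U * D) := by field_simp
  rw [e, le_div_iff₀ (by positivity)]
  linarith

theorem core {v1 v2 v3 : ℝ} (p1 : 0 < v1) (p2 : 0 < v2) (p3 : 0 < v3) (m w w1 w2 w3 : ℤ)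
    (b t1 t2 t3 z1 z2 z3 : ℕ) (hb : (b : ℝ) / U ≤ π - (v1 + v2 + v3))
    (h5 : 5 * (piH - b) ≤ 6 * U) (hw : 0 ≤ w) (hK : 0 ≤ m * U + w * piL)
    (ht : 10 ^ 6 ≤ t1 + t2 + t3) (hz : 2 * 10 ^ 6 ≤ z1 + z2 + z3)
    (o1 : ob1 ((w1 - w) * (piH - b : ℕ) + (m * U + w * piL)) (piH - b) t1 z1 = true)
    (o2 : ob1 ((w2 - w) * (piH - b : ℕ) + (m * U + w * piL)) (piH - b) t2 z2 = true)
    (o3 : ob1 ((w3 - w) * (piH - b : ℕ) + (m * U + w * piL)) (piH - b) t3 z3 = true) :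
    4 ≤ (cot v1 + cot v2 + cot v3 + cot (π - (v1 + v2 + v3))) *
      ((m + w1 * v1 + w2 * v2 + w3 * v3 + w * (π - (v1 + v2 + v3))) / U) := by
  have hU := U_pos
  obtain ⟨l1, l2, -, -⟩ := pi_U
  have hD1 : (piH : ℝ) ≤ (piH - b : ℕ) + b := by exact_mod_cast le_tsub_add
  generalize piH - b = D at h5 o1 o2 o3 hD1
  rw [div_le_iff₀ hU] at hb
  have hD2 : (v1 + v2 + v3) * U ≤ D := by linarith
  have hD : (0 : ℝ) < D := lt_of_lt_of_le (by positivity) hD2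
  have h5' : (5 : ℝ) * D ≤ 6 * U := by exact_mod_cast h5
  have ha : v1 + v2 + v3 ≤ 6 / 5 := le_of_mul_le_mul_right (by linarith) hU
  have ht' : (10 : ℝ) ^ 6 ≤ t1 + t2 + t3 := by exact_mod_cast ht
  have hz' : 2 * (10 : ℝ) ^ 6 ≤ z1 + z2 + z3 := by exact_mod_cast hz
  obtain ⟨a1, b1, c1⟩ := one o1 hD p1
  obtain ⟨a2, b2, c2⟩ := one o2 hD p2
  obtain ⟨a3, b3, c3⟩ := one o3 hD p3
  have hX := low (t1 := t1 / 10 ^ 6) (t2 := t2 / 10 ^ 6) (t3 := t3 / 10 ^ 6) p1 p2 p3 ha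
    (by linarith)
  have hc := cs3 a1 a2 a3 b1 b2 b3 c1 c2 c3
  have h4 : (2 : ℝ) ^ 2 ≤ ((z1 : ℝ) / 10 ^ 6 + z2 / 10 ^ 6 + z3 / 10 ^ 6) ^ 2 :=
    pow_le_pow_left₀ zero_le_two (by linarith) 2
  refine le_trans (by linarith) (hc.trans (mul_le_mul hX ?_ (by linarith) (by linarith)))
  have hK' : (0 : ℝ) ≤ m * U + w * piL := by exact_mod_cast hK
  have hw' : (0 : ℝ) ≤ w := by exact_mod_cast hw
  have k1 : ((m : ℝ) * U + w * piL) * (v1 + v2 + v3) ≤ (m + w * π) * D := by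
    refine le_of_mul_le_mul_right ?_ hU
    have k2 := mul_le_mul_of_nonneg_left hD2 hK'
    have k3 := mul_le_mul_of_nonneg_right (mul_le_mul_of_nonneg_left l1 hw') hD.le
    linarith
  push_cast
  simp only [div_mul_eq_mul_div]
  rw [← add_div, ← add_div, div_le_div_iff₀ (by positivity) hU]
  have k4 := mul_le_mul_of_nonneg_right k1 hU.le
  linarith

end Obt

theorem obtS : ObtS := by
  intro c B j t0 t1 t2 z0 z1 z2 y h ⟨hp, hs, _⟩ hB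
  simp only [obt, Bool.and_eq_true, decide_eq_true_eq] at h
  obtain ⟨⟨⟨⟨u1, u2, u3, j1, j3, h5, hw, hK, ht, hz⟩, o1⟩, o2⟩, o3⟩ := h
  have hb := (hB j (by omega)).1
  have q0 := hp 0 (by norm_num)
  have q1 := hp 1 (by norm_num)
  have q2 := hp 2 (by norm_num)
  have q3 := hp 3 (by norm_num)
  unfold Cl Cf.R
  rw [u1, u2, u3]
  interval_cases j
  · have e : π - (y 0 + y 2 + y 3) = y 1 := by linarith
    have := Obt.core q0 q2 q3 _ _ _ _ _ _ _ _ _ _ _ _ (e ▸ hb) h5 hw hK ht hz o1 o2 o3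
    rw [e] at this
    simp only [Cf.w] at this
    push_cast at this ⊢
    refine le_of_eq_of_le (by ring) (this.trans_eq (by ring))
  · have e : π - (y 0 + y 3 + y 1) = y 2 := by linarith
    have := Obt.core q0 q3 q1 _ _ _ _ _ _ _ _ _ _ _ _ (e ▸ hb) h5 hw hK ht hz o1 o2 o3
    rw [e] at this
    simp only [Cf.w] at this
    push_cast at this ⊢
    refine le_of_eq_of_le (by ring) (this.trans_eq (by ring))
  · have e : π - (y 0 + y 1 + y 2) = y 3 := by linarith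
    have := Obt.core q0 q1 q2 _ _ _ _ _ _ _ _ _ _ _ _ (e ▸ hb) h5 hw hK ht hz o1 o2 o3
    rw [e] at this
    simp only [Cf.w] at this
    push_cast at this ⊢
    refine le_of_eq_of_le (by ring) (this.trans_eq (by ring))

end Pool.Agent.MP_2ab689_gt.Fam
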