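import Pool.Agent.MP_2ab689_gt.Fam.Chk

/-!
From inequalities in four angles to spherical triangles, and the two summations over all faces.
-/

namespace Pool.Agent.MP_2ab689_gt.Fam

open Real Big

namespace Stage

theorem sq_lt {a b c : V} (ha : ip a a = 1) (hb : ip b b = 1) (hc : ip c c = 1)
    (hD : 0 < det3 a b c) : ip b c ^ 2 < 1 := by
  have h := det3_sq a b c
  have h1 := ip_sq_le a b
  have h2 := ip_sq_le b c
  rw [ha, hb] at h1
  rw [hb, hc] at h2
  rw [ha, hb, hc] at h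
  have h3 := pow_pos hD 2
  by_contra hn
  have : ip b c ^ 2 = 1 := by linarith
  nlinarith [sq_nonneg (ip c a - ip a b * ip b c)]

theorem first {a b c : V} (ha : ip a a = 1) (hb : ip b b = 1) (hc : ip c c = 1)
    (hD : 0 < det3 a b c) :
    Complex.arg ⟨1 + ip b c - ip a b - ip c a, det3 a b c⟩ +
      Complex.arg ⟨1 + ip a b + ip b c + ip c a, det3 a b c⟩ = ang a b c ∧
    Complex.arg ⟨1 + ip c a - ip b c - ip a b, det3 a b c⟩ +
      Complex.arg ⟨1 + ip a b - ip c a - ip b c, det3 a b c⟩ = π - ang a b c := by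
  refine T32.angles hD ?_ (sq_lt ha hb hc hD)
  rw [det3_sq, ha, hb, hc]; ring

theorem key {a b c : V} (ha : ip a a = 1) (hb : ip b b = 1) (hc : ip c c = 1)
    (hD : 0 < det3 a b c) : ∃ y, Ok y ∧ ∀ x : Cf, Cl x y → det3 a b c ≤ x.rhs a b c := by
  have e2 : det3 b c a = det3 a b c := det3_rot a b c
  have e3 : det3 c a b = det3 a b c := (det3_rot c a b).symm
  obtain ⟨h1, h0⟩ := first ha hb hc hD
  have h2 := (first hb hc ha (e2 ▸ hD)).1
  have h3 := (first hc ha hb (e3 ▸ hD)).1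
  rw [e2, show 1 + ip b c + ip c a + ip a b = 1 + ip a b + ip b c + ip c a by ring] at h2
  rw [e3, show 1 + ip c a + ip a b + ip b c = 1 + ip a b + ip b c + ip c a by ring] at h3
  have D1 : det3 a b c ≤ 1 := by
    have := (le_abs_self _).trans (abs_det3_le a b c)
    rwa [nv_eq_one ha, nv_eq_one hb, nv_eq_one hc, mul_one, mul_one] at this
  unfold Cf.rhs rhs
  rw [← h2, ← h3]
  rw [← h1] at h0 ⊢
  generalize det3 a b c = D at *
  generalize ip a b = p at *
  generalize ip b c = q at *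
  generalize ip c a = r at *
  have k0 := T32.cot_arg (1 + p + q + r) D
  have k1 := T32.cot_arg (1 + q - p - r) D
  have k2 := T32.cot_arg (1 + r - q - p) D
  have k3 := T32.cot_arg (1 + p - r - q) D
  have a0 := (T32.arg_mem (w := ⟨1 + p + q + r, D⟩) hD).1
  have a1 := (T32.arg_mem (w := ⟨1 + q - p - r, D⟩) hD).1
  have a2 := (T32.arg_mem (w := ⟨1 + r - q - p, D⟩) hD).1
  have a3 := (T32.arg_mem (w := ⟨1 + p - r - q, D⟩) hD).1
  generalize Complex.arg ⟨1 + p + q + r, D⟩ = y0 at *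
  generalize Complex.arg ⟨1 + q - p - r, D⟩ = y1 at *
  generalize Complex.arg ⟨1 + r - q - p, D⟩ = y2 at *
  generalize Complex.arg ⟨1 + p - r - q, D⟩ = y3 at *
  have eX : cot y0 + cot y1 + cot y2 + cot y3 = 4 / D := by rw [k0, k1, k2, k3]; ring
  refine ⟨fun j => match j with | 0 => y0 | 1 => y1 | 2 => y2 | _ => y3, ⟨fun j hj => ?_, ?_, ?_⟩,
    fun x hx => ?_⟩
  · interval_cases j <;> assumption
  · change y0 + y1 + y2 + y3 = π
    linarith
  · change 4 ≤ cot y0 + cot y1 + cot y2 + cot y3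
    rw [eX, le_div_iff₀ hD]; linarith
  · change 4 + 2 * (x.u1 * (cot y2 + cot y3) + x.u2 * (cot y1 + cot y3)
      + x.u3 * (cot y1 + cot y2)) / U ≤ (cot y0 + cot y1 + cot y2 + cot y3) *
      ((x.m + x.u1 + x.u2 + x.u3 + (x.l1 + x.l2 + x.l3) * y0 + x.l1 * y1 + x.l2 * y2
        + x.l3 * y3) / U) at hx
    rw [eX, k1, k2, k3] at hx
    have := mul_le_mul_of_nonneg_right hx (show 0 ≤ D / 4 by positivity)
    have e4 : (4 + 2 * (x.u1 * ((1 + r - q - p) / D + (1 + p - r - q) / D) +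
        x.u2 * ((1 + q - p - r) / D + (1 + p - r - q) / D) +
        x.u3 * ((1 + q - p - r) / D + (1 + r - q - p) / D)) / U) * (D / 4) =
        D + (x.u1 * (1 - q) + x.u2 * (1 - r) + x.u3 * (1 - p)) / U := by
      field_simp
      ring
    have e5 : ∀ R : ℝ, 4 / D * R * (D / 4) = R := fun R => by field_simp
    rw [e4, e5] at this
    refine le_of_sub_nonneg (le_of_le_of_eq (sub_nonneg.mpr this) ?_)
    ring

theorem lo {g t : ℤ} {q : ℝ} (ht : 0 < t) (h : (((g * t / U : ℤ) : ℝ) + 1) / U ≤ t / U * q) :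
    (g : ℝ) / U ≤ q := by
  have hU := U_pos
  have h1 := Int.lt_ediv_add_one_mul_self (g * t) (b := (U : ℤ)) (by exact_mod_cast hU)
  have h2 : (g : ℝ) * t < (((g * t / U : ℤ) : ℝ) + 1) * U := by exact_mod_cast h1
  have h3 : (0 : ℝ) < t := by exact_mod_cast ht
  rw [div_mul_eq_mul_div, div_le_div_iff_of_pos_right hU] at h
  rw [div_le_iff₀ hU]
  have := mul_le_mul_of_nonneg_right h hU.le
  refine le_of_mul_le_mul_right ?_ h3
  linarith

theorem hi {g t : ℤ} {q : ℝ} (ht : 0 < t) (h : t / U * q ≤ (((g * t / U : ℤ) : ℝ) - 1) / U) :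
    q ≤ (g : ℝ) / U := by
  have hU := U_pos
  have h1 := Int.ediv_mul_le (g * t) (b := (U : ℤ)) (by exact_mod_cast hU.ne')
  have h2 : ((g * t / U : ℤ) : ℝ) * U ≤ (g : ℝ) * t := by exact_mod_cast h1
  have h3 : (0 : ℝ) < t := by exact_mod_cast ht
  rw [div_mul_eq_mul_div, div_le_div_iff_of_pos_right hU] at h
  rw [le_div_iff₀ hU]
  have := mul_le_mul_of_nonneg_right h hU.le
  refine le_of_mul_le_mul_right ?_ h3
  linarith

theorem both {g η t : ℤ} {q : ℝ} (ht : 0 < t)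
    (h : ((((g - η) * t / U : ℤ) : ℝ) + 1) / U ≤ t / U * q)
    (k : t / U * q ≤ ((((g + η) * t / U : ℤ) : ℝ) - 1) / U) : |q - g / U| ≤ η / U := by
  have h1 := lo ht h
  have h2 := hi ht k
  push_cast at h1 h2
  rw [sub_div] at h1
  rw [add_div] at h2
  exact abs_le.mpr ⟨by linarith, by linarith⟩

theorem rhs_rot (x : Cf) (a b c : V) : x.rot.rhs a b c = x.rhs c a b := by
  simp only [Cf.rhs, Cf.rot, rhs]; ring

theorem rhs_swp (x : Cf) (a b c : V) : x.swp.rhs a b c = x.rhs (-a) (-c) (-b) := by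
  simp only [Cf.rhs, Cf.swp, rhs]
  rw [ang_neg, ang_neg, ang_neg, ip_neg, ip_neg, ip_neg, ip_comm c b, ip_comm b a, ip_comm a c]
  ring

theorem cls_rot {S1 S2 η : ℤ} {x : Kl} (h : Cls S1 S2 η x) : Cls S1 S2 η x.rot :=
  fun a b c ha hb hc hd => by
  have e : det3 c a b = det3 a b c := (det3_rot c a b).symm
  have := h c a b hc ha hb (e ▸ hd)
  simp only [Kl.rot, rhs_rot]
  rw [e] at this
  refine ⟨this.1, fun k => ⟨(this.2 k).1, fun k' => ?_⟩⟩
  obtain ⟨h1, h2, h3⟩ := (this.2 k).2 k'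
  exact ⟨h2, h3, h1⟩

theorem cls_swp {S1 S2 η : ℤ} {x : Kl} (h : Cls S1 S2 η x) : Cls S1 S2 η x.swp :=
  fun a b c ha hb hc hd => by
  have := h (-a) (-c) (-b) (by rwa [ip_neg]) (by rwa [ip_neg]) (by rwa [ip_neg])
    (by rwa [det3_neg])
  simp only [Kl.swp, rhs_swp]
  rw [det3_neg, ip_neg, ip_neg, ip_neg, ip_comm c b, ip_comm b a, ip_comm a c] at this
  refine ⟨this.1, fun k => ⟨(this.2 k).1, fun k' => ?_⟩⟩
  obtain ⟨h1, h2, h3⟩ := (this.2 k).2 k'
  exact ⟨h1, h3, h2⟩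

theorem iter {P : Kl → Prop} {g : Kl → Kl} (hg : ∀ x, P x → P (g x)) (n : ℕ) :
    ∀ x, P x → P (g^[n] x) := by
  induction n with
  | zero => exact fun _ h => h
  | succ n ih => exact fun x h => ih _ (hg x h)

theorem cls_pick {S1 S2 η : ℤ} {L : List Kl} (h : ∀ x ∈ L, Cls S1 S2 η x) {n : ℕ}
    (hn : n / 6 < L.length) : Cls S1 S2 η (pick L n) := by
  unfold pick
  refine iter (P := Cls S1 S2 η) (g := Kl.swp) (fun _ => cls_swp) _ _
    (iter (P := Cls S1 S2 η) (g := Kl.rot) (fun _ => cls_rot) _ _ (h _ ?_))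
  rw [List.getD_eq_getElem?_getD, List.getElem?_eq_getElem hn, Option.getD_some]
  exact List.getElem_mem hn

variable {K : ℕ} {T : List Tri} {p : ℕ → V} {vol : ℝ}

theorem ang_pos (h : Conf K T p vol) {f : Tri} (hf : f ∈ rots T) :
    0 < ang (p f.1) (p f.2.1) (p f.2.2) := by
  refine (T32.arg_mem ?_).1
  obtain ⟨g, hg, e | e | e⟩ := mem_rots.mp hf
  · exact e ▸ h.pos g hg
  · rw [e]; exact (h.pos g hg).trans_eq (det3_rot _ _ _).symm
  · rw [e]; exact (h.pos g hg).trans_eq (det3_rot _ _ _)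

theorem lt_K (h : Conf K T p vol) {f : Tri} (hf : f ∈ rots T) : f.1 < K := by
  by_contra hn
  have e := h.angs fun w => if w = f.1 then 1 else 0
  rw [Finset.sum_eq_zero fun w hw => if_neg fun e' : w = f.1 =>
    hn (e' ▸ Finset.mem_range.mp hw), mul_zero] at e
  have := List.single_le_sum (l := (rots T).map fun g => (if g.1 = f.1 then (1 : ℝ) else 0) *
    ang (p g.1) (p g.2.1) (p g.2.2)) (fun x hx => by
      obtain ⟨g, hg, rfl⟩ := List.mem_map.mp hx
      exact mul_nonneg (by split_ifs <;> norm_num) (ang_pos h hg).le) _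
    (List.mem_map.mpr ⟨f, hf, rfl⟩)
  rw [e, if_pos rfl, one_mul] at this
  exact absurd (ang_pos h hf) (not_lt.mpr this)

theorem units (h : Conf K T p vol) {f : Tri} (hf : f ∈ T) : ip (p f.1) (p f.1) = 1 ∧
    ip (p f.2.1) (p f.2.1) = 1 ∧ ip (p f.2.2) (p f.2.2) = 1 :=
  ⟨h.unit _ (lt_K h (mem_rots.mpr ⟨f, hf, .inl rfl⟩)),
    h.unit _ (lt_K h (mem_rots.mpr ⟨f, hf, .inr (.inl rfl)⟩)),
    h.unit _ (lt_K h (mem_rots.mpr ⟨f, hf, .inr (.inr rfl)⟩))⟩

theorem sum_div (m : Tri → ℤ) (T : List Tri) :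
    (T.map fun f => (m f : ℝ) / U).sum = ((T.map m).sum : ℤ) / U := by
  induction T with
  | nil => simp
  | cons f T ih => simp only [List.map_cons, List.sum_cons, ih, Int.cast_add, add_div]

theorem range_div (l : ℕ → ℤ) (K : ℕ) :
    ∑ v ∈ Finset.range K, (l v : ℝ) / U = (((List.range K).map l).sum : ℤ) / U := by
  induction K with
  | zero => simp
  | succ K ih =>
    simp only [Finset.sum_range_succ, ih, List.range_succ, List.map_append, List.sum_append,
      List.map_cons, List.map_nil, List.sum_cons, List.sum_nil, add_zero, Int.cast_add, add_div]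

theorem bound (hB : BookS) (h : Conf K T p vol)
    (hp : ((rots T).map fun f => (f.1, f.2.1)).Perm ((rots T).map fun f => (f.2.1, f.1)))
    (c : Tri → Cf) (l : ℕ → ℤ) (u : ℕ → ℕ → ℤ)
    (hc : ∀ f ∈ T, c f = ⟨(c f).m, l f.1, l f.2.1, l f.2.2, u f.2.1 f.2.2 - u f.2.2 f.2.1,
      u f.2.2 f.1 - u f.1 f.2.2, u f.1 f.2.1 - u f.2.1 f.1⟩)
    (hl : 0 ≤ ((List.range K).map l).sum) :
    (T.map fun f => (c f).rhs (p f.1) (p f.2.1) (p f.2.2)).sum * U ^ 2 ≤
      tot K T (fun f => (c f).m) l := by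
  have e := hB K T p vol (fun f => (c f).m / U) (fun v => l v / U)
    (fun a b => ((u a b - u b a : ℤ) : ℝ) / U) h (fun a b => by push_cast; ring) hp
  rw [List.map_congr_left (g := fun f => rhs ((c f).m / U) (l f.1 / U) (l f.2.1 / U) (l f.2.2 / U)
    ((u f.2.1 f.2.2 - u f.2.2 f.2.1 : ℤ) / U) ((u f.2.2 f.1 - u f.1 f.2.2 : ℤ) / U)
    ((u f.1 f.2.1 - u f.2.1 f.1 : ℤ) / U) (p f.1) (p f.2.1) (p f.2.2))
    fun f hf => by rw [hc f hf]; rfl, e, sum_div, range_div, tot]
  have hU := U_pos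
  have h1 : (0 : ℝ) ≤ (((List.range K).map l).sum : ℤ) := by exact_mod_cast hl
  have h2 := mul_le_mul_of_nonneg_right pi_U.2.1 h1
  rw [Int.cast_add, Int.cast_mul, Int.cast_mul, Int.cast_mul, Int.cast_natCast, Int.cast_natCast,
    Int.cast_ofNat]
  generalize (((((List.range K).map l).sum : ℤ)) : ℝ) = s at *
  generalize ((((T.map fun f => (c f).m).sum : ℤ)) : ℝ) = m
  have e3 : (m / U + 2 * π * (s / U)) * U ^ 2 = m * U + 2 * (π * U * s) := by field_simp
  rw [e3]
  linarith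

theorem gap {D R : Tri → ℝ} {T : List Tri} (h : ∀ f ∈ T, D f ≤ R f) :
    ∀ f ∈ T, R f - D f ≤ (T.map R).sum - (T.map D).sum := by
  induction T with
  | nil => simp
  | cons g T ih =>
    intro f hf
    have h1 := List.sum_le_sum fun f hf => h f (List.mem_cons_of_mem g hf)
    have h2 := h g List.mem_cons_self
    simp only [List.map_cons, List.sum_cons]
    rcases List.mem_cons.mp hf with rfl | hf
    · linarith
    · linarith [ih (fun f hf => h f (List.mem_cons_of_mem g hf)) f hf]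

theorem slack {R vol : ℝ} {t S : ℤ} {lo : ℕ} (hv : (lo : ℝ) / 10 ^ 13 ≤ vol)
    (h : R * U ^ 2 ≤ t) (k : 10 ^ 13 * (t - S * U) ≤ 6 * lo * U ^ 2) : R - 6 * vol ≤ S / U := by
  have hU := U_pos
  have k' : (10 : ℝ) ^ 13 * (t - S * U) ≤ 6 * lo * U ^ 2 := by exact_mod_cast k
  rw [div_le_iff₀ (by norm_num)] at hv
  have h2 := mul_le_mul_of_nonneg_right hv (sq_nonneg (U : ℝ))
  rw [le_div_iff₀ hU]
  refine le_of_mul_le_mul_right ?_ hU
  linarith

end Stage

open Stage

theorem clsS : ClsS := by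
  intro S1 S2 η t x B h2 ht k1 k2 k3 a b c ha hb hc hD
  obtain ⟨y, ok, hy⟩ := key ha hb hc hD
  have hU := U_pos
  have h1 : (0 : ℝ) < 1 / U := by positivity
  have h3 : (0 : ℝ) ≤ S2 / U := div_nonneg (by exact_mod_cast h2) hU.le
  refine ⟨hy _ (k1 y ok), fun g1 => ?_⟩
  rcases k2 y ok with k | k | k
  · have := hy _ k
    simp only [Cf.rhs, rhs, Int.cast_sub, Int.cast_one, sub_div] at this ⊢
    exact ⟨by linarith, fun g2 => absurd g2 (by linarith)⟩
  · have := hy _ k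
    simp only [Cf.rhs, rhs, Int.cast_sub, Int.cast_one, sub_div] at this g1
    exact absurd g1 (by linarith)
  · have k4 := fun z hz => hy z (k3 z hz y ok k)
    simp only [Kl.pert, List.forall_mem_cons, Cf.rhs, rhs, Int.cast_sub, Int.cast_add,
      Int.cast_one, sub_div, add_div] at k4 ⊢
    obtain ⟨b0, b1, b2, b3, b4, b5, b6, -⟩ := k4
    refine ⟨b0, fun g2 => ⟨both ht ?_ ?_, both ht ?_ ?_, both ht ?_ ?_⟩⟩ <;>
      simp only [sub_div, add_div] <;> linarith

theorem stageS (hB : BookS) : StageS := by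
  intro K T p vol S1 S2 η L n l l' u lo h hv hL hp hf hl hl' k1
  have cl := fun f hf' => cls_pick hL (hf f hf').1 _ _ _ (units h hf').1 (units h hf').2.1
    (units h hf').2.2 (h.pos f hf')
  have b1 := bound hB h hp (fun f => (pick L (n f)).c1) l (fun _ _ => 0)
    (fun f hf' => (hf f hf').2.1) hl
  have b2 := bound hB h hp (fun f => (pick L (n f)).c2) l' u (fun f hf' => (hf f hf').2.2) hl'
  have ev := h.vol_eq
  unfold FF at ev
  have g1 := gap fun f hf' => (cl f hf').1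
  rw [ev] at g1
  have c2 := fun f hf' => (cl f hf').2 (by linarith [g1 f hf', slack hv b1 k1])
  have g2 := gap fun f hf' => (c2 f hf').1
  rw [ev] at g2
  refine ⟨le_trans (mul_le_mul_of_nonneg_right ?_ (sq_nonneg _)) b2, fun k2 f hf' =>
    (c2 f hf').2 (by linarith [g2 f hf', slack hv b2 k2])⟩
  exact ev ▸ List.sum_le_sum fun f hf' => (c2 f hf').1

end Pool.Agent.MP_2ab689_gt.Fam
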