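import Pool.Agent.MP_2ab689_gt.Fam.Chk
import Pool.Agent.MP_2ab689_gt.E11.Tan

/-!
A lower bound of `W cot y + c y` on an interval.
-/

namespace Pool.Agent.MP_2ab689_gt.Fam

open Real Big

namespace Term

theorem cot_nn {y : ℝ} (h0 : 0 < y) (h1 : y ≤ π / 2) : 0 ≤ cot y := by
  rw [cot_eq_cos_div_sin]
  exact div_nonneg (cos_nonneg_of_mem_Icc ⟨by linarith, h1⟩)
    (sin_nonneg_of_nonneg_of_le_pi h0.le (by linarith))

theorem cot_sub (y : ℝ) : cot (π - y) = -cot y := by
  rw [cot_eq_cos_div_sin, cot_eq_cos_div_sin, cos_pi_sub, sin_pi_sub, neg_div]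

theorem cot_np {y : ℝ} (h0 : π / 2 ≤ y) (h1 : y < π) : cot y ≤ 0 := by
  have := cot_nn (y := π - y) (by linarith) (by linarith)
  rw [cot_sub] at this
  linarith

theorem cot_half : cot (π / 2) = 0 := by rw [cot_eq_cos_div_sin, cos_pi_div_two, zero_div]

/-- The tangent line. -/
theorem tang {b y : ℝ} (b0 : 0 < b) (b1 : b ≤ π / 2) (y0 : 0 < y) (y1 : y ≤ π / 2) :
    cot b - (1 + cot b ^ 2) * (y - b) ≤ cot y := by
  have e1 := E11.atan_cot b0 (by linarith)
  have e2 := E11.atan_cot y0 (by linarith)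
  have h1 := cot_nn b0 b1
  have h2 := cot_nn y0 y1
  rw [show y - b = arctan (cot b) - arctan (cot y) by linarith]
  generalize cot b = c at *
  generalize cot y = u at *
  have hd : ∀ y : ℝ, HasDerivAt (fun u => u - (1 + c ^ 2) * arctan u)
      ((y ^ 2 - c ^ 2) / (1 + y ^ 2)) y := fun y =>
    ((hasDerivAt_id' y).sub ((hasDerivAt_arctan y).const_mul _)).congr_deriv (by field_simp; ring)
  rcases le_total c u with h | h
  · have := E11.mono_of hd h fun y a _ => div_nonneg (by nlinarith) (by positivity)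
    linarith
  · have := E11.mono_of (fun y => (hd y).neg) h fun y a b => by
      rw [← neg_div]; exact div_nonneg (by nlinarith) (by positivity)
    simp only [Pi.neg_apply] at this
    linarith

/-- The chord on acute angles. -/
theorem chord {W c a y b v : ℝ} (hW : W ≤ 0) (a0 : 0 < a) (h1 : a ≤ y) (h2 : y ≤ b)
    (b1 : b ≤ π / 2) (ha : v ≤ W * cot a + c * a) (hb : v ≤ W * cot b + c * b) :
    v ≤ W * cot y + c * y := by
  have t1 := mul_le_mul_of_nonpos_left (tang (a0.trans_le h1) (h2.trans b1) a0 (by linarith)) hW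
  have t2 := mul_le_mul_of_nonpos_left (tang (a0.trans_le h1) (h2.trans b1) (by linarith) b1) hW
  rcases le_total 0 (c - W * (1 + cot y ^ 2)) with s | s
  · have := mul_nonneg s (sub_nonneg.2 h1)
    linarith
  · have := mul_nonneg (neg_nonneg.2 s) (sub_nonneg.2 h2)
    linarith

/-- The chord on obtuse angles. -/
theorem chord' {W c a y b v : ℝ} (hW : 0 ≤ W) (a0 : π / 2 ≤ a) (h1 : a ≤ y) (h2 : y ≤ b)
    (b1 : b < π) (ha : v ≤ W * cot a + c * a) (hb : v ≤ W * cot b + c * b) :
    v ≤ W * cot y + c * y := by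
  have := chord (W := -W) (c := -c) (a := π - b) (y := π - y) (b := π - a) (v := v - c * π)
    (by linarith) (by linarith) (by linarith) (by linarith) (by linarith)
    (by rw [cot_sub]; linarith) (by rw [cot_sub]; linarith)
  rw [cot_sub] at this
  linarith

/-- An affine function on an interval. -/
theorem affi {I s a x b v : ℝ} (h1 : a ≤ x) (h2 : x ≤ b) (ha : v ≤ I + s * a) (hb : v ≤ I + s * b) :
    v ≤ I + s * x := by
  rcases le_total 0 s with h | h
  · linarith [mul_le_mul_of_nonneg_left h1 h]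
  · linarith [mul_le_mul_of_nonpos_left h2 h]

theorem ep_le {W c : ℤ} {x f : ℕ} (hW : 0 ≤ W) (h : -cot (x / U) ≤ f / U) :
    (ep W c x f : ℝ) ≤ U ^ 3 * W * cot (x / U) + U ^ 2 * c * (x / U) := by
  have u := U_pos
  have e : (ep W c x f : ℝ) = U ^ 3 * W * -(f / U) + U ^ 2 * c * (x / U) := by
    have : ep W c x f = (c * x - W * (f * U : ℕ)) * U := rfl
    rw [this]
    push_cast
    field_simp
    ring
  have w : (0 : ℝ) ≤ W := by exact_mod_cast hW
  rw [e]
  exact add_le_add (mul_le_mul_of_nonneg_left (by linarith) (by positivity)) le_rfl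

/-- The tangent line with rounded coefficients. -/
theorem tang' {u B cl cu y : ℝ} (u0 : 0 < u) (c0 : 0 ≤ cl) (b0 : 0 < B) (b1 : B / u ≤ π / 2)
    (h1 : cl / u ≤ cot (B / u)) (h2 : cot (B / u) ≤ cu / u) (y0 : 0 < y) (y1 : y ≤ π / 2) :
    (u * u + cl * cl) * B + cl * u * (u + 2 * cl) - 2 * u * (cu * cu) -
      (u * u + cl * cl) * (y * u) ≤ u ^ 3 * cot y := by
  obtain ⟨b, rfl⟩ : ∃ b, B = b * u := ⟨B / u, by field_simp⟩
  obtain ⟨l, rfl⟩ : ∃ b, cl = b * u := ⟨cl / u, by field_simp⟩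
  obtain ⟨m, rfl⟩ : ∃ b, cu = b * u := ⟨cu / u, by field_simp⟩
  rw [mul_div_cancel_right₀ _ u0.ne'] at b1
  rw [mul_div_cancel_right₀ _ u0.ne', mul_div_cancel_right₀ _ u0.ne'] at h1 h2
  have b2 := (mul_pos_iff_of_pos_right u0).1 b0
  have l0 := nonneg_of_mul_nonneg_left c0 u0
  have t := tang b2 b1 y0 y1
  have p := pi_le_four
  generalize cot b = t0 at *
  have k1 : l ^ 2 ≤ t0 ^ 2 := pow_le_pow_left₀ l0 h1 2
  have k2 : t0 ^ 2 ≤ m ^ 2 := pow_le_pow_left₀ (l0.trans h1) h2 2
  have k3 := mul_nonneg (sub_nonneg.2 k1) (show 0 ≤ 2 - (y - b) by linarith)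
  have k4 : l - (1 + l ^ 2) * (y - b) - 2 * (m ^ 2 - l ^ 2) ≤ cot y := by linarith
  have := mul_le_mul_of_nonneg_left k4 (pow_pos u0 3).le
  linarith

end Term

open Term in
theorem termS (enc : EncS) : TermS := by
  intro W c lo hi e f B k y h ⟨P1, P2, P3⟩ hl hh y0
  have u := U_pos
  obtain ⟨-, -, q1, q2⟩ := pi_U
  have hl' := (div_le_iff₀ u).1 hl
  have hh' := (le_div_iff₀ u).1 hh
  have big : π / 2 < y → p1 < hi := fun z => by
    have : (p1 : ℝ) < hi := by nlinarith
    exact_mod_cast this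
  have top : p1 < hi → (hi : ℝ) / U < π := fun z => by
    have : (hi : ℝ) ≤ 3 * U := by exact_mod_cast (P3 z).1
    rw [div_lt_iff₀ u]
    nlinarith [pi_gt_three]
  have u3 : (0 : ℝ) < U ^ 3 := pow_pos u 3
  have ci : ∀ (a b : ℕ), (bif Nat.ble a b then a else b) = min a b := fun a b => by
    rw [Bool.cond_eq_ite, min_def]
    simp only [Nat.ble_eq]
  have ca : ∀ (a b : ℕ), (bif Nat.ble a b then b else a) = max a b := fun a b => by
    rw [Bool.cond_eq_ite, max_def]
    simp only [Nat.ble_eq]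
  have cw : (bif ile 0 W then W else 0) = max 0 W := by
    rw [Bool.cond_eq_ite, max_def]
    simp only [ile_iff]
  have sb : ∀ a b : ℤ, Int.sub a b = a - b := fun _ _ => rfl
  simp only [term, forceZ_eq, force_eq, imin_eq, mn_eq, ci, ca, cw] at h
  simp only [Bool.cond_eq_ite, Nat.ble_eq, ile_iff, Int.mul_def, Int.add_def, sb, Nat.mul_eq,
    Nat.add_eq, Int.subNatNat_eq_coe] at h
  by_cases c1 : p2 ≤ lo
  · rw [if_pos c1] at h
    have l1 : (p2 : ℝ) ≤ lo := by exact_mod_cast c1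
    have l2 : π / 2 ≤ lo / U := by rw [le_div_iff₀ u]; linarith
    have l3 : p1 < hi := by
      have : (lo : ℝ) ≤ hi := hl'.trans hh'
      have : lo ≤ hi := by exact_mod_cast this
      have : p1 < p2 := by decide
      omega
    have w0 := le_max_left 0 W
    refine ⟨_, h, (chord' (mul_nonneg u3.le (by exact_mod_cast w0)) l2 hl hh (top l3)
      (le_trans (by exact_mod_cast min_le_left _ _) (ep_le w0 (P1 c1)))
      (le_trans (by exact_mod_cast min_le_right _ _) (ep_le w0 (P3 l3).2))).trans ?_⟩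
    have w1 : (W : ℝ) ≤ (max 0 W : ℤ) := by exact_mod_cast le_max_right 0 W
    exact add_le_add (mul_le_mul_of_nonpos_right (mul_le_mul_of_nonneg_left w1 u3.le)
      (cot_np (l2.trans hl) (hh.trans_lt (top l3)))) le_rfl
  have l0 : lo ≤ p1 := by
    have : p2 = p1 + 1 := by decide
    omega
  rw [if_neg c1] at h
  by_cases c2 : 0 ≤ W
  · rw [if_pos c2] at h
    have l1 : (lo : ℝ) ≤ p1 := by exact_mod_cast l0
    simp only [Bool.and_eq_true, Nat.ble_eq] at h
    obtain ⟨cl, cu, hk, b0, b1, b2⟩ := enc.1 _ _ h.2 h.1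
    have b3 : (B : ℝ) ≤ p1 := by exact_mod_cast h.1
    have w0 : (0 : ℝ) ≤ W := by exact_mod_cast c2
    generalize hv : (min (W * _ + _) (W * _ + _) : ℤ) = v at hk
    have key : ∀ z : ℝ, 0 < z → z ≤ π / 2 → lo ≤ z * U → z * U ≤ hi →
        (v : ℝ) ≤ U ^ 3 * W * cot z + U ^ 2 * c * z := fun z z0 z1 z2 z3 => by
      have a1 := Int.cast_le (R := ℝ).2 (hv ▸ min_le_left _ _ : v ≤ _)
      have a2 := Int.cast_le (R := ℝ).2 (hv ▸ min_le_right _ _ : v ≤ _)
      push_cast at a1 a2
      have a3 := affi z2 (le_min z3 ((mul_le_mul_of_nonneg_right z1 u.le).trans q2)) a1 a2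
      have a4 := mul_le_mul_of_nonneg_left (tang' u cl.cast_nonneg (by exact_mod_cast b0)
        (by rw [div_le_iff₀ u]; linarith) b1 b2 z0 z1) w0
      linarith
    split_ifs at hk with c3
    · exact ⟨_, hk, key y y0 (not_lt.1 fun z => (big z).not_ge c3) hl' hh'⟩
    refine ⟨_, hk, ?_⟩
    have m1 := Int.cast_le (R := ℝ).2 (min_le_left v (ep W c hi f))
    rcases le_or_gt y (π / 2) with z | z
    · exact m1.trans (key y y0 z hl' hh')
    · exact chord' (mul_nonneg u3.le w0) le_rfl z.le hh (top (big z))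
        (m1.trans (key _ (by positivity) le_rfl (l1.trans q1)
          ((mul_le_mul_of_nonneg_right z.le u.le).trans hh')))
        (le_trans (by exact_mod_cast min_le_right _ _) (ep_le c2 (P3 (big z)).2))
  · rw [if_neg c2] at h
    simp only [Bool.and_eq_true, Nat.blt_eq] at h
    refine ⟨_, h.2, ?_⟩
    generalize hv : (min (min _ _) _ : ℤ) = v
    have a1 := Int.cast_le (R := ℝ).2 (hv ▸ (min_le_left _ _).trans (min_le_left _ _) : v ≤ _)
    have a2 := Int.cast_le (R := ℝ).2 (hv ▸ (min_le_left _ _).trans (min_le_right _ _) : v ≤ _)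
    have a3 := Int.cast_le (R := ℝ).2 (hv ▸ min_le_right _ _ : v ≤ _)
    push_cast at a1 a2 a3
    have w0 : (U : ℝ) ^ 3 * W ≤ 0 :=
      mul_nonpos_of_nonneg_of_nonpos u3.le (by exact_mod_cast (not_le.1 c2).le)
    have key : ∀ z : ℝ, p1 ≤ z * U → z * U ≤ max (hi : ℝ) p2 → (v : ℝ) ≤ U ^ 2 * c * z :=
      fun z z1 z2 => by
        have := affi (I := 0) (s := c * U) (v := v) z1 z2 (by linarith) (by linarith)
        linarith
    rcases le_or_gt y (π / 2) with z | z
    · refine chord w0 (div_pos (by exact_mod_cast h.1) u) hl z le_rfl ?_ ?_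
      · have := mul_le_mul_of_nonpos_left (P2 h.1 l0) w0
        refine a1.trans (le_trans (le_of_eq ?_) (add_le_add this le_rfl))
        field_simp
        ring
      · rw [cot_half, mul_zero, zero_add]
        exact key _ q1 (q2.trans (le_max_right _ _))
    · have := key y (q1.trans (mul_le_mul_of_nonneg_right z.le u.le)) (hh'.trans (le_max_left _ _))
      linarith [mul_nonneg_of_nonpos_of_nonpos w0 (cot_np z.le (hh.trans_lt (top (big z))))]

end Pool.Agent.MP_2ab689_gt.Fam
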