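import Pool.Agent.MP_2ab689_gt.Fam.Tree
import Pool.Agent.MP_2ab689_gt.Fam.Enc
import Pool.Agent.MP_2ab689_gt.Fam.Term
import Pool.Agent.MP_2ab689_gt.Fam.Obt
import Pool.Agent.MP_2ab689_gt.Fam.Stage
import Pool.Agent.MP_2ab689_gt.Fam.Book
import Pool.Agent.MP_2ab689_gt.Fam.Dev

/-!
From certificates to the bounds for a triangulation.
-/

namespace Pool.Agent.MP_2ab689_gt.Fam

open Real Big

theorem tree_ok {cA cB : Cf} {T B : ℕ → ℕ} {t : Tr} (h : tree cA cB T t B = true) {y : ℕ → ℝ}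
    (hy : Ok y) (hB : In B y) : Cl cA y ∨ Cl cB y ∨ In T y :=
  tree_sound enc (termS enc) obtS hy t B h hB

theorem tree_one {c : Cf} {B : ℕ → ℕ} {t : Tr} (h : tree c c none t B = true) {y : ℕ → ℝ}
    (hy : Ok y) (hB : In B y) : Cl c y :=
  (tree_ok h hy hB).elim id fun k => k.elim id fun k => absurd k not_in_none

/-- The check of a class of faces. -/
noncomputable def clsB (S1 S2 η t : ℤ) (x : Kl) (B : List ℕ) (a b : Tr) (cs : List Tr) : Bool :=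
  and (decide (0 ≤ S2 ∧ 0 < t)) (and (tree x.c1 x.c1 none a full)
    (and (tree { x.c2 with m := x.c2.m - S2 - 1 } { x.c1 with m := x.c1.m - S1 - 1 } (box B) b full)
      (allLt 7 fun i => tree ((x.c2 :: x.pert S2 η t).getD i x.c2)
        ((x.c2 :: x.pert S2 η t).getD i x.c2) none (cs.getD i Tr.sk) (box B))))

theorem cls_of {S1 S2 η : ℤ} (t : ℤ) {x : Kl} (B : List ℕ) (a b : Tr) (cs : List Tr)
    (h : clsB S1 S2 η t x B a b cs = true) : Cls S1 S2 η x := by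
  simp only [clsB, Bool.and_eq_true, decide_eq_true_iff, allLt_iff] at h
  obtain ⟨⟨h1, h2⟩, h3, h4, h5⟩ := h
  refine clsS S1 S2 η t x (box B) h1 h2 (fun y hy => tree_one h3 hy (in_full hy))
    (fun y hy => tree_ok h4 hy (in_full hy)) fun c hc y hy hB => ?_
  obtain ⟨i, hi, rfl⟩ := List.mem_iff_getElem.mp hc
  have := tree_one (h5 i hi) hy hB
  rwa [List.getD_eq_getElem?_getD, List.getElem?_eq_getElem hi, Option.getD_some] at this

/-- The check of a class of faces in two stages without localisation. -/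
noncomputable def twoB (S1 : ℤ) (c1 c2 : Cf) (a b : Tr) : Bool :=
  and (tree c1 c1 none a full)
    (tree { c2 with m := c2.m - 0 - 1 } { c1 with m := c1.m - S1 - 1 } none b full)

theorem two_of {S1 : ℤ} {c1 c2 : Cf} (a b : Tr) (h : twoB S1 c1 c2 a b = true) :
    Cls S1 0 0 ⟨c1, c2, 0, 0, 0⟩ := by
  rw [twoB, Bool.and_eq_true] at h
  exact clsS S1 0 0 1 _ none le_rfl one_pos (fun y hy => tree_one h.1 hy (in_full hy))
    (fun y hy => tree_ok h.2 hy (in_full hy)) fun _ _ _ _ k => absurd k not_in_none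

/-- The class of a face. -/
def lkN (T : List Tri) (ns : List ℕ) (f : Tri) : ℕ := ((T.zip ns).lookup f).getD 0

/-- The multiplier of an edge. -/
def lkU (u : List ((ℕ × ℕ) × ℤ)) (a b : ℕ) : ℤ := (u.lookup (a, b)).getD 0

instance (l l' : ℕ → ℤ) (u : ℕ → ℕ → ℤ) (f : Tri) (x : Kl) : Decidable (Fit l l' u f x) :=
  inferInstanceAs (Decidable (_ ∧ _))

/-- The data of a triangulation fit together. -/
def Fits (K : ℕ) (T : List Tri) (S1 : ℤ) (L : List Kl) (ns : List ℕ) (l l' : List ℤ)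
    (u : List ((ℕ × ℕ) × ℤ)) : Prop :=
  ((rots T).map fun f => (f.1, f.2.1)).Perm ((rots T).map fun f => (f.2.1, f.1)) ∧
  (∀ f ∈ T, lkN T ns f / 6 < L.length ∧
    Fit (fun v => l.getD v 0) (fun v => l'.getD v 0) (lkU u) f (pick L (lkN T ns f))) ∧
  0 ≤ ((List.range K).map fun v => l.getD v 0).sum ∧
  0 ≤ ((List.range K).map fun v => l'.getD v 0).sum ∧
  10 ^ 13 * (tot K T (fun f => (pick L (lkN T ns f)).c1.m) (fun v => l.getD v 0) - S1 * U) ≤
    6 * (lowN K : ℤ) * U ^ 2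

instance (K : ℕ) (T : List Tri) (S1 : ℤ) (L : List Kl) (ns : List ℕ) (l l' : List ℤ)
    (u : List ((ℕ × ℕ) × ℤ)) : Decidable (Fits K T S1 L ns l l' u) :=
  inferInstanceAs (Decidable (_ ∧ _))

theorem kill_of {K : ℕ} {T : List Tri} {S1 : ℤ} {L : List Kl} (ns : List ℕ) (l l' : List ℤ)
    (u : List ((ℕ × ℕ) × ℤ)) (hL : ∀ x ∈ L, Cls S1 0 0 x) (h : Fits K T S1 L ns l l' u ∧
      10 ^ 13 * tot K T (fun f => (pick L (lkN T ns f)).c2.m) (fun v => l'.getD v 0) <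
        6 * (lowN K : ℤ) * U ^ 2) (p : ℕ → V) (vol : ℝ) (hC : Conf K T p vol) : vol < low K := by
  obtain ⟨⟨h1, h2, h3, h4, h5⟩, h6⟩ := h
  by_contra hn
  have a := (stageS book K T p vol S1 0 0 L _ _ _ _ _ hC (not_lt.mp hn) hL h1 h2 h3 h4 h5).1
  have b := (Int.cast_lt (R := ℝ)).mpr h6
  have c := mul_le_mul_of_nonneg_right (not_lt.mp hn) (pow_pos U_pos 2).le
  unfold low at c
  push_cast at b
  linarith

/-- An inner product is close to that of the table. -/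
def Cls1 (K : ℕ) (η g : ℤ) (a b : ℕ) : Prop :=
  |g * 10 ^ 14 - Dev.ipZ K a b * U| + η * 10 ^ 14 ≤ 10 ^ 9 * U

instance (K : ℕ) (η g : ℤ) (a b : ℕ) : Decidable (Cls1 K η g a b) :=
  inferInstanceAs (Decidable (_ ≤ _))

theorem Cls1.le {K : ℕ} {η g : ℤ} {a b : ℕ} (h : Cls1 K η g a b) {x : ℝ}
    (hx : |x - g / U| ≤ η / U) : |x - ip (cen K a) (cen K b)| ≤ 1 / 100000 := by
  have u := U_pos
  have h1 := (Int.cast_le (R := ℝ)).mpr h
  push_cast at h1
  have h2 : |(g : ℝ) / U - Dev.ipZ K a b / 10 ^ 14| + (η : ℝ) / U ≤ 1 / 100000 := by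
    have e : (g : ℝ) / U - Dev.ipZ K a b / 10 ^ 14 =
        (g * 10 ^ 14 - Dev.ipZ K a b * U) / (10 ^ 14 * U) := by field_simp
    rw [e, abs_div, abs_of_pos (by positivity : (0 : ℝ) < 10 ^ 14 * U),
      show (η : ℝ) / U = η * 10 ^ 14 / (10 ^ 14 * U) by field_simp, ← add_div,
      div_le_iff₀ (by positivity)]
    linarith
  rw [Dev.ip_cen]
  linarith [abs_sub_le x (g / U) (Dev.ipZ K a b / 10 ^ 14)]

theorem loc_of {K : ℕ} {S1 S2 η : ℤ} {L : List Kl} (ns : List ℕ) (l l' : List ℤ)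
    (u : List ((ℕ × ℕ) × ℤ)) (hL : ∀ x ∈ L, Cls S1 S2 η x)
    (h : Fits K (fac K) S1 L ns l l' u ∧
      10 ^ 13 * (tot K (fac K) (fun f => (pick L (lkN (fac K) ns f)).c2.m) (fun v => l'.getD v 0)
        - S2 * U) ≤ 6 * (lowN K : ℤ) * U ^ 2 ∧
      10 ^ 7 * tot K (fac K) (fun f => (pick L (lkN (fac K) ns f)).c2.m) (fun v => l'.getD v 0) ≤
        6 * ((data K).2.2 + 1 : ℤ) * U ^ 2 ∧
      ∀ f ∈ fac K, Cls1 K η (pick L (lkN (fac K) ns f)).g1 f.2.1 f.2.2 ∧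
        Cls1 K η (pick L (lkN (fac K) ns f)).g2 f.2.2 f.1 ∧
        Cls1 K η (pick L (lkN (fac K) ns f)).g3 f.1 f.2.1)
    (p : ℕ → V) (vol : ℝ) (hC : Conf K (fac K) p vol) (hv : low K ≤ vol) :
    vol ≤ ((data K).2.2 + 1 : ℝ) / 10 ^ 7 ∧ ∀ f ∈ rots (fac K),
      |ip (p f.1) (p f.2.1) - ip (cen K f.1) (cen K f.2.1)| ≤ 1 / 100000 := by
  obtain ⟨⟨h1, h2, h3, h4, h5⟩, h6, h7, h8⟩ := h
  obtain ⟨a, b⟩ := stageS book K _ p vol S1 S2 η L _ _ _ _ _ hC hv hL h1 h2 h3 h4 h5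
  refine ⟨?_, fun g hg => ?_⟩
  · have c := (Int.cast_le (R := ℝ)).mpr h7
    push_cast at c
    refine le_of_mul_le_mul_right ?_ (pow_pos U_pos 2)
    linarith
  · obtain ⟨f, hf, rfl | rfl | rfl⟩ := mem_rots.mp hg
    · exact (h8 _ hf).2.2.le (b h6 _ hf).2.2
    · exact (h8 _ hf).1.le (b h6 _ hf).1
    · exact (h8 _ hf).2.1.le (b h6 _ hf).2.1

end Pool.Agent.MP_2ab689_gt.Fam
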