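import Pool.Agent.MP_2ab689_gt.Fam.Chk

/-!
Chains of nodes and trees of boxes for the face inequalities.
-/

namespace Pool.Agent.MP_2ab689_gt.Fam

open Real Big

/-- A field of a packed number. -/
def fld (d w sh i : ℕ) : ℕ :=
  Nat.shiftLeft (Nat.mod (Nat.shiftRight d (Nat.mul w i)) (Nat.pow 2 w)) sh

/-- Lower bound of an affine function on a box. -/
noncomputable def rmin (r w0 w1 w2 w3 a : ℤ) (l0 l1 l2 l3 h0 h1 h2 h3 : ℕ) (k : ℤ → Bool) : Bool :=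
  imin (mn a piL) (mn a piH) fun g =>
  imin (mn (Int.sub w0 a) l0) (mn (Int.sub w0 a) h0) fun v0 =>
  imin (mn (Int.sub w1 a) l1) (mn (Int.sub w1 a) h1) fun v1 =>
  imin (mn (Int.sub w2 a) l2) (mn (Int.sub w2 a) h2) fun v2 =>
  imin (mn (Int.sub w3 a) l3) (mn (Int.sub w3 a) h3) fun v3 =>
  forceZ (Int.add (Int.add (mn r U) g) (Int.add (Int.add v0 v1) (Int.add v2 v3))) k

/-- A node of a chain. -/
noncomputable def node (r w0 w1 w2 w3 n1 n2 n3 : ℤ)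
    (l0 l1 l2 l3 h0 h1 h2 h3 e0 e1 e2 e3 f0 f1 f2 f3 w sh d : ℕ) (k : ℤ → ℤ → ℤ → Bool) : Bool :=
  force (fld d w sh 0) fun ρ => force (fld d w sh 1) fun s =>
  forceZ (Int.subNatNat (fld d w sh 2) 2361183241434822606848) fun a => forceZ (mn a U) fun b =>
  term (Int.ofNat ρ) (Int.add b (mn w0 s)) l0 h0 e0 f0 (fld d w sh 3) fun v0 =>
  term (Int.sub (Int.ofNat ρ) n1) (Int.add b (mn w1 s)) l1 h1 e1 f1 (fld d w sh 4) fun v1 =>
  term (Int.sub (Int.ofNat ρ) n2) (Int.add b (mn w2 s)) l2 h2 e2 f2 (fld d w sh 5) fun v2 =>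
  term (Int.sub (Int.ofNat ρ) n3) (Int.add b (mn w3 s)) l3 h3 e3 f3 (fld d w sh 6) fun v3 =>
  imin (mn (Int.neg a) piL) (mn (Int.neg a) piH) fun g =>
  forceZ (Int.add (Int.add (Int.add v0 v1) (Int.add v2 v3)) (mn (Int.sub
    (Int.sub g (mn (Int.sub (Int.ofNat ρ) r) s)) (mn 4 (Nat.mul U U))) (Nat.mul U U))) fun A =>
  and (ile 0 A) (k (Int.ofNat ρ) A (Int.ofNat s))

/-- The condition between two nodes. -/
noncomputable def link (ρ A s ρ' A' s' : ℤ) : Bool :=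
  forceZ (Int.sub (mn (Int.mul (Int.sub ρ' ρ) (Int.sub s s')) (Nat.mul U U)) (Int.add A A')) fun M =>
    or (ile M 0) (ile (Int.mul M M) (mn (Int.mul A A') 4))

/-- A chain of nodes. -/
noncomputable def go (nd : ℕ → (ℤ → ℤ → ℤ → Bool) → Bool) (big hi : ℤ) (ww n : ℕ) :
    ℕ → ℤ → ℤ → ℤ → Bool :=
  Nat.rec (fun _ ρ _ s => or (ile s (mn 4 U)) (or (ile big ρ) (ile hi (mn ρ U))))
    (fun _ ih d ρ A s => nd d fun ρ' A' s' => and (link ρ A s ρ' A' s')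
      (force (Nat.shiftRight d ww) fun d' => ih d' ρ' A' s')) n

/-- The check of a box by a chain. -/
noncomputable def leaf (c : Cf) (B : ℕ → ℕ) (a0 a1 : ℤ) (n sh d : ℕ) : Bool :=
  forceZ (c.m + c.u1 + c.u2 + c.u3) fun r => forceZ (c.l1 + c.l2 + c.l3) fun w0 =>
  forceZ c.l1 fun w1 => forceZ c.l2 fun w2 => forceZ c.l3 fun w3 =>
  forceZ (Int.ofNat (U + 2 * (c.u1.toNat + c.u2.toNat + c.u3.toNat))) fun big =>
  force (B 0) fun l0 => force (B 1) fun l1 => force (B 2) fun l2 => force (B 3) fun l3 =>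
  force (B 4) fun h0 => force (B 5) fun h1 => force (B 6) fun h2 => force (B 7) fun h3 =>
  rmin r w0 w1 w2 w3 a0 l0 l1 l2 l3 h0 h1 h2 h3 fun lo => cond (ile (mn big U) lo) true <|
  forceZ (2 * (c.u2 + c.u3)) fun n1 => forceZ (2 * (c.u1 + c.u3)) fun n2 =>
  forceZ (2 * (c.u1 + c.u2)) fun n3 =>
  prep l0 h0 fun e0 f0 => prep l1 h1 fun e1 f1 => prep l2 h2 fun e2 f2 => prep l3 h3 fun e3 f3 =>
  rmin (-r) (-w0) (-w1) (-w2) (-w3) a1 l0 l1 l2 l3 h0 h1 h2 h3 fun hi =>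
  force (Nat.sub 72 sh) fun w => force (Nat.mul 7 w) fun ww =>
  node r w0 w1 w2 w3 n1 n2 n3 l0 l1 l2 l3 h0 h1 h2 h3 e0 e1 e2 e3 f0 f1 f2 f3 w sh d fun ρ A s =>
  and (ile (mn ρ U) lo) (force (Nat.shiftRight d ww) fun d' =>
    go (node r w0 w1 w2 w3 n1 n2 n3 l0 l1 l2 l3 h0 h1 h2 h3 e0 e1 e2 e3 f0 f1 f2 f3 w sh) big
      (Int.neg hi) ww n d' ρ A s)

/-- Certificates. -/
inductive Tr where
  | lf (c : Bool) (a0 a1 : ℤ) (n sh d : ℕ) : Tr
  | ob (c : Bool) (j t0 t1 t2 z0 z1 z2 : ℕ) : Tr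
  | sk : Tr
  | sp (j t : ℕ) (l r : Tr) : Tr

/-- Update of a box. -/
def upd (B : ℕ → ℕ) (i t : ℕ) : ℕ → ℕ := fun k => cond (Nat.beq k i) t (B k)

/-- The check of a tree. -/
noncomputable def tree (cA cB : Cf) (T : ℕ → ℕ) (t : Tr) : (ℕ → ℕ) → Bool :=
  Tr.rec (fun c a0 a1 n sh d B => leaf (cond c cA cB) B a0 a1 n sh d)
    (fun c j t0 t1 t2 z0 z1 z2 B => obt (cond c cA cB) B j t0 t1 t2 z0 z1 z2)
    (fun B => allLt 4 fun j => and (Nat.ble (T j) (B j)) (Nat.ble (B (j + 4)) (T (j + 4))))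
    (fun j t _ _ l r B => and (Nat.blt j 4) (and (l (upd B (j + 4) t)) (r (upd B j t)))) t

/-- A box from a list. -/
def box (L : List ℕ) : ℕ → ℕ := fun i => L.getD i 0

/-- The box of all angles. -/
def full : ℕ → ℕ := box [0, 0, 0, 0, piH, piH, piH, piH]

/-- The empty box. -/
def none : ℕ → ℕ := box [1, 0, 0, 0, 0, 0, 0, 0]

namespace TreeA

theorem min_mul {a : ℤ} {l h : ℕ} {x : ℝ} (h1 : (l : ℝ) ≤ x) (h2 : x ≤ h) :
    ((min (mn a l) (mn a h) : ℤ) : ℝ) ≤ a * x := by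
  rw [mn_eq, mn_eq]
  push_cast
  rcases le_total 0 (a : ℝ) with h | h
  · exact (min_le_left _ _).trans (mul_le_mul_of_nonneg_left h1 h)
  · exact (min_le_right _ _).trans (mul_le_mul_of_nonpos_left h2 h)

theorem rmin_sound {r w0 w1 w2 w3 a : ℤ} {B : ℕ → ℕ} {k : ℤ → Bool} {y : ℕ → ℝ} (hy : Ok y)
    (hB : In B y) (h : rmin r w0 w1 w2 w3 a (B 0) (B 1) (B 2) (B 3) (B 4) (B 5) (B 6) (B 7) k = true) :
    ∃ v, k v = true ∧ (v : ℝ) ≤ (r + w0 * y 0 + w1 * y 1 + w2 * y 2 + w3 * y 3) * U := by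
  simp only [rmin, imin_eq, forceZ_eq] at h
  refine ⟨_, h, ?_⟩
  have b := fun j hj (a : ℤ) => min_mul (a := a) ((div_le_iff₀ U_pos).mp (hB j hj).1)
    ((le_div_iff₀ U_pos).mp (hB j hj).2)
  have b0 := b 0 (by norm_num) (w0 - a)
  have b1 := b 1 (by norm_num) (w1 - a)
  have b2 := b 2 (by norm_num) (w2 - a)
  have b3 := b 3 (by norm_num) (w3 - a)
  have g := min_mul (a := a) pi_U.1 pi_U.2.1
  rw [← hy.2.1] at g
  change ((mn r U + _ + (_ + _ + (_ + _)) : ℤ) : ℝ) ≤ _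
  rw [Int.cast_add, Int.cast_add, Int.cast_add, Int.cast_add, Int.cast_add, mn_eq r]
  simp only [Int.cast_sub, Int.cast_mul, Int.cast_natCast] at b0 b1 b2 b3 ⊢
  exact le_trans (add_le_add (add_le_add le_rfl g) (add_le_add (add_le_add b0 b1)
    (add_le_add b2 b3))) (le_of_eq (by ring))

/-- What a node proves. -/
def NF (X N R : ℝ) (ρ A s : ℤ) : Prop :=
  (0 : ℝ) ≤ A ∧ A + 4 * (U : ℝ) ^ 4 ≤ U ^ 3 * (ρ * X - N) + U ^ 2 * s * (R - ρ)

theorem node_sound (hT : TermS) {r w0 w1 w2 w3 n1 n2 n3 : ℤ} {B : ℕ → ℕ}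
    {e0 e1 e2 e3 f0 f1 f2 f3 w sh : ℕ} {y : ℕ → ℝ} (hy : Ok y) (hB : In B y)
    (q0 : Prep (B 0) (B 4) e0 f0) (q1 : Prep (B 1) (B 5) e1 f1) (q2 : Prep (B 2) (B 6) e2 f2)
    (q3 : Prep (B 3) (B 7) e3 f3) (d : ℕ) (k : ℤ → ℤ → ℤ → Bool)
    (h : node r w0 w1 w2 w3 n1 n2 n3 (B 0) (B 1) (B 2) (B 3) (B 4) (B 5) (B 6) (B 7)
      e0 e1 e2 e3 f0 f1 f2 f3 w sh d k = true) :
    ∃ ρ A s, k ρ A s = true ∧ NF (cot (y 0) + cot (y 1) + cot (y 2) + cot (y 3))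
      (n1 * cot (y 1) + n2 * cot (y 2) + n3 * cot (y 3))
      (r + w0 * y 0 + w1 * y 1 + w2 * y 2 + w3 * y 3) ρ A s := by
  unfold node at h
  rw [force_eq, force_eq, forceZ_eq, forceZ_eq] at h
  generalize fld d w sh 0 = ρ at h
  generalize fld d w sh 1 = s at h
  generalize Int.subNatNat _ _ = a at h
  obtain ⟨v0, h, b0⟩ := hT _ _ _ _ _ _ _ _ _ h q0 (hB 0 (by norm_num)).1 (hB 0 (by norm_num)).2
    (hy.1 0 (by norm_num))
  obtain ⟨v1, h, b1⟩ := hT _ _ _ _ _ _ _ _ _ h q1 (hB 1 (by norm_num)).1 (hB 1 (by norm_num)).2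
    (hy.1 1 (by norm_num))
  obtain ⟨v2, h, b2⟩ := hT _ _ _ _ _ _ _ _ _ h q2 (hB 2 (by norm_num)).1 (hB 2 (by norm_num)).2
    (hy.1 2 (by norm_num))
  obtain ⟨v3, h, b3⟩ := hT _ _ _ _ _ _ _ _ _ h q3 (hB 3 (by norm_num)).1 (hB 3 (by norm_num)).2
    (hy.1 3 (by norm_num))
  rw [imin_eq, forceZ_eq, Bool.and_eq_true, ile_iff] at h
  refine ⟨_, _, _, h.2, by exact_mod_cast h.1, ?_⟩
  have g := min_mul (a := -a) pi_U.1 pi_U.2.1
  rw [← hy.2.1] at g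
  change ((min (mn (Int.neg a) piL) (mn (Int.neg a) piH) : ℤ) : ℝ) ≤ _ at g
  generalize min (mn (Int.neg a) piL) (mn (Int.neg a) piH) = G at g
  have g2 := mul_le_mul_of_nonneg_right g (mul_pos U_pos U_pos).le
  change ((v0 + v1 + (v2 + v3) + (G - ((ρ : ℤ) - r) * s - 4 * (U * U : ℕ)) * (U * U : ℕ) : ℤ) : ℝ)
    + _ ≤ _ * (((ρ : ℤ) : ℝ) * _ - _) + _ * ((s : ℤ) : ℝ) * (_ - ((ρ : ℤ) : ℝ))
  change _ ≤ _ * (((ρ : ℤ) : ℝ)) * _ + _ * ((a * U + w0 * s : ℤ) : ℝ) * _ at b0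
  change _ ≤ _ * (((ρ : ℤ) - n1 : ℤ) : ℝ) * _ + _ * ((a * U + w1 * s : ℤ) : ℝ) * _ at b1
  change _ ≤ _ * (((ρ : ℤ) - n2 : ℤ) : ℝ) * _ + _ * ((a * U + w2 * s : ℤ) : ℝ) * _ at b2
  change _ ≤ _ * (((ρ : ℤ) - n3 : ℤ) : ℝ) * _ + _ * ((a * U + w3 * s : ℤ) : ℝ) * _ at b3
  push_cast at g2 b0 b1 b2 b3 ⊢
  linarith

theorem quad {A A' M p q : ℝ} (hA : 0 ≤ A) (hA' : 0 ≤ A') (hp : 0 ≤ p) (hq : 0 ≤ q)
    (h : M ≤ 0 ∨ M * M ≤ A * A' * 4) : p * q * M ≤ q ^ 2 * A + p ^ 2 * A' := by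
  have h0 : 0 ≤ q ^ 2 * A + p ^ 2 * A' := by positivity
  rcases h with h | h
  · exact (mul_nonpos_of_nonneg_of_nonpos (mul_nonneg hp hq) h).trans h0
  · refine (abs_le_of_sq_le_sq' ?_ h0).2
    nlinarith [sq_nonneg (q ^ 2 * A - p ^ 2 * A'), mul_le_mul_of_nonneg_left h (sq_nonneg (p * q))]

theorem go_sound {X N R : ℝ} {nd : ℕ → (ℤ → ℤ → ℤ → Bool) → Bool} {big hi : ℤ} {ww : ℕ}
    (hn : ∀ d k, nd d k = true → ∃ ρ A s, k ρ A s = true ∧ NF X N R ρ A s) (hX : 4 ≤ X)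
    (hb : big ≤ R → 4 * U ≤ R * X - N) (hh : R * U ≤ hi) (n : ℕ) :
    ∀ d ρ A s, go nd big hi ww n d ρ A s = true → NF X N R ρ A s → ρ ≤ R → 4 * U ≤ R * X - N := by
  have u := U_pos
  have u3 : (0 : ℝ) < U ^ 3 := by positivity
  induction n with
  | zero =>
    intro d ρ A s h ⟨h1, h2⟩ h3
    change (ile _ _ || (ile _ _ || ile _ _)) = true at h
    simp only [Bool.or_eq_true, ile_iff, mn_eq] at h
    rcases h with h | h | h
    · have h4 : (s : ℝ) ≤ 4 * U := by exact_mod_cast h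
      refine le_of_mul_le_mul_left ?_ u3
      nlinarith [mul_nonneg (mul_nonneg (sq_nonneg (U : ℝ)) (sub_nonneg.mpr h3))
        (by nlinarith : 0 ≤ U * X - s)]
    · exact hb (le_trans (by exact_mod_cast h) h3)
    · have h4 : (hi : ℝ) ≤ ρ * U := by exact_mod_cast h
      rw [← le_antisymm h3 (le_of_mul_le_mul_right (hh.trans h4) u)] at h2 ⊢
      refine le_of_mul_le_mul_left ?_ u3
      linarith
  | succ n ih =>
    intro d ρ A s h ⟨h1, h2⟩ h3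
    obtain ⟨ρ', A', s', h, k1, k2⟩ := hn _ _ h
    rw [Bool.and_eq_true, force_eq] at h
    rcases le_or_gt (ρ' : ℝ) R with h4 | h4
    · exact ih _ _ _ _ h.2 ⟨k1, k2⟩ h4
    have h5 := h.1
    simp only [link, forceZ_eq, Bool.or_eq_true, ile_iff, mn_eq] at h5
    change (ρ' - ρ) * (s - s') * (U * U : ℕ) - (A + A') ≤ 0 ∨
      ((ρ' - ρ) * (s - s') * (U * U : ℕ) - (A + A')) * ((ρ' - ρ) * (s - s') * (U * U : ℕ) - (A + A'))
      ≤ A * A' * (4 : ℕ) at h5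
    have h6 := quad (M := (ρ' - ρ) * (s - s') * (U * U) - (A + A')) h1 k1 (sub_nonneg.mpr h3)
      (sub_pos.mpr h4).le (by exact_mod_cast h5)
    have h7 : (0 : ℝ) < ρ' - ρ := by linarith
    have e1 := mul_le_mul_of_nonneg_left h2 (mul_pos h7 (sub_pos.mpr h4)).le
    have e2 := mul_le_mul_of_nonneg_left k2 (mul_nonneg h7.le (sub_nonneg.mpr h3))
    refine le_of_mul_le_mul_left ?_ (mul_pos (mul_pos h7 h7) u3)
    nlinarith

theorem big_sound {c : Cf} {y : ℕ → ℝ} (hy : Ok y) {R : ℝ}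
    (h : ((Int.ofNat (U + 2 * (c.u1.toNat + c.u2.toNat + c.u3.toNat)) : ℤ) : ℝ) ≤ R) :
    4 * U ≤ R * (cot (y 0) + cot (y 1) + cot (y 2) + cot (y 3)) -
      ((2 * (c.u2 + c.u3) : ℤ) * cot (y 1) + (2 * (c.u1 + c.u3) : ℤ) * cot (y 2)
        + (2 * (c.u1 + c.u2) : ℤ) * cot (y 3)) := by
  obtain ⟨h0, hs, hX⟩ := hy
  have y0 := h0 0 (by norm_num)
  have y1 := h0 1 (by norm_num)
  have y2 := h0 2 (by norm_num)
  have y3 := h0 3 (by norm_num)
  have key : ∀ (u : ℤ) (a b : ℝ), 0 < a → 0 < b → u * a ≤ u.toNat * (a + b) := by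
    intro u a b ha hb
    have h1 : (u : ℝ) ≤ u.toNat := by exact_mod_cast Int.self_le_toNat u
    have h2 : (0 : ℝ) ≤ u.toNat := Nat.cast_nonneg _
    nlinarith
  have a1 := key c.u1 _ _ (T32.cot_add y2 y3 (by linarith)).1 (T32.cot_add y0 y1 (by linarith)).1
  have a2 := key c.u2 _ _ (T32.cot_add y1 y3 (by linarith)).1 (T32.cot_add y0 y2 (by linarith)).1
  have a3 := key c.u3 _ _ (T32.cot_add y1 y2 (by linarith)).1 (T32.cot_add y0 y3 (by linarith)).1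
  have e := mul_le_mul_of_nonneg_right h (le_trans (by norm_num) hX)
  have e2 := mul_le_mul_of_nonneg_left hX U_pos.le
  rw [Int.ofNat_eq_natCast] at e
  push_cast at e ⊢
  linarith

theorem leaf_sound (hE : EncS) (hT : TermS) {c : Cf} {B : ℕ → ℕ} {a0 a1 : ℤ} {n sh d : ℕ}
    {y : ℕ → ℝ} (hy : Ok y) (hB : In B y) (h : leaf c B a0 a1 n sh d = true) : Cl c y := by
  have u := U_pos
  have fin : 4 * U ≤ ((c.m + c.u1 + c.u2 + c.u3 : ℤ) + (c.l1 + c.l2 + c.l3 : ℤ) * y 0 + c.l1 * y 1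
      + c.l2 * y 2 + c.l3 * y 3) * (cot (y 0) + cot (y 1) + cot (y 2) + cot (y 3)) -
      ((2 * (c.u2 + c.u3) : ℤ) * cot (y 1) + (2 * (c.u1 + c.u3) : ℤ) * cot (y 2)
        + (2 * (c.u1 + c.u2) : ℤ) * cot (y 3)) := by
    unfold leaf at h
    simp only [force_eq, forceZ_eq] at h
    obtain ⟨lo, h, b1⟩ := rmin_sound hy hB h
    cases e : ile (mn (Int.ofNat (U + 2 * (c.u1.toNat + c.u2.toNat + c.u3.toNat))) U) lo
    swap
    · rw [ile_iff, mn_eq] at e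
      refine big_sound hy (le_of_mul_le_mul_right (le_trans ?_ b1) u)
      exact_mod_cast e
    rw [e, cond_false] at h
    obtain ⟨e0, f0, h, q0⟩ := hE.2 _ _ _ h
    obtain ⟨e1, f1, h, q1⟩ := hE.2 _ _ _ h
    obtain ⟨e2, f2, h, q2⟩ := hE.2 _ _ _ h
    obtain ⟨e3, f3, h, q3⟩ := hE.2 _ _ _ h
    obtain ⟨hi, h, b2⟩ := rmin_sound hy hB h
    obtain ⟨ρ, A, s, h, b3⟩ := node_sound hT hy hB q0 q1 q2 q3 _ _ h
    rw [Bool.and_eq_true, ile_iff, mn_eq] at h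
    refine go_sound (node_sound hT hy hB q0 q1 q2 q3) hy.2.2 (big_sound hy) ?_ _ _ _ _ _ h.2 b3
      (le_of_mul_le_mul_right (le_trans (by exact_mod_cast h.1) b1) u)
    change _ ≤ ((-hi : ℤ) : ℝ)
    push_cast at b2 ⊢
    linarith
  unfold Cl Cf.R
  rw [add_div' _ _ _ u.ne', ← mul_div_assoc]
  refine div_le_div_of_nonneg_right ?_ u.le
  push_cast at fin
  linarith

theorem In.upd {B : ℕ → ℕ} {y : ℕ → ℝ} (h : In B y) {j t : ℕ} (hj : j < 4) :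
    In (upd B (j + 4) t) y ∨ In (upd B j t) y := by
  rcases le_total (y j) ((t : ℝ) / U) with k | k
  · refine Or.inl fun i hi => ?_
    have e0 : i ≠ j + 4 := by omega
    simp only [Fam.upd, beq_dec, e0, decide_false, cond_false]
    by_cases e : i = j
    · simpa [e] using ⟨e ▸ (h i hi).1, k⟩
    · simpa [e] using h i hi
  · refine Or.inr fun i hi => ?_
    have e0 : i + 4 ≠ j := by omega
    simp only [Fam.upd, beq_dec, e0, decide_false, cond_false]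
    by_cases e : i = j
    · simpa [e] using ⟨k, e ▸ (h i hi).2⟩
    · simpa [e] using h i hi

end TreeA

open TreeA in
theorem tree_sound (hE : EncS) (hT : TermS) (hO : ObtS) {cA cB : Cf} {T : ℕ → ℕ} {y : ℕ → ℝ}
    (hy : Ok y) (t : Tr) : ∀ B, tree cA cB T t B = true → In B y →
    Cl cA y ∨ Cl cB y ∨ In T y := by
  induction t with
  | lf c a0 a1 n sh d =>
    intro B h hB
    cases c
    · exact Or.inr (Or.inl (leaf_sound hE hT hy hB h))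
    · exact Or.inl (leaf_sound hE hT hy hB h)
  | ob c j t0 t1 t2 z0 z1 z2 =>
    intro B h hB
    cases c
    · exact Or.inr (Or.inl (hO _ _ _ _ _ _ _ _ _ _ h hy hB))
    · exact Or.inl (hO _ _ _ _ _ _ _ _ _ _ h hy hB)
  | sk =>
    intro B h hB
    refine Or.inr (Or.inr fun j hj => ?_)
    have k := (allLt_iff 4 fun j => and (Nat.ble (T j) (B j)) (Nat.ble (B (j + 4)) (T (j + 4)))).mp
      h j hj
    rw [Bool.and_eq_true, Nat.ble_eq, Nat.ble_eq] at k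
    exact ⟨(div_le_div_of_nonneg_right (Nat.cast_le.mpr k.1) U_pos.le).trans (hB j hj).1,
      (hB j hj).2.trans (div_le_div_of_nonneg_right (Nat.cast_le.mpr k.2) U_pos.le)⟩
  | sp j t l r il ir =>
    intro B h hB
    change (Nat.blt j 4 && (tree cA cB T l _ && tree cA cB T r _)) = true at h
    rw [Bool.and_eq_true, Bool.and_eq_true, Nat.blt_eq] at h
    exact (In.upd hB (t := t) h.1).elim (il _ h.2.1) (ir _ h.2.2)

theorem in_full {y : ℕ → ℝ} (hy : Ok y) : In full y := by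
  obtain ⟨h0, hs, -⟩ := hy
  have y0 := h0 0 (by norm_num)
  have y1 := h0 1 (by norm_num)
  have y2 := h0 2 (by norm_num)
  have y3 := h0 3 (by norm_num)
  have h : π ≤ piH / U := (le_div_iff₀ U_pos).mpr pi_U.2.1
  intro j hj
  interval_cases j <;> simp only [full, box, List.getD_cons_succ, List.getD_cons_zero,
    Nat.cast_zero, zero_div] <;> constructor <;> linarith

theorem not_in_none {y : ℕ → ℝ} : ¬In none y := fun h => by
  have := (h 0 (by norm_num)).1.trans (h 0 (by norm_num)).2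
  simp only [none, box, List.getD_cons_succ, List.getD_cons_zero] at this
  have h2 := (div_le_div_iff_of_pos_right U_pos).mp this
  norm_num at h2

end Pool.Agent.MP_2ab689_gt.Fam
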